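import Pool.Agent.Y293.EM.Lln

/-!
# Frequency of the digits near the ends, and a good shift
-/

set_option autoImplicit false

open Finset Filter MeasureTheory

namespace Pool.Agent.Y293.EM

/-- the last digit is near one of the ends -/
def zn (q q' : ℕ) (c : ℤ) : Prop := c % q < q' ∨ (q : ℤ) - q' ≤ c % q

/-- the digits of `v` are near the ends with frequency at most `κ` -/
def GoodP (q q' : ℕ) (κ : ℝ) (v : ℝ) : Prop :=
  ∀ ε : ℝ, 0 < ε → ∀ᶠ l : ℕ in atTop,
    (∑ i ∈ Finset.range (l ^ 2),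
      (@ite ℝ (zn q q' ⌊(q : ℝ) ^ (i + 1) * v⌋) (Classical.dec _) 1 0)) ≤
      (κ + ε) * (l : ℝ) ^ 2

theorem floor_par {q : ℕ} (hq : 1 ≤ q) (i : ℕ) (v : ℝ) :
    ⌊(q : ℝ) ^ i * v⌋ = ⌊(q : ℝ) ^ (i + 1) * v⌋ / q := by
  have hq' : (q : ℝ) ≠ 0 := by
    have : (0 : ℝ) < q := by exact_mod_cast hq
    exact this.ne'
  rw [← Int.floor_div_natCast]
  congr 1
  rw [pow_succ]
  field_simp

theorem GoodP_unit {q q' S : ℕ} (hq' : 1 ≤ q') (hS : 1 ≤ S) (hq : q = S * q') :
    ∀ᵐ v ∂(volume.restrict (Set.Ico (0 : ℝ) 1)), GoodP q q' (2 / S) v := by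
  classical
  have hq1 : 1 ≤ q := by rw [hq]; exact Nat.mul_pos hS hq'
  have hq0 : (0 : ℝ) < q := by exact_mod_cast hq1
  have hq0' : (0 : ℤ) < q := by exact_mod_cast hq1
  set ν : Measure ℝ := volume.restrict (Set.Ico (0 : ℝ) 1) with hν
  have : IsProbabilityMeasure ν := ⟨by rw [hν]; simp⟩
  let F : ℕ → ℝ → ℤ := fun i v => ⌊(q : ℝ) ^ i * v⌋
  have hF : ∀ i, Measurable (F i) := fun i => Int.measurable_floor.comp (measurable_id.const_mul _)
  have hpar : ∀ i x, F i x = F (i + 1) x / q := fun i x => floor_par hq1 i x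
  have hN : ∀ i b, ν.real {x | F i x = b} = if 0 ≤ b ∧ b < (q : ℤ) ^ i then 1 / (q : ℝ) ^ i else 0 := by
    intro i b
    have hqi : (0 : ℝ) < (q : ℝ) ^ i := pow_pos hq0 i
    have hset : {x | F i x = b} = Set.Ico ((b : ℝ) / q ^ i) (((b : ℝ) + 1) / q ^ i) := by
      ext x
      simp only [Set.mem_setOf_eq, F, Int.floor_eq_iff, Set.mem_Ico]
      rw [div_le_iff₀ hqi, lt_div_iff₀ hqi, mul_comm x]
    have hm : MeasurableSet {x | F i x = b} := hF i (measurableSet_singleton b)
    rw [hν, measureReal_restrict_apply hm, hset]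
    split_ifs with hb
    · have h1 : Set.Ico ((b : ℝ) / q ^ i) (((b : ℝ) + 1) / q ^ i) ∩ Set.Ico 0 1 =
          Set.Ico ((b : ℝ) / q ^ i) (((b : ℝ) + 1) / q ^ i) := by
        apply Set.inter_eq_left.2
        apply Set.Ico_subset_Ico
        · have : (0 : ℝ) ≤ b := by exact_mod_cast hb.1
          positivity
        · rw [div_le_one hqi]
          exact_mod_cast hb.2
      rw [h1, Real.volume_real_Ico_of_le]
      · ring
      · apply div_le_div_of_nonneg_right _ hqi.le
        linarith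
    · have h1 : Set.Ico ((b : ℝ) / q ^ i) (((b : ℝ) + 1) / q ^ i) ∩ Set.Ico 0 1 = ∅ := by
        rw [Set.eq_empty_iff_forall_notMem]
        rintro x ⟨⟨h2, h3⟩, ⟨h4, h5⟩⟩
        apply hb
        rw [div_le_iff₀ hqi] at h2
        rw [lt_div_iff₀ hqi] at h3
        constructor
        · have : (0 : ℝ) < (b : ℝ) + 1 := lt_of_le_of_lt (by positivity) h3
          have h6 : (0 : ℤ) < b + 1 := by exact_mod_cast this
          omega
        · have : (b : ℝ) < (q : ℝ) ^ i := lt_of_le_of_lt h2 (by nlinarith)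
          exact_mod_cast this
      rw [h1, measureReal_empty]
  have hchild : ∀ i c, ν.real {x | F (i + 1) x = c} = ν.real {x | F i x = c / q} / q := by
    intro i c
    rw [hN, hN]
    have h1 : (0 ≤ c ∧ c < (q : ℤ) ^ (i + 1)) ↔ (0 ≤ c / (q : ℤ) ∧ c / (q : ℤ) < (q : ℤ) ^ i) := by
      rw [Int.ediv_lt_iff_lt_mul hq0', pow_succ, Int.le_ediv_iff_mul_le hq0', zero_mul]
    by_cases h2 : 0 ≤ c ∧ c < (q : ℤ) ^ (i + 1)
    · rw [if_pos h2, if_pos (h1.1 h2), pow_succ]
      field_simp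
    · rw [if_neg h2, if_neg (fun h => h2 (h1.2 h)), zero_div]
  have hzcard : ∀ b, (((ch q b).filter (fun c => zn q q' c)).card : ℝ) ≤ 2 * q' := by
    intro b
    have hsub : (ch q b).filter (fun c => zn q q' c) ⊆
        Finset.Ico (q * b) (q * b + q') ∪ Finset.Ico (q * b + q - q') (q * b + q) := by
      intro c hc
      rw [Finset.mem_filter] at hc
      obtain ⟨h1, h2⟩ := hc
      have h3 := (mem_ch hq1 _ _).1 h1
      have h4 := Int.emod_add_mul_ediv c q
      rw [h3] at h4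
      have h5 := Int.emod_lt_of_pos c hq0'
      have h6 := Int.emod_nonneg c hq0'.ne'
      rw [Finset.mem_union, Finset.mem_Ico, Finset.mem_Ico]
      rcases h2 with h2 | h2
      · left; constructor <;> linarith
      · right; constructor <;> linarith
    have h7 := (Finset.card_le_card hsub).trans (Finset.card_union_le _ _)
    rw [Int.card_Ico, Int.card_Ico] at h7
    have h8 : ((q : ℤ) * b + q' - q * b).toNat = q' := by
      have : (q : ℤ) * b + q' - q * b = q' := by ring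
      rw [this]; simp
    have h9 : ((q : ℤ) * b + q - (q * b + q - q')).toNat = q' := by
      have : (q : ℤ) * b + q - (q * b + q - q') = q' := by ring
      rw [this]; simp
    rw [h8, h9] at h7
    have : (((ch q b).filter (fun c => zn q q' c)).card : ℝ) ≤ ((q' + q' : ℕ) : ℝ) := by
      exact_mod_cast h7
    push_cast at this
    linarith
  have hR : ∀ i, ∀ᵐ x ∂ν, F i x ∈ Finset.Icc (0 : ℤ) ((q : ℤ) ^ i) := by
    intro i
    rw [hν]
    filter_upwards [ae_restrict_mem measurableSet_Ico] with x hx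
    rw [Finset.mem_Icc]
    have hqi : (0 : ℝ) < (q : ℝ) ^ i := pow_pos hq0 i
    constructor
    · rw [Int.floor_nonneg]
      exact mul_nonneg hqi.le hx.1
    · have h1 : (F i x : ℝ) ≤ (q : ℝ) ^ i := by
        refine (Int.floor_le _).trans ?_
        nlinarith [hx.2]
      exact_mod_cast h1
  have hmain := lln (ν := ν) hq1 hF hpar hR (z := fun _ c => if zn q q' c then -1 else 0)
    (κ := -(2 / S)) (C := 1) (fun i b => by
      have h1 : ∀ c ∈ ch q b, ν.real {x | F (i + 1) x = c} * (if zn q q' c then (-1 : ℝ) else 0) =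
          -((ν.real {x | F i x = b} / q) * (if zn q q' c then (1 : ℝ) else 0)) := by
        intro c hc
        rw [hchild, (mem_ch hq1 _ _).1 hc]
        split_ifs <;> ring
      rw [Finset.sum_congr rfl h1, Finset.sum_neg_distrib, ← Finset.mul_sum, Finset.sum_boole]
      have h2 := hzcard b
      have h3 : 0 ≤ ν.real {x | F i x = b} := measureReal_nonneg
      have h4 : ν.real {x | F i x = b} / q * (((ch q b).filter (fun c => zn q q' c)).card : ℝ) ≤
          ν.real {x | F i x = b} / q * (2 * q') :=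
        mul_le_mul_of_nonneg_left h2 (div_nonneg h3 hq0.le)
      have h5 : ν.real {x | F i x = b} / q * (2 * q') = 2 / S * ν.real {x | F i x = b} := by
        rw [hq]
        have h6 : (0 : ℝ) < S := by exact_mod_cast hS
        have h7 : (0 : ℝ) < q' := by exact_mod_cast hq'
        push_cast
        field_simp
      linarith) (fun i b => by
      rw [one_mul, add_ch hq1 (hF (i + 1)) (hpar i) b]
      apply Finset.sum_le_sum
      intro c _
      have h3 : 0 ≤ ν.real {x | F (i + 1) x = c} := measureReal_nonneg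
      split_ifs <;> nlinarith)
  filter_upwards [hmain] with v hv ε hε
  filter_upwards [hv ε hε] with l hl
  have h1 : ∑ i ∈ Finset.range (l ^ 2), (if zn q q' (F (i + 1) v) then (-1 : ℝ) else 0) =
      -∑ i ∈ Finset.range (l ^ 2),
        (@ite ℝ (zn q q' ⌊(q : ℝ) ^ (i + 1) * v⌋) (Classical.dec _) 1 0) := by
    rw [← Finset.sum_neg_distrib]
    refine Finset.sum_congr rfl fun i _ => ?_
    simp only [F]
    split_ifs <;> simp
  rw [h1] at hl
  linarith

theorem zn_add {q q' : ℕ} (i : ℕ) (v : ℝ) (n : ℤ) :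
    zn q q' ⌊(q : ℝ) ^ (i + 1) * (v - n)⌋ ↔ zn q q' ⌊(q : ℝ) ^ (i + 1) * v⌋ := by
  have h1 : (q : ℝ) ^ (i + 1) * (v - n) = (q : ℝ) ^ (i + 1) * v - (((q : ℤ) ^ (i + 1) * n : ℤ) : ℝ) := by
    push_cast
    ring
  rw [h1, Int.floor_sub_intCast]
  have h2 : (⌊(q : ℝ) ^ (i + 1) * v⌋ - (q : ℤ) ^ (i + 1) * n) % q =
      ⌊(q : ℝ) ^ (i + 1) * v⌋ % q := by
    have h3 : (q : ℤ) ^ (i + 1) * n = q * ((q : ℤ) ^ i * n) := by rw [pow_succ]; ring
    rw [h3, Int.sub_mul_emod_self_left]
  unfold zn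
  rw [h2]

theorem GoodP_ae {q q' S : ℕ} (hq' : 1 ≤ q') (hS : 1 ≤ S) (hq : q = S * q') :
    ∀ᵐ v : ℝ, GoodP q q' (2 / S) v := by
  have h1 := GoodP_unit hq' hS hq
  rw [ae_restrict_iff' measurableSet_Ico] at h1
  have h2 : ∀ᵐ v : ℝ, ∀ n : ℤ, v - n ∈ Set.Ico (0 : ℝ) 1 → GoodP q q' (2 / S) (v - n) := by
    rw [ae_all_iff]
    intro n
    exact (measurePreserving_sub_right volume (n : ℝ)).quasiMeasurePreserving.ae h1
  filter_upwards [h2] with v hv
  have h3 := hv ⌊v⌋ (by
    rw [Set.mem_Ico]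
    exact ⟨by linarith [Int.floor_le v], by linarith [Int.lt_floor_add_one v]⟩)
  have hz : ∀ i : ℕ, (@ite ℝ (zn q q' ⌊(q : ℝ) ^ (i + 1) * (v - ⌊v⌋)⌋) (Classical.dec _) 1 0) =
      (@ite ℝ (zn q q' ⌊(q : ℝ) ^ (i + 1) * v⌋) (Classical.dec _) 1 0) := by
    intro i
    by_cases h : zn q q' ⌊(q : ℝ) ^ (i + 1) * v⌋
    · rw [if_pos h, if_pos ((zn_add i v ⌊v⌋).2 h)]
    · rw [if_neg h, if_neg (fun h' => h ((zn_add i v ⌊v⌋).1 h'))]
  intro ε hε
  filter_upwards [h3 ε hε] with l hl
  rw [Finset.sum_congr rfl fun i _ => hz i] at hl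
  exact hl

/-- a shift that is good for almost every point -/
theorem exists_shift {q q' S : ℕ} (hq' : 1 ≤ q') (hS : 1 ≤ S) (hq : q = S * q')
    (μ : Measure ℝ) [IsProbabilityMeasure μ] :
    ∃ u : ℝ, ∀ᵐ x ∂μ, GoodP q q' (2 / S) (x + u) := by
  set N : Set ℝ := toMeasurable volume {v | ¬ GoodP q q' (2 / S) v} with hN
  have hNm : MeasurableSet N := measurableSet_toMeasurable _ _
  have hN0 : volume N = 0 := by
    rw [hN, measure_toMeasurable]
    exact GoodP_ae hq' hS hq
  set T : Set (ℝ × ℝ) := {z | z.1 + z.2 ∈ N} with hT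
  have hTm : MeasurableSet T := (measurable_fst.add measurable_snd) hNm
  have h1 : (μ.prod volume) T = 0 := by
    rw [Measure.measure_prod_null hTm]
    refine ae_of_all _ fun x => ?_
    change volume ((fun u => x + u) ⁻¹' N) = 0
    rw [measure_preimage_add]
    exact hN0
  have h2 : (Measure.prod volume μ) (Prod.swap ⁻¹' T) = 0 := by
    rw [(Measure.measurePreserving_swap (μ := (volume : Measure ℝ)) (ν := μ)).measure_preimage
      hTm.nullMeasurableSet]
    exact h1
  rw [Measure.measure_prod_null (measurable_swap hTm)] at h2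
  obtain ⟨u, hu⟩ := h2.exists
  refine ⟨u, ?_⟩
  have h3 : μ {x | x + u ∈ N} = 0 := hu
  rw [ae_iff]
  refine measure_mono_null ?_ h3
  intro x hx
  exact subset_toMeasurable volume _ hx

end Pool.Agent.Y293.EM
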