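import Pool.Agent.Y293.EM.Mu
import Pool.Agent.Y293.EM.Zone

/-!
# Entropy of the cells of a self-similar measure relative to the parent cells
-/

set_option autoImplicit false

open Finset Filter MeasureTheory

namespace Pool.Agent.Y293.EM

open H517.EO

/-- log-sum inequality for a mixture -/
theorem logsum {W : Type} [Fintype W] (P : W → ℝ) (hP : ∀ w, 0 ≤ P w) (T : Finset ℤ)
    (x : W → ℤ → ℝ) (hx : ∀ w c, 0 ≤ x w c) (I : Finset W) (K : ℝ)
    (hI : ∀ w ∈ I, ∑ c ∈ T, x w c = 1 ∧ K ≤ ∑ c ∈ T, Real.negMulLog (x w c)) :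
    K * ∑ w ∈ I, P w ≤
      ∑ c ∈ T, (∑ w, P w * x w c) * Real.log ((∑ c ∈ T, ∑ w, P w * x w c) / (∑ w, P w * x w c)) := by
  classical
  set X : ℤ → ℝ := fun c => ∑ w, P w * x w c with hX
  set Y : ℝ := ∑ c ∈ T, X c with hY
  set y : W → ℝ := fun w => ∑ c ∈ T, x w c with hy
  have hX0 : ∀ c, 0 ≤ X c := fun c => Finset.sum_nonneg fun w _ => mul_nonneg (hP w) (hx w c)
  have hY0 : 0 ≤ Y := Finset.sum_nonneg fun c _ => hX0 c
  have hy0 : ∀ w, 0 ≤ y w := fun w => Finset.sum_nonneg fun c _ => hx w c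
  have hxy : ∀ w, ∀ c ∈ T, x w c ≤ y w := fun w c hc =>
    Finset.single_le_sum (fun c _ => hx w c) hc
  have hPX : ∀ w c, P w * x w c ≤ X c := fun w c =>
    Finset.single_le_sum (f := fun w => P w * x w c) (fun w _ => mul_nonneg (hP w) (hx w c))
      (Finset.mem_univ w)
  have hXY : ∀ c ∈ T, X c ≤ Y := fun c hc => Finset.single_le_sum (fun c _ => hX0 c) hc
  have hYy : Y = ∑ w, P w * y w := by
    simp only [hY, hX, hy]
    rw [Finset.sum_comm]
    refine Finset.sum_congr rfl fun w _ => ?_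
    rw [Finset.mul_sum]
  -- the pointwise inequality
  have hpt : ∀ c ∈ T, ∀ w, P w * (x w c * Real.log (y w / x w c)) ≤
      P w * x w c * Real.log (Y / X c) + (X c / Y) * (P w * y w) - P w * x w c := by
    intro c hc w
    rcases (mul_nonneg (hP w) (hx w c)).eq_or_lt with h0 | h0
    · have h1 : P w * (x w c * Real.log (y w / x w c)) = 0 := by
        rw [← mul_assoc, ← h0, zero_mul]
      rw [h1, ← h0, zero_mul, zero_add, sub_zero]
      exact mul_nonneg (div_nonneg (hX0 c) hY0) (mul_nonneg (hP w) (hy0 w))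
    · have hxp : 0 < x w c := by
        rcases (hx w c).eq_or_lt with h | h
        · rw [← h, mul_zero] at h0; exact absurd h0 (lt_irrefl _)
        · exact h
      have hXp : 0 < X c := lt_of_lt_of_le h0 (hPX w c)
      have hYp : 0 < Y := lt_of_lt_of_le hXp (hXY c hc)
      have hyp : 0 < y w := lt_of_lt_of_le hxp (hxy w c hc)
      have h2 := Real.log_le_sub_one_of_pos (show 0 < (y w / x w c) / (Y / X c) by positivity)
      rw [Real.log_div (by positivity) (by positivity)] at h2
      have h3 := mul_le_mul_of_nonneg_left h2 h0.le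
      have h4 : P w * x w c * (y w / x w c / (Y / X c) - 1) =
          (X c / Y) * (P w * y w) - P w * x w c := by
        field_simp
      rw [h4] at h3
      linarith
  have hsum : ∀ c ∈ T, ∑ w, P w * (x w c * Real.log (y w / x w c)) ≤
      X c * Real.log (Y / X c) := by
    intro c hc
    refine (Finset.sum_le_sum fun w _ => hpt c hc w).trans ?_
    rw [Finset.sum_sub_distrib, Finset.sum_add_distrib, ← Finset.sum_mul, ← Finset.mul_sum, ← hYy]
    rcases hY0.eq_or_lt with h | h
    · have h1 : X c = 0 := le_antisymm (by rw [h]; exact hXY c hc) (hX0 c)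
      have h2 : ∑ w, P w * x w c = X c := rfl
      rw [h2, h1]
      simp
    · have h2 : ∑ w, P w * x w c = X c := rfl
      rw [h2, div_mul_cancel₀ _ h.ne']
      linarith
  have hΦ : ∀ w, 0 ≤ ∑ c ∈ T, x w c * Real.log (y w / x w c) := by
    intro w
    apply Finset.sum_nonneg
    intro c hc
    rcases (hx w c).eq_or_lt with h | h
    · rw [← h, zero_mul]
    · apply mul_nonneg h.le
      apply Real.log_nonneg
      rw [le_div_iff₀ h, one_mul]
      exact hxy w c hc
  calc K * ∑ w ∈ I, P w = ∑ w ∈ I, P w * K := by rw [Finset.mul_sum]; exact Finset.sum_congr rfl fun w _ => mul_comm _ _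
    _ ≤ ∑ w ∈ I, P w * ∑ c ∈ T, x w c * Real.log (y w / x w c) := by
        apply Finset.sum_le_sum
        intro w hw
        apply mul_le_mul_of_nonneg_left _ (hP w)
        refine (hI w hw).2.trans (le_of_eq ?_)
        refine Finset.sum_congr rfl fun c _ => ?_
        have h1 : y w = 1 := (hI w hw).1
        rw [h1, one_div, Real.log_inv]
        unfold Real.negMulLog
        ring
    _ ≤ ∑ w, P w * ∑ c ∈ T, x w c * Real.log (y w / x w c) :=
        Finset.sum_le_univ_sum_of_nonneg fun w => mul_nonneg (hP w) (hΦ w)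
    _ = ∑ c ∈ T, ∑ w, P w * (x w c * Real.log (y w / x w c)) := by
        rw [Finset.sum_comm]
        refine Finset.sum_congr rfl fun w _ => ?_
        rw [Finset.mul_sum]
    _ ≤ ∑ c ∈ T, X c * Real.log (Y / X c) := Finset.sum_le_sum hsum

/-- the second moment of the information -/
theorem sq_info {x : ℝ} (h0 : 0 < x) (h1 : x ≤ 1) : x * Real.log (1 / x) ^ 2 ≤ 4 := by
  have h2 := Real.abs_log_mul_self_rpow_lt x (1 / 2) h0 h1 (by norm_num)
  have h3 : |Real.log x * x ^ (1 / 2 : ℝ)| ^ 2 ≤ 2 ^ 2 := by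
    apply pow_le_pow_left₀ (abs_nonneg _)
    linarith
  rw [sq_abs, mul_pow] at h3
  have h4 : (x ^ (1 / 2 : ℝ)) ^ 2 = x := by
    rw [← Real.rpow_natCast, ← Real.rpow_mul h0.le]
    norm_num
  rw [h4] at h3
  rw [one_div, Real.log_inv, neg_sq]
  linarith

section cells

variable {A : Type} [Fintype A] [DecidableEq A]

/-- index of the cell of level `i` of the shifted grid of base `q` -/
noncomputable def Fc (q : ℕ) (u : ℝ) (i : ℕ) (x : ℝ) : ℤ := ⌊(q : ℝ) ^ i * (x + u)⌋

theorem Fc_meas (q : ℕ) (u : ℝ) (i : ℕ) : Measurable (Fc q u i) :=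
  Int.measurable_floor.comp ((measurable_id.add_const u).const_mul _)

/-- the entropy inequality for one cell -/
theorem cell_ineq {lam M K : ℝ} {t p : A → ℝ} {μ : Measure ℝ} [IsProbabilityMeasure μ]
    (hl0 : 0 < lam) (hl1 : lam < 1) (hp : ∀ a, 0 ≤ p a) (hp1 : ∑ a, p a = 1)
    (h : SR lam t p μ) (hM : ∀ a, |t a| ≤ M * (1 - lam)) (hM1 : 1 ≤ M)
    {N q q' S : ℕ} (hq' : 1 ≤ q') (hS : 1 ≤ S) (hq : q = S * q')
    (hqN : 2 * M ≤ q' * lam ^ (N + 1)) (hK0 : 0 ≤ K)
    (hK : ∀ (η s : ℝ) (T : Finset ℤ), 0 < η → η ≤ lam ^ N →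
      (∀ x ∈ Set.Icc (-M) M, ⌊x / η + s⌋ ∈ T) →
      K ≤ ∑ b ∈ T, Real.negMulLog (μ.real {x : ℝ | ⌊x / η + s⌋ = b}))
    (u : ℝ) (i : ℕ) (b : ℤ) :
    K * μ.real {x | Fc q u i x = b} ≤
      ∑ c ∈ ch q b, μ.real {x | Fc q u (i + 1) x = c} *
        (Real.log (μ.real {x | Fc q u i x = c / q} / μ.real {x | Fc q u (i + 1) x = c}) +
          K * (@ite ℝ (zn q q' c) (Classical.dec _) 1 0)) := by
  classical
  have hq1 : 1 ≤ q := by rw [hq]; exact Nat.mul_pos hS hq'
  have hq0 : (0 : ℝ) < q := by exact_mod_cast hq1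
  have hq0' : (0 : ℤ) < q := by exact_mod_cast hq1
  have hqi : ∀ i : ℕ, (0 : ℝ) < (q : ℝ) ^ i := fun i => pow_pos hq0 i
  have hS0 : (0 : ℝ) < S := by exact_mod_cast hS
  have hq'0 : (0 : ℝ) < q' := by exact_mod_cast hq'
  have hM0 : 0 < M := by linarith
  -- length of the words
  have hex : ∃ l : ℕ, 2 * M * lam ^ l ≤ 1 / ((q : ℝ) ^ i * S) := by
    obtain ⟨l, hl⟩ := exists_pow_lt_of_lt_one (show 0 < 1 / ((q : ℝ) ^ i * S) / (2 * M) by
      have := hqi i; positivity) hl1
    refine ⟨l, ?_⟩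
    rw [lt_div_iff₀ (by positivity)] at hl
    linarith
  obtain ⟨l, hl, hlmin⟩ : ∃ l : ℕ, 2 * M * lam ^ l ≤ 1 / ((q : ℝ) ^ i * S) ∧
      ∀ m < l, ¬ (2 * M * lam ^ m ≤ 1 / ((q : ℝ) ^ i * S)) :=
    ⟨Nat.find hex, Nat.find_spec hex, fun m hm => Nat.find_min hex hm⟩
  have hqiS : 0 < (q : ℝ) ^ i * S := mul_pos (hqi i) hS0
  have hl1' : 1 ≤ l := by
    by_contra h0
    have h1 : l = 0 := by omega
    rw [h1, pow_zero, mul_one, le_div_iff₀ hqiS] at hl
    have h2 : (1 : ℝ) ≤ (q : ℝ) ^ i * S := by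
      have h3 : (1 : ℝ) ≤ (q : ℝ) ^ i := one_le_pow₀ (by exact_mod_cast hq1)
      have h4 : (1 : ℝ) ≤ S := by exact_mod_cast hS
      nlinarith
    nlinarith
  have hlow : 1 / ((q : ℝ) ^ i * S) < 2 * M * lam ^ (l - 1) := by
    have := hlmin (l - 1) (by omega)
    exact not_le.1 this
  have hll : lam ^ l = lam ^ (l - 1) * lam := by
    rw [← pow_succ]; congr 1; omega
  set L : ℝ := lam ^ l with hL
  have hL0 : 0 < L := pow_pos hl0 l
  set η : ℝ := 1 / ((q : ℝ) ^ (i + 1) * L) with hη
  have hη0 : 0 < η := by have := hqi (i + 1); positivity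
  have hηN : η ≤ lam ^ N := by
    rw [hη, div_le_iff₀ (mul_pos (hqi _) hL0)]
    have h1 : 1 * lam ≤ (q : ℝ) ^ i * S * (2 * M * L) := by
      rw [div_lt_iff₀ hqiS] at hlow
      rw [hll]
      nlinarith
    have h2 : (q : ℝ) ^ (i + 1) = (q : ℝ) ^ i * S * q' := by
      rw [pow_succ]; nth_rewrite 2 [hq]; push_cast; ring
    rw [h2]
    have h3 : 0 < (q : ℝ) ^ i * S * L := by positivity
    have h4 : (q : ℝ) ^ i * S * L * (2 * M) ≤ (q : ℝ) ^ i * S * L * (q' * lam ^ (N + 1)) :=
      mul_le_mul_of_nonneg_left hqN h3.le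
    have h5 : 1 * lam ≤ lam ^ N * ((q : ℝ) ^ i * S * q' * L) * lam := by
      calc 1 * lam ≤ (q : ℝ) ^ i * S * (2 * M * L) := h1
        _ = (q : ℝ) ^ i * S * L * (2 * M) := by ring
        _ ≤ _ := h4
        _ = _ := by rw [pow_succ]; ring
    exact le_of_mul_le_mul_right h5 hl0
  -- the pieces
  have hSR := SR_iter h l
  set P : (Fin l → A) → ℝ := fun w => pw p w with hP
  have hP0 : ∀ w, 0 ≤ P w := fun w => pw_nonneg hp w
  have hP1 : ∑ w, P w = 1 := sum_pw hp1 l
  set x : (Fin l → A) → ℤ → ℝ := fun w c =>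
    μ.real {y | Fc q u (i + 1) (L * y + XX lam t w) = c} with hx
  have hx0 : ∀ w c, 0 ≤ x w c := fun w c => measureReal_nonneg
  have hNc : ∀ c, μ.real {y | Fc q u (i + 1) y = c} = ∑ w, P w * x w c := fun c =>
    hSR _ (Fc_meas q u (i + 1) (measurableSet_singleton c))
  have hpar : ∀ y, Fc q u i y = Fc q u (i + 1) y / q := fun y => floor_par hq1 i (y + u)
  have hNb : μ.real {y | Fc q u i y = b} = ∑ c ∈ ch q b, ∑ w, P w * x w c := by
    rw [add_ch hq1 (Fc_meas q u (i + 1)) hpar b]
    exact Finset.sum_congr rfl fun c _ => hNc c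
  set I : Finset (Fin l → A) := Finset.univ.filter (fun w =>
    ∀ y ∈ Set.Icc (-M) M, Fc q u i (L * y + XX lam t w) = b) with hI
  have hsupp := SR_supp hl0 hl1 hp hp1 h hM
  have hlog := logsum P hP0 (ch q b) x hx0 I K (by
    intro w hw
    rw [hI, Finset.mem_filter] at hw
    have hin : ∀ y ∈ Set.Icc (-M) M, Fc q u (i + 1) (L * y + XX lam t w) ∈ ch q b := by
      intro y hy
      rw [mem_ch hq1, ← hpar]
      exact hw.2 y hy
    constructor
    · have h1 : ∀ᵐ y ∂μ, Fc q u (i + 1) (L * y + XX lam t w) ∈ ch q b := by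
        filter_upwards [hsupp] with y hy using hin y hy
      have h2 := (int_fin μ ((Fc_meas q u (i + 1)).comp (meas_aff L (XX lam t w))) h1
        (fun _ => 1)).2
      simp only [integral_const, mul_one, smul_eq_mul, probReal_univ, Function.comp_apply] at h2
      exact h2.symm
    · have hform : ∀ y, (q : ℝ) ^ (i + 1) * (L * y + XX lam t w + u) =
          y / η + (q : ℝ) ^ (i + 1) * (XX lam t w + u) := by
        intro y
        rw [hη]
        have := hqi (i + 1)
        field_simp
        ring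
      have h1 := hK η ((q : ℝ) ^ (i + 1) * (XX lam t w + u)) (ch q b) hη0 hηN (by
        intro y hy
        rw [← hform]
        exact hin y hy)
      refine h1.trans (le_of_eq ?_)
      refine Finset.sum_congr rfl fun c _ => ?_
      simp only [hx, Fc, hform])
  -- the pieces that are not inside only charge the zone
  have hzone : ∀ w ∉ I, ∀ c ∈ ch q b, ¬ zn q q' c → x w c = 0 := by
    intro w hw c hc hz
    have h1 : ∃ y0 ∈ Set.Icc (-M) M, Fc q u i (L * y0 + XX lam t w) ≠ b := by
      by_contra hcon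
      push Not at hcon
      exact hw (by rw [hI, Finset.mem_filter]; exact ⟨Finset.mem_univ _, hcon⟩)
    obtain ⟨y0, hy0, hne⟩ := h1
    have h2 : ∀ᵐ y ∂μ, ¬ (Fc q u (i + 1) (L * y + XX lam t w) = c) := by
      filter_upwards [hsupp] with y hy hyc
      apply hz
      -- the two points
      set v : ℝ := (q : ℝ) ^ i * (L * y + XX lam t w + u) with hv
      set v0 : ℝ := (q : ℝ) ^ i * (L * y0 + XX lam t w + u) with hv0
      have hvb : ⌊v⌋ = b := by
        have h3 := hpar (L * y + XX lam t w)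
        rw [hyc, (mem_ch hq1 _ _).1 hc] at h3
        exact h3
      have hv0b : ⌊v0⌋ ≠ b := hne
      have hdist : |v - v0| ≤ 1 / S := by
        have h3 : v - v0 = (q : ℝ) ^ i * (L * (y - y0)) := by rw [hv, hv0]; ring
        rw [h3, abs_mul, abs_of_pos (hqi i), abs_mul, abs_of_pos hL0]
        have h4 : |y - y0| ≤ 2 * M := by
          rw [abs_le]
          constructor <;> linarith [hy.1, hy.2, hy0.1, hy0.2]
        rw [le_div_iff₀ hqiS] at hl
        rw [le_div_iff₀ hS0]
        have h5 : L * |y - y0| ≤ L * (2 * M) := mul_le_mul_of_nonneg_left h4 hL0.le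
        have h6 : (q : ℝ) ^ i * (L * |y - y0|) * S ≤ (q : ℝ) ^ i * (L * (2 * M)) * S :=
          mul_le_mul_of_nonneg_right (mul_le_mul_of_nonneg_left h5 (hqi i).le) hS0.le
        linarith
      have hvc : ⌊(q : ℝ) * v⌋ = c := by
        have h3 : (q : ℝ) * v = (q : ℝ) ^ (i + 1) * (L * y + XX lam t w + u) := by
          rw [hv, pow_succ]; ring
        rw [h3]
        exact hyc
      have hqb : c / q = b := (mem_ch hq1 _ _).1 hc
      have hmod := Int.emod_add_mul_ediv c q
      rw [hqb] at hmod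
      rw [Int.floor_eq_iff] at hvb hvc
      have hcr : (c : ℝ) = (c % (q : ℤ) : ℤ) + (q : ℝ) * b := by exact_mod_cast hmod.symm
      have hqS : (q : ℝ) * (1 / S) = q' := by rw [hq]; push_cast; field_simp
      rcases lt_or_ge v0 b with h3 | h3
      · -- left end
        left
        have h4 : v < b + 1 / S := by linarith [(abs_le.1 hdist).2]
        have h5 : (q : ℝ) * v < q * b + q' := by
          have := mul_lt_mul_of_pos_left h4 hq0
          rw [mul_add, hqS] at this
          exact this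
        have h6 : ((c % (q : ℤ) : ℤ) : ℝ) < q' := by linarith [hvc.1]
        exact_mod_cast h6
      · -- right end
        right
        have h4 : (b : ℝ) + 1 ≤ v0 := by
          by_contra h7
          apply hv0b
          rw [Int.floor_eq_iff]
          exact ⟨h3, not_le.1 h7⟩
        have h5 : (b : ℝ) + 1 - 1 / S ≤ v := by linarith [(abs_le.1 hdist).1]
        have h6 : (q : ℝ) * b + q - q' ≤ q * v := by
          have := mul_le_mul_of_nonneg_left h5 hq0.le
          rw [mul_sub, hqS] at this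
          linarith
        have h7 : (q : ℝ) - q' < ((c % (q : ℤ) : ℤ) : ℝ) + 1 := by linarith [hvc.2]
        have h8 : (q : ℤ) - q' < (c % (q : ℤ)) + 1 := by exact_mod_cast h7
        linarith
    have h3 : μ {y | Fc q u (i + 1) (L * y + XX lam t w) = c} = 0 := by
      rw [ae_iff] at h2
      simpa using h2
    simp only [hx]
    rw [measureReal_eq_zero_iff (measure_ne_top _ _)]
    exact h3
  -- mass outside of the zone
  have hmass : ∑ c ∈ (ch q b).filter (fun c => ¬ zn q q' c), ∑ w, P w * x w c ≤ ∑ w ∈ I, P w := by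
    rw [Finset.sum_comm]
    have h1 : ∀ w, ∑ c ∈ (ch q b).filter (fun c => ¬ zn q q' c), P w * x w c ≤
        if w ∈ I then P w else 0 := by
      intro w
      by_cases hw : w ∈ I
      · rw [if_pos hw, ← Finset.mul_sum]
        have h2 : ∑ c ∈ (ch q b).filter (fun c => ¬ zn q q' c), x w c ≤ 1 := by
          have h3 : ∑ c ∈ (ch q b).filter (fun c => ¬ zn q q' c), x w c =
              μ.real (⋃ c ∈ (ch q b).filter (fun c => ¬ zn q q' c),
                {y | Fc q u (i + 1) (L * y + XX lam t w) = c}) := by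
            rw [measureReal_biUnion_finset]
            · intro c _ c' _ hcc
              exact Set.disjoint_left.2 fun y hy hy' => hcc (hy.symm.trans hy')
            · intro c _
              exact ((Fc_meas q u (i + 1)).comp (meas_aff L (XX lam t w)))
                (measurableSet_singleton c)
          rw [h3]
          exact measureReal_le_one
        have := mul_le_mul_of_nonneg_left h2 (hP0 w)
        linarith
      · rw [if_neg hw]
        apply le_of_eq
        apply Finset.sum_eq_zero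
        intro c hc
        rw [Finset.mem_filter] at hc
        rw [hzone w hw c hc.1 hc.2, mul_zero]
    refine (Finset.sum_le_sum fun w _ => h1 w).trans (le_of_eq ?_)
    rw [Finset.sum_ite_mem, Finset.univ_inter]
  -- conclusion
  have hsplit : ∑ c ∈ ch q b, μ.real {x | Fc q u (i + 1) x = c} *
        (Real.log (μ.real {x | Fc q u i x = c / q} / μ.real {x | Fc q u (i + 1) x = c}) +
          K * (@ite ℝ (zn q q' c) (Classical.dec _) 1 0)) =
      ∑ c ∈ ch q b, (∑ w, P w * x w c) * Real.log ((∑ c ∈ ch q b, ∑ w, P w * x w c) /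
        (∑ w, P w * x w c)) +
      K * ∑ c ∈ (ch q b).filter (fun c => zn q q' c), ∑ w, P w * x w c := by
    rw [Finset.sum_filter, Finset.mul_sum, ← Finset.sum_add_distrib]
    refine Finset.sum_congr rfl fun c hc => ?_
    rw [(mem_ch hq1 _ _).1 hc, hNb, hNc c]
    by_cases hz : zn q q' c
    · rw [if_pos hz, if_pos hz]
      ring
    · rw [if_neg hz, if_neg hz]
      ring
  have hLHS : K * (∑ c ∈ ch q b, ∑ w, P w * x w c) =
      K * (∑ c ∈ (ch q b).filter (fun c => zn q q' c), ∑ w, P w * x w c) +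
      K * (∑ c ∈ (ch q b).filter (fun c => ¬ zn q q' c), ∑ w, P w * x w c) := by
    rw [← Finset.sum_filter_add_sum_filter_not (ch q b) (fun c => zn q q' c), mul_add]
  rw [hsplit, hNb, hLHS]
  have h1 := mul_le_mul_of_nonneg_left hmass hK0
  linarith

end cells

end Pool.Agent.Y293.EM
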