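import Pool.Agent.H517R2.EO.T_E1

/-!
# Words of almost the same type are close after a permutation, and the coupling inequality
-/

set_option autoImplicit false

open Finset

namespace Pool.Agent.Y293.EM

open H517.EO

section close

variable {A : Type} [DecidableEq A]

/-- number of occurrences of a letter -/
def cnt {n : ℕ} (v : Fin n → A) (a : A) : ℕ := (Finset.univ.filter (fun i => v i = a)).card

theorem cnt_eq_sum {n : ℕ} (v : Fin n → A) (a : A) :
    (cnt v a : ℝ) = ∑ i, if v i = a then (1 : ℝ) else 0 := by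
  unfold cnt
  rw [Finset.sum_boole]

theorem cnt_comp {n : ℕ} (v : Fin n → A) (ρ : Equiv.Perm (Fin n)) (a : A) :
    cnt (v ∘ ρ) a = cnt v a := by
  have h : (cnt (v ∘ ρ) a : ℝ) = cnt v a := by
    rw [cnt_eq_sum, cnt_eq_sum]
    exact Equiv.sum_comp ρ (fun i => if v i = a then (1 : ℝ) else 0)
  exact_mod_cast h

theorem close [Fintype A] {n : ℕ} (v w : Fin n → A) : ∃ ρ : Equiv.Perm (Fin n),
    2 * ((Finset.univ.filter (fun i => v (ρ i) ≠ w i)).card : ℝ) =
      ∑ a, |(cnt v a : ℝ) - cnt w a| := by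
  obtain ⟨ρ, hρ⟩ := Finite.exists_min (fun ρ : Equiv.Perm (Fin n) =>
    (Finset.univ.filter (fun i => v (ρ i) ≠ w i)).card)
  refine ⟨ρ, ?_⟩
  set S := Finset.univ.filter (fun i => v (ρ i) ≠ w i) with hS
  have hmem : ∀ i, i ∈ S ↔ v (ρ i) ≠ w i := fun i => by simp [hS]
  have hdisj : ∀ s ∈ S, ∀ s' ∈ S, v (ρ s) ≠ w s' := by
    intro s hs s' hs' h
    have hne : s ≠ s' := by
      rintro rfl
      exact (hmem s).1 hs h
    have h1 := hρ ((Equiv.swap s s').trans ρ)
    have h2 : (Finset.univ.filter (fun i => v (((Equiv.swap s s').trans ρ) i) ≠ w i)) ⊆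
        S.erase s' := by
      intro i hi
      rw [Finset.mem_filter] at hi
      rw [Finset.mem_erase]
      have hi2 := hi.2
      rw [Equiv.trans_apply] at hi2
      by_cases h3 : i = s'
      · subst h3
        rw [Equiv.swap_apply_right] at hi2
        exact absurd h hi2
      · refine ⟨h3, ?_⟩
        by_cases h4 : i = s
        · rw [h4]; exact hs
        · rw [Equiv.swap_apply_of_ne_of_ne h4 h3] at hi2
          exact (hmem i).2 hi2
    have h3 := Finset.card_le_card h2
    have h4 := Finset.card_erase_lt_of_mem hs'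
    have h5 : (Finset.univ.filter (fun i => v (((Equiv.swap s s').trans ρ) i) ≠ w i)).card < S.card :=
      lt_of_le_of_lt h3 h4
    exact absurd h1 (not_le.2 h5)
  have key : ∀ a, |(cnt v a : ℝ) - cnt w a| =
      ∑ i ∈ S, ((if v (ρ i) = a then (1 : ℝ) else 0) + (if w i = a then (1 : ℝ) else 0)) := by
    intro a
    have e1 : (cnt v a : ℝ) - cnt w a =
        ∑ i ∈ S, ((if v (ρ i) = a then (1 : ℝ) else 0) - (if w i = a then (1 : ℝ) else 0)) := by
      rw [← cnt_comp v ρ a, cnt_eq_sum, cnt_eq_sum, ← Finset.sum_sub_distrib]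
      symm
      apply Finset.sum_subset (Finset.subset_univ S)
      intro i _ hi
      rw [hmem, not_not] at hi
      simp [hi]
    rw [e1]
    have e0 : 0 ≤ ∑ i ∈ S, ((if v (ρ i) = a then (1 : ℝ) else 0) + (if w i = a then (1 : ℝ) else 0)) :=
      Finset.sum_nonneg fun i _ => add_nonneg (by split_ifs <;> norm_num) (by split_ifs <;> norm_num)
    by_cases h1 : ∃ s ∈ S, v (ρ s) = a
    · obtain ⟨s, hs, hsa⟩ := h1
      have h2 : ∀ i ∈ S, (if w i = a then (1 : ℝ) else 0) = 0 := by
        intro i hi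
        rw [if_neg]
        exact fun h => hdisj s hs i hi (hsa.trans h.symm)
      have e3 : ∑ i ∈ S, ((if v (ρ i) = a then (1 : ℝ) else 0) - (if w i = a then (1 : ℝ) else 0)) =
          ∑ i ∈ S, ((if v (ρ i) = a then (1 : ℝ) else 0) + (if w i = a then (1 : ℝ) else 0)) :=
        Finset.sum_congr rfl (fun i hi => by rw [h2 i hi]; ring)
      rw [e3, abs_of_nonneg e0]
    · push Not at h1
      have h2 : ∀ i ∈ S, (if v (ρ i) = a then (1 : ℝ) else 0) = 0 := by
        intro i hi
        rw [if_neg (h1 i hi)]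
      have e3 : ∑ i ∈ S, ((if v (ρ i) = a then (1 : ℝ) else 0) - (if w i = a then (1 : ℝ) else 0)) =
          -∑ i ∈ S, ((if v (ρ i) = a then (1 : ℝ) else 0) + (if w i = a then (1 : ℝ) else 0)) := by
        rw [← Finset.sum_neg_distrib]
        exact Finset.sum_congr rfl (fun i hi => by rw [h2 i hi]; ring)
      rw [e3, abs_neg, abs_of_nonneg e0]
  rw [Finset.sum_congr rfl fun a _ => key a, Finset.sum_comm]
  have h2 : ∀ i ∈ S, ∑ a, ((if v (ρ i) = a then (1 : ℝ) else 0) + (if w i = a then (1 : ℝ) else 0)) =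
      2 := by
    intro i _
    rw [Finset.sum_add_distrib]
    simp
    norm_num
  rw [Finset.sum_congr rfl h2, Finset.sum_const, nsmul_eq_mul]
  ring

theorem exists_perm [Fintype A] {n : ℕ} (v w : Fin n → A) (h : ∀ a, cnt v a = cnt w a) :
    ∃ ρ : Equiv.Perm (Fin n), v ∘ ρ = w := by
  obtain ⟨ρ, hρ⟩ := close v w
  refine ⟨ρ, ?_⟩
  have h1 : ∑ a, |(cnt v a : ℝ) - cnt w a| = 0 := by
    apply Finset.sum_eq_zero
    intro a _
    rw [h a, sub_self, abs_zero]
  rw [h1] at hρ
  have h2 : (Finset.univ.filter (fun i => v (ρ i) ≠ w i)).card = 0 := by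
    have : ((Finset.univ.filter (fun i => v (ρ i) ≠ w i)).card : ℝ) = 0 := by linarith
    exact_mod_cast this
  rw [Finset.card_eq_zero] at h2
  funext i
  by_contra h3
  have : i ∈ Finset.univ.filter (fun i => v (ρ i) ≠ w i) := by
    rw [Finset.mem_filter]
    exact ⟨Finset.mem_univ _, h3⟩
  rw [h2] at this
  simp at this

end close

section coupling

variable {A : Type} [DecidableEq A] [Fintype A]

/-- value of a sequence of `j` words of length `n` -/
noncomputable def X2 (lam : ℝ) (t : A → ℝ) {j n : ℕ} (V : Fin j → Fin n → A) : ℝ :=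
  XX (lam ^ n) (fun v : Fin n → A => XX lam t v) V

/-- the coupling inequality -/
theorem HR_couple {j n : ℕ} (hn : 1 ≤ n) (lam : ℝ) (t : A → ℝ) (w y : ℝ) (hw : 0 < w)
    (V : Fin j → Fin n → A) (v : Fin n → A) :
    HR (fun σ : Fin j → Equiv.Perm (Fin n) => ⌊(X2 lam t (fun i => V i ∘ σ i) + y) / w⌋) ≤
      HR (fun σ : Fin j → Equiv.Perm (Fin n) => ⌊X2 lam t (fun i => v ∘ σ i) / w⌋) +
        Real.log 2 + (∑ i, ∑ a, |(cnt (V i) a : ℝ) - cnt v a|) / 2 * Real.log n := by
  classical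
  choose ρ hρ using fun i => close (V i) v
  -- change of variables
  let e : (Fin j → Equiv.Perm (Fin n)) ≃ (Fin j → Equiv.Perm (Fin n)) :=
    Equiv.piCongrRight fun i => Equiv.mulLeft (ρ i)
  have he : ∀ σ i, e σ i = ρ i * σ i := fun σ i => rfl
  rw [← HR_equiv e]
  set g : (Fin j → Equiv.Perm (Fin n)) → ℤ :=
    fun σ => ⌊(X2 lam t (fun i => V i ∘ (e σ) i) + y) / w⌋ with hg
  set h : (Fin j → Equiv.Perm (Fin n)) → ℤ := fun σ => ⌊X2 lam t (fun i => v ∘ σ i) / w⌋ with hh
  set S : Fin j → Finset (Fin n) := fun i =>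
    Finset.univ.filter (fun k => V i (ρ i k) ≠ v k) with hS
  -- the positions of the differences
  let E : (Fin j → Equiv.Perm (Fin n)) → ((i : Fin j) → {s // s ∈ S i} → Fin n) :=
    fun σ i s => (σ i).symm s
  let G : ((i : Fin j) → {s // s ∈ S i} → Fin n) → ℝ := fun e =>
    ∑ i : Fin j, (lam ^ n) ^ (i : ℕ) * ∑ s : {s // s ∈ S i},
      lam ^ (e i s : ℕ) * (t (V i (ρ i s)) - t (v s))
  have hdiff : ∀ σ, X2 lam t (fun i => V i ∘ (e σ) i) = X2 lam t (fun i => v ∘ σ i) + G (E σ) := by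
    intro σ
    unfold X2 XX
    simp only [G, E]
    rw [← Finset.sum_add_distrib]
    refine Finset.sum_congr rfl fun i _ => ?_
    rw [← mul_add]
    congr 1
    have e1 : ∀ F : Fin n → ℝ, ∑ s : {s // s ∈ S i}, F s = ∑ s ∈ S i, F s :=
      fun F => Finset.sum_coe_sort (S i) F
    rw [e1 (fun s => lam ^ (((σ i).symm s : Fin n) : ℕ) * (t (V i (ρ i s)) - t (v s)))]
    have e2 : ∑ s ∈ S i, lam ^ (((σ i).symm s : Fin n) : ℕ) * (t (V i (ρ i s)) - t (v s)) =
        ∑ s, lam ^ (((σ i).symm s : Fin n) : ℕ) * (t (V i (ρ i s)) - t (v s)) := by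
      apply Finset.sum_subset (Finset.subset_univ _)
      intro s _ hs
      have : V i (ρ i s) = v s := by
        by_contra h3
        exact hs (by simp only [hS, Finset.mem_filter, Finset.mem_univ, true_and]; exact h3)
      rw [this, sub_self, mul_zero]
    have e3 : ∑ s, lam ^ (((σ i).symm s : Fin n) : ℕ) * (t (V i (ρ i s)) - t (v s)) =
        ∑ k : Fin n, lam ^ (k : ℕ) * (t (V i (ρ i (σ i k))) - t (v (σ i k))) := by
      rw [← Equiv.sum_comp (σ i) (fun s => lam ^ (((σ i).symm s : Fin n) : ℕ) *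
        (t (V i (ρ i s)) - t (v s)))]
      refine Finset.sum_congr rfl fun k _ => ?_
      rw [Equiv.symm_apply_apply]
    rw [e2, e3, ← Finset.sum_add_distrib]
    refine Finset.sum_congr rfl fun k _ => ?_
    simp only [he, Function.comp_apply, Equiv.Perm.coe_mul]
    ring
  -- first step: reveal `E`
  have hcard : Fintype.card ((i : Fin j) → {s // s ∈ S i} → Fin n) = ∏ i, n ^ (S i).card := by
    rw [Fintype.card_pi]
    refine Finset.prod_congr rfl fun i _ => ?_
    rw [Fintype.card_fun, Fintype.card_fin, Fintype.card_coe]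
  have hn0 : (0 : ℝ) < n := by exact_mod_cast hn
  have hN1 : (1 : ℝ) ≤ (Fintype.card ((i : Fin j) → {s // s ∈ S i} → Fin n) : ℝ) := by
    rw [hcard]
    exact_mod_cast Nat.one_le_iff_ne_zero.2 (Finset.prod_ne_zero_iff.2 fun i _ =>
      pow_ne_zero _ (by omega))
  have hlogN : Real.log (Fintype.card ((i : Fin j) → {s // s ∈ S i} → Fin n) : ℝ) =
      (∑ i, ∑ a, |(cnt (V i) a : ℝ) - cnt v a|) / 2 * Real.log n := by
    rw [hcard]
    push_cast
    rw [Real.log_prod (fun i _ => pow_ne_zero _ hn0.ne'), Finset.sum_div, Finset.sum_mul]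
    refine Finset.sum_congr rfl fun i _ => ?_
    rw [Real.log_pow, ← hρ i]
    ring
  have s1 : HR g ≤ HR (fun σ => (g σ, E σ)) +
      Real.log (Fintype.card ((i : Fin j) → {s // s ∈ S i} → Fin n) : ℝ) := by
    refine t_E_card _ _ _ g E _ hN1 ?_
    intro p
    have h1 := Set.ncard_le_ncard (Set.subset_univ ((fiber g p : Set _).image E)) (Set.toFinite _)
    rw [Set.ncard_univ, Nat.card_eq_fintype_card] at h1
    exact_mod_cast h1
  have s2 : HR (fun σ => (g σ, E σ)) ≤ HR (fun σ => ((fun σ => (g σ, E σ)) σ, h σ)) + Real.log 2 := by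
    refine t_E_card _ _ _ (fun σ => (g σ, E σ)) h 2 (by norm_num) ?_
    intro p
    refine (ncard_le_of_Ico (a := ⌊((g p : ℝ)) - (G (E p) + y) / w⌋) (L := 2) (by norm_num) ?_).trans
      (by norm_num)
    rintro m ⟨q, hq, rfl⟩
    have hq' : q ∈ fiber (fun σ => (g σ, E σ)) p := hq
    rw [mem_fiber, Prod.mk.injEq] at hq'
    obtain ⟨h1, h2⟩ := hq'
    have h3 : X2 lam t (fun i => v ∘ q i) / w =
        (X2 lam t (fun i => V i ∘ (e q) i) + y) / w - (G (E p) + y) / w := by
      rw [hdiff q, h2]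
      ring
    have h4 := Int.floor_le ((X2 lam t (fun i => V i ∘ (e q) i) + y) / w)
    have h5 := Int.lt_floor_add_one ((X2 lam t (fun i => V i ∘ (e q) i) + y) / w)
    have h6 : (⌊(X2 lam t (fun i => V i ∘ (e q) i) + y) / w⌋ : ℤ) = g p := h1
    rw [h6] at h4 h5
    constructor
    · apply Int.floor_le_floor
      rw [h3]
      linarith
    · have h7 : ((⌊X2 lam t (fun i => v ∘ q i) / w⌋ : ℤ) : ℝ) <
          ((⌊((g p : ℝ)) - (G (E p) + y) / w⌋ + 2 : ℤ) : ℝ) := by
        push_cast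
        have h8 := Int.floor_le (X2 lam t (fun i => v ∘ q i) / w)
        have h9 := Int.lt_floor_add_one ((g p : ℝ) - (G (E p) + y) / w)
        rw [h3] at h8
        rw [h3]
        linarith
      exact_mod_cast h7
  have s3 : HR (fun σ => ((fun σ => (g σ, E σ)) σ, h σ)) ≤ HR h := by
    refine t_E_mono _ _ _ h _ ?_
    intro p q hpq
    rw [Prod.mk.injEq] at hpq
    exact hpq.2
  rw [hlogN] at s1
  linarith

end coupling

end Pool.Agent.Y293.EM
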