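import Pool.Agent.Y293.EO.Base

/-!
# Uniform measures on free homogeneous systems: entropy of the cells at the natural scale
-/

set_option autoImplicit false

open Finset

namespace Pool.Agent.Y293.EM

open H517.EO

/-- the entropy at scale `lam ^ n` of the uniform measure on the words of length `n` of a free
homogeneous system: arbitrarily long words with almost maximal entropy -/
theorem unif (A : Type) [Fintype A] [DecidableEq A] (lam : ℝ) (t : A → ℝ)
    (hm : 2 ≤ Fintype.card A) (hl0 : 0 < lam) (hl1 : lam < 1) (hfree : Free lam t)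
    (ε : ℝ) (hε : 0 < ε) (n0 : ℕ) : ∃ n : ℕ, n0 ≤ n ∧
      n * (min (Real.log (Fintype.card A)) (Real.log (1 / lam)) - ε) ≤
        Hd (fun p : Fin n → A => ⌊XX lam t p / lam ^ n⌋) := by
  have : Nonempty A := Fintype.card_pos_iff.1 (by omega)
  by_contra hcon
  push Not at hcon
  set m : ℝ := (Fintype.card A : ℝ) with hmdef
  have hm0 : 0 < m := by rw [hmdef]; exact_mod_cast Fintype.card_pos
  have hm1 : 0 ≤ Real.log m := Real.log_natCast_nonneg _
  set χ : ℝ := Real.log (1 / lam) with hχ
  have hχ0 : 0 < χ := Real.log_pos (by rw [lt_div_iff₀ hl0]; linarith)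
  have key : ∀ n, n0 ≤ n → (n : ℝ) * (Real.log m - min (Real.log m) χ + ε) ≤
      HR (fun p : Fin n → A => ⌊XX lam t p / lam ^ n⌋) := by
    intro n hn
    have a2 := hcon n hn
    have a4 : Real.log (Fintype.card (Fin n → A) : ℝ) = n * Real.log m := by
      rw [Fintype.card_fun, Fintype.card_fin]
      push_cast
      rw [Real.log_pow]
    unfold Hd at a2
    rw [a4] at a2
    have a5 : (n : ℝ) * (Real.log m - min (Real.log m) χ + ε) =
      n * Real.log m - n * (min (Real.log m) χ - ε) := by ring
    rw [a5]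
    linarith
  have hHR0 : ∀ n : ℕ, 0 ≤ HR (fun p : Fin n → A => ⌊XX lam t p / lam ^ n⌋) :=
    fun n => (t_E_bound _ _ _).1
  have hflat := Pool.Agent.Y293.EO.claim_nonflat.2 A lam t hl0 hl1 ⟨ε, hε, n0 * (Real.log m + ε), fun n => by
    by_cases hn : n0 ≤ n
    · refine le_trans ?_ (key n hn)
      have b1 : min (Real.log m) χ ≤ χ := min_le_right _ _
      have b2 : (0 : ℝ) ≤ n0 * (Real.log m + ε) := by positivity
      have b3 : (n : ℝ) * (Real.log m - χ + ε) ≤ n * (Real.log m - min (Real.log m) χ + ε) := by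
        apply mul_le_mul_of_nonneg_left _ (Nat.cast_nonneg _)
        linarith
      linarith
    · refine le_trans ?_ (hHR0 n)
      have b1 : (n : ℝ) ≤ n0 := by exact_mod_cast (by omega : n ≤ n0)
      have b2 : (n : ℝ) * (Real.log m - χ + ε) ≤ n * (Real.log m + ε) := by
        apply mul_le_mul_of_nonneg_left _ (Nat.cast_nonneg _)
        linarith
      have b3 : (n : ℝ) * (Real.log m + ε) ≤ n0 * (Real.log m + ε) := by
        apply mul_le_mul_of_nonneg_right b1
        linarith
      linarith⟩
  have hclaim := Pool.Agent.Y293.EO.claim_nonflat.1 A lam t hm hl0 hl1 hfree hflat (fun _ _ => 0)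
  obtain ⟨n, hn, hlt⟩ := hclaim ε hε n0
  have c1 : HT lam t (fun _ _ => (0 : PowerSeries ℤ)) n =
      HR (fun p : Fin n → A => ⌊XX lam t p / lam ^ n⌋) := by
    unfold HT
    apply HR_congr
    intro p q
    rw [Prod.mk.injEq]
    constructor
    · exact fun h => h.2
    · intro h
      refine ⟨?_, h⟩
      rw [YM_eq_iff]
      intro b j _
      simp [YY]
  rw [c1] at hlt
  have c2 := key n hn
  have c3 : ε * (n : ℝ) ≤ n * (Real.log m - min (Real.log m) χ + ε) := by
    have : min (Real.log m) χ ≤ Real.log m := min_le_left _ _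
    rw [mul_comm]
    apply mul_le_mul_of_nonneg_left _ (Nat.cast_nonneg _)
    linarith
  linarith

end Pool.Agent.Y293.EM
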