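import Pool.Agent.Y293.EM.Typ
import Pool.Agent.Y293.EM.Unif

/-!
# Entropy of the random word with product weights at the natural scale
-/

set_option autoImplicit false

open Finset Filter

namespace Pool.Agent.Y293.EM

open H517.EO

section ent

variable {A : Type} [Fintype A] [DecidableEq A]

theorem XX_injective_block {lam : ℝ} {t : A → ℝ} (hfree : Free lam t) (n : ℕ) :
    ∀ (j : ℕ) (V W : Fin j → Fin n → A), X2 lam t V = X2 lam t W → V = W := by
  classical
  intro j V W h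
  -- the concatenated words
  let cat : (Fin j → Fin n → A) → (Fin (j * n) → A) := fun V k =>
    V (finProdFinEquiv.symm k).1 (finProdFinEquiv.symm k).2
  have hcat : ∀ V, XX lam t (cat V) = X2 lam t V := by
    intro V
    unfold X2 XX
    rw [← finProdFinEquiv.sum_comp, Fintype.sum_prod_type]
    refine Finset.sum_congr rfl fun i _ => ?_
    rw [Finset.mul_sum]
    refine Finset.sum_congr rfl fun k _ => ?_
    simp only [cat, Equiv.symm_apply_apply]
    have : ((finProdFinEquiv (i, k) : Fin (j * n)) : ℕ) = k + n * i := rfl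
    rw [this, pow_add, pow_mul]
    ring
  have h1 := hfree (j * n) (cat V) (cat W) (by rw [hcat, hcat, h])
  funext i k
  have h2 := congrFun h1 (finProdFinEquiv (i, k))
  simpa only [cat, Equiv.symm_apply_apply] using h2

/-- a map with fibres of constant size -/
theorem card_fibre {n j : ℕ} (v : Fin n → A) :
    ∀ W : Fin j → {w : Fin n → A // cnt w = cnt v},
      (@Finset.filter (Fin j → Equiv.Perm (Fin n))
        (fun σ => (fun i => (⟨v ∘ σ i, funext fun a => cnt_comp v (σ i) a⟩ :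
          {w : Fin n → A // cnt w = cnt v})) = W) (Classical.decPred _) Finset.univ).card =
      (Finset.univ.filter (fun τ : Equiv.Perm (Fin n) => v ∘ τ = v)).card ^ j := by
  classical
  intro W
  have h1 : (@Finset.filter (Fin j → Equiv.Perm (Fin n))
        (fun σ => (fun i => (⟨v ∘ σ i, funext fun a => cnt_comp v (σ i) a⟩ :
          {w : Fin n → A // cnt w = cnt v})) = W) (Classical.decPred _) Finset.univ) =
      Fintype.piFinset (fun i => Finset.univ.filter
        (fun τ : Equiv.Perm (Fin n) => v ∘ τ = (W i).1)) := by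
    ext σ
    simp only [Finset.mem_filter, Finset.mem_univ, true_and, Fintype.mem_piFinset]
    constructor
    · intro h i
      have := congrFun h i
      exact congrArg Subtype.val this
    · intro h
      funext i
      exact Subtype.ext (h i)
  rw [h1, Fintype.card_piFinset]
  have h2 : ∀ i, (Finset.univ.filter (fun τ : Equiv.Perm (Fin n) => v ∘ τ = (W i).1)).card =
      (Finset.univ.filter (fun τ : Equiv.Perm (Fin n) => v ∘ τ = v)).card := by
    intro i
    obtain ⟨ρ, hρ⟩ := exists_perm v (W i).1 (fun a => (congrFun (W i).2 a).symm)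
    apply Finset.card_bij (fun τ _ => τ * ρ⁻¹)
    · intro τ hτ
      rw [Finset.mem_filter] at hτ ⊢
      refine ⟨Finset.mem_univ _, ?_⟩
      funext k
      have h3 := congrFun hτ.2 (ρ⁻¹ k)
      have h4 := congrFun hρ (ρ⁻¹ k)
      simp only [Function.comp_apply, Equiv.Perm.coe_mul] at h3 h4 ⊢
      rw [h3, ← h4]
      simp
    · intro a _ b _ hab
      exact mul_right_cancel hab
    · intro τ hτ
      rw [Finset.mem_filter] at hτ
      refine ⟨τ * ρ, ?_, by rw [mul_inv_cancel_right]⟩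
      rw [Finset.mem_filter]
      refine ⟨Finset.mem_univ _, ?_⟩
      rw [← hρ]
      funext k
      have h3 := congrFun hτ.2 (ρ k)
      simp only [Function.comp_apply, Equiv.Perm.coe_mul] at h3 ⊢
      exact h3
  rw [Finset.prod_congr rfl fun i _ => h2 i, Finset.prod_const, Finset.card_univ, Fintype.card_fin]

theorem large_n (K ε : ℝ) (hK : 0 ≤ K) (hε : 0 < ε) : ∃ n : ℕ, 1 ≤ n ∧
    K * Real.sqrt n * (Real.log (n + 1) + 1) + K ≤ ε * n := by
  have h1 : Tendsto (fun k : ℕ => K * (2 * ((k : ℝ) * (1 / 2) ^ k) + 3 * (1 / 2) ^ k) +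
      K * (1 / 4 : ℝ) ^ k) atTop (nhds (K * (2 * 0 + 3 * 0) + K * 0)) := by
    refine Tendsto.add (Tendsto.const_mul _ (Tendsto.add (Tendsto.const_mul _ ?_)
      (Tendsto.const_mul _ ?_))) (Tendsto.const_mul _ ?_)
    · exact tendsto_self_mul_const_pow_of_lt_one (by norm_num) (by norm_num)
    · exact tendsto_pow_atTop_nhds_zero_of_lt_one (by norm_num) (by norm_num)
    · exact tendsto_pow_atTop_nhds_zero_of_lt_one (by norm_num) (by norm_num)
  have h2 : ∀ᶠ k : ℕ in atTop, K * (2 * ((k : ℝ) * (1 / 2) ^ k) + 3 * (1 / 2) ^ k) +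
      K * (1 / 4 : ℝ) ^ k < ε := by
    apply h1.eventually_lt_const
    simpa using hε
  obtain ⟨k, hk⟩ := h2.exists
  refine ⟨4 ^ k, Nat.one_le_pow _ _ (by norm_num), ?_⟩
  push_cast
  have h4 : (4 : ℝ) ^ k = 2 ^ k * 2 ^ k := by
    rw [← mul_pow]; norm_num
  have hs : Real.sqrt ((4 : ℝ) ^ k) = 2 ^ k := by
    rw [h4]
    exact Real.sqrt_mul_self (by positivity)
  have hlog : Real.log ((4 : ℝ) ^ k + 1) ≤ 2 * k + 2 := by
    have h5 : (4 : ℝ) ^ k + 1 ≤ 4 ^ (k + 1) := by
      rw [pow_succ]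
      have : (1 : ℝ) ≤ 4 ^ k := one_le_pow₀ (by norm_num)
      linarith
    have h6 := Real.log_le_log (by positivity) h5
    rw [Real.log_pow] at h6
    have h7 : Real.log 4 ≤ 2 := by
      have : Real.log 4 = 2 * Real.log 2 := by
        rw [show (4 : ℝ) = 2 ^ 2 by norm_num, Real.log_pow]; norm_num
      rw [this]
      have := Real.log_two_lt_d9
      linarith
    push_cast at h6
    have h8 : ((k : ℝ) + 1) * Real.log 4 ≤ (k + 1) * 2 :=
      mul_le_mul_of_nonneg_left h7 (by positivity)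
    linarith
  rw [hs]
  have h5 : K * 2 ^ k * (Real.log ((4 : ℝ) ^ k + 1) + 1) ≤ K * 2 ^ k * (2 * k + 3) := by
    apply mul_le_mul_of_nonneg_left _ (by positivity)
    linarith
  have h6 : K * 2 ^ k * (2 * k + 3) + K =
      (K * (2 * ((k : ℝ) * (1 / 2) ^ k) + 3 * (1 / 2) ^ k) + K * (1 / 4 : ℝ) ^ k) * 4 ^ k := by
    have e1 : (1 / 2 : ℝ) ^ k * 4 ^ k = 2 ^ k := by rw [← mul_pow]; norm_num
    have e2 : (1 / 4 : ℝ) ^ k * 4 ^ k = 1 := by rw [← mul_pow]; norm_num
    calc K * 2 ^ k * (2 * k + 3) + K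
        = K * (2 * (k * ((1 / 2 : ℝ) ^ k * 4 ^ k)) + 3 * ((1 / 2 : ℝ) ^ k * 4 ^ k)) +
          K * ((1 / 4 : ℝ) ^ k * 4 ^ k) := by rw [e1, e2]; ring
      _ = _ := by ring
  have h7 : (K * (2 * ((k : ℝ) * (1 / 2) ^ k) + 3 * (1 / 2) ^ k) + K * (1 / 4 : ℝ) ^ k) * 4 ^ k ≤
      ε * 4 ^ k := mul_le_mul_of_nonneg_right hk.le (by positivity)
  linarith

theorem Hd_nonneg {Ω β : Type} [Fintype Ω] (f : Ω → β) : 0 ≤ Hd f := by
  unfold Hd
  have := (t_E_bound Ω β f).2
  linarith

theorem ent_words {lam : ℝ} {t : A → ℝ} (hl0 : 0 < lam) (hl1 : lam < 1) (hfree : Free lam t)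
    {p : A → ℝ} (hp : ∀ a, 0 < p a) (hp1 : ∑ a, p a = 1) (ε : ℝ) (hε : 0 < ε) (N0 : ℕ) :
    ∃ n j : ℕ, 1 ≤ n ∧ N0 ≤ n * j ∧ ∀ y η : ℝ, 0 < η → η ≤ lam ^ (n * j) →
      ((n * j : ℕ) : ℝ) * (min (∑ a, Real.negMulLog (p a)) (Real.log (1 / lam)) - ε) ≤
        ∑ V : Fin j → Fin n → A, pw (pw p) V *
          Hd (fun σ : Fin j → Equiv.Perm (Fin n) =>
            ⌊(X2 lam t (fun i => V i ∘ σ i) + y) / η⌋) := by
  classical
  set H : ℝ := ∑ a, Real.negMulLog (p a) with hH
  set χ : ℝ := Real.log (1 / lam) with hχ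
  have hPP : ∀ (n j : ℕ) (V : Fin j → Fin n → A), 0 ≤ pw (pw p) V := fun n j V =>
    pw_nonneg (fun v => pw_nonneg (fun a => (hp a).le) v) V
  have hPP1 : ∀ n j : ℕ, ∑ V : Fin j → Fin n → A, pw (pw p) V = 1 := fun n j =>
    sum_pw (sum_pw hp1 n) j
  rcases le_or_gt (min H χ - ε) 0 with hneg | hpos
  · refine ⟨1, N0, le_rfl, by omega, fun y η _ _ => ?_⟩
    refine le_trans (mul_nonpos_of_nonneg_of_nonpos (Nat.cast_nonneg _) hneg) ?_
    exact Finset.sum_nonneg fun V _ => mul_nonneg (hPP _ _ _) (Hd_nonneg _)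
  obtain ⟨C, hC, hword⟩ := exists_word hp hp1
  set m : ℝ := (Fintype.card A : ℝ) with hm
  have hm0 : 0 ≤ m := by rw [hm]; positivity
  obtain ⟨n, hn, hlarge⟩ := large_n (2 * C + m + 2) (ε / 2) (by positivity) (by linarith)
  obtain ⟨v, hv1, hv2⟩ := hword n hn
  have hn1 : (1 : ℝ) ≤ n := by exact_mod_cast hn
  have hn0 : (0 : ℝ) < n := by linarith
  set r : ℝ := Real.sqrt n * (Real.log (n + 1) + 1) with hr
  have hln : 0 ≤ Real.log n := Real.log_nonneg hn1
  have hln1 : Real.log n ≤ Real.log (n + 1) := Real.log_le_log (by linarith) (by linarith)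
  have hr0 : 0 ≤ r := by
    rw [hr]; apply mul_nonneg (Real.sqrt_nonneg _); linarith
  have hrl : Real.sqrt n * Real.log n ≤ r := by
    rw [hr]; apply mul_le_mul_of_nonneg_left _ (Real.sqrt_nonneg _); linarith
  have hlarge' : (2 * C + m + 2) * r + (2 * C + m + 2) ≤ ε / 2 * n := by
    rw [hr]; linarith [hlarge]
  have hv1' : n * H - C * r ≤ Real.log (tc v) := by rw [hr]; linarith [hv1]
  have hv2' : (∑ a, |(cnt v a : ℝ) - n * p a|) * Real.log n ≤ C * r := by rw [hr]; linarith [hv2]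
  -- the alphabet
  have hHε : ε < H := by
    have : min H χ ≤ H := min_le_left _ _
    linarith
  have hcardT : (Fintype.card {w : Fin n → A // cnt w = cnt v} : ℝ) = tc v := by
    rw [Fintype.card_subtype]
    rfl
  have hm2 : 2 ≤ Fintype.card {w : Fin n → A // cnt w = cnt v} := by
    have h1 : 0 < Real.log (tc v) := by
      have h2 : C * r ≤ ε / 2 * n := by nlinarith
      have h3 : ε * n < n * H := by nlinarith
      nlinarith
    have h2 : 1 < tc v := by
      by_contra h3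
      have := Real.log_nonpos (by linarith [tc_pos v]) (not_lt.1 h3)
      linarith
    rw [← hcardT] at h2
    exact_mod_cast h2
  have hln0 : 0 < lam ^ n := pow_pos hl0 n
  have hln1' : lam ^ n < 1 := pow_lt_one₀ hl0.le hl1 (by omega)
  have hfree' : Free (lam ^ n) (fun w : {w : Fin n → A // cnt w = cnt v} => XX lam t w.1) := by
    intro k V W hVW
    have h1 := XX_injective_block hfree n k (fun i => (V i).1) (fun i => (W i).1) hVW
    funext i
    exact Subtype.ext (congrFun h1 i)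
  obtain ⟨j, hj, hunif⟩ := unif {w : Fin n → A // cnt w = cnt v} (lam ^ n)
    (fun w => XX lam t w.1) hm2 hln0 hln1' hfree' 1 one_pos (max 1 N0)
  have hj1 : 1 ≤ j := le_trans (le_max_left _ _) hj
  have hjN : N0 ≤ j := le_trans (le_max_right _ _) hj
  refine ⟨n, j, hn, le_trans hjN (Nat.le_mul_of_pos_left j (by omega)), fun y η hη hηw => ?_⟩
  have hj1' : (1 : ℝ) ≤ j := by exact_mod_cast hj1
  rw [hcardT] at hunif
  have hχn : Real.log (1 / lam ^ n) = n * χ := by
    rw [hχ, one_div, one_div, ← inv_pow, Real.log_pow]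
  rw [hχn] at hunif
  set w : ℝ := lam ^ (n * j) with hw
  have hw0 : 0 < w := pow_pos hl0 _
  have hw' : w = (lam ^ n) ^ j := by rw [hw, pow_mul]
  -- transport to permutations
  have hstar : Hd (fun σ : Fin j → Equiv.Perm (Fin n) => ⌊X2 lam t (fun i => v ∘ σ i) / w⌋) =
      Hd (fun W : Fin j → {w : Fin n → A // cnt w = cnt v} =>
        ⌊XX (lam ^ n) (fun w : {w : Fin n → A // cnt w = cnt v} => XX lam t w.1) W /
          (lam ^ n) ^ j⌋) := by
    rw [← Hd_comp (fun (σ : Fin j → Equiv.Perm (Fin n)) (i : Fin j) =>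
      (⟨v ∘ σ i, funext fun a => cnt_comp v (σ i) a⟩ : {w : Fin n → A // cnt w = cnt v})) _
      (card_fibre v)]
    rw [hw']
    rfl
  -- change of the mesh
  have hmesh : Hd (fun σ : Fin j → Equiv.Perm (Fin n) => ⌊X2 lam t (fun i => v ∘ σ i) / w⌋) -
      Real.log 3 ≤ Hd (fun σ : Fin j → Equiv.Perm (Fin n) => ⌊X2 lam t (fun i => v ∘ σ i) / η⌋) := by
    have h1 := t_E_grid (Fin j → Equiv.Perm (Fin n)) Unit (fun _ => ())
      (fun σ => X2 lam t (fun i => v ∘ σ i)) η w 0 0 1 hη hw0 zero_le_one (by linarith)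
    simp only [add_zero] at h1
    have h2 : ∀ e : ℝ, HR (fun σ : Fin j → Equiv.Perm (Fin n) =>
        ((), ⌊X2 lam t (fun i => v ∘ σ i) / e⌋)) =
        HR (fun σ : Fin j → Equiv.Perm (Fin n) => ⌊X2 lam t (fun i => v ∘ σ i) / e⌋) := by
      intro e
      apply HR_congr
      intro p q
      simp
    rw [h2, h2] at h1
    have h3 : (1 : ℝ) + 2 = 3 := by norm_num
    rw [h3] at h1
    unfold Hd
    linarith
  -- the bound for one sequence of words
  have hone : ∀ V : Fin j → Fin n → A,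
      j * (min (n * H - C * r) (n * χ) - 1) - Real.log 3 - Real.log 2 -
        (∑ i, (∑ a, |(cnt (V i) a : ℝ) - n * p a| + ∑ a, |(cnt v a : ℝ) - n * p a|)) / 2 *
          Real.log n ≤
      Hd (fun σ : Fin j → Equiv.Perm (Fin n) => ⌊(X2 lam t (fun i => V i ∘ σ i) + y) / η⌋) := by
    intro V
    have h1 := HR_couple hn lam t η y hη V v
    have h2 : (∑ i, ∑ a, |(cnt (V i) a : ℝ) - cnt v a|) ≤
        ∑ i, (∑ a, |(cnt (V i) a : ℝ) - n * p a| + ∑ a, |(cnt v a : ℝ) - n * p a|) := by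
      apply Finset.sum_le_sum
      intro i _
      rw [← Finset.sum_add_distrib]
      apply Finset.sum_le_sum
      intro a _
      have h3 : (cnt (V i) a : ℝ) - cnt v a =
        ((cnt (V i) a : ℝ) - n * p a) - ((cnt v a : ℝ) - n * p a) := by ring
      rw [h3]
      exact abs_sub _ _
    have h3 := mul_le_mul_of_nonneg_right (div_le_div_of_nonneg_right h2 (by norm_num : (0:ℝ) ≤ 2))
      hln
    have h4 : min (n * H - C * r) (n * χ) ≤ min (Real.log (tc v)) (n * χ) :=
      min_le_min_right _ hv1'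
    have h5 := mul_le_mul_of_nonneg_left h4 (by linarith : (0 : ℝ) ≤ j)
    have h6 : Hd (fun σ : Fin j → Equiv.Perm (Fin n) => ⌊X2 lam t (fun i => v ∘ σ i) / η⌋) -
        Real.log 2 - (∑ i, ∑ a, |(cnt (V i) a : ℝ) - cnt v a|) / 2 * Real.log n ≤
        Hd (fun σ : Fin j → Equiv.Perm (Fin n) =>
          ⌊(X2 lam t (fun i => V i ∘ σ i) + y) / η⌋) := by
      unfold Hd
      linarith
    rw [hstar] at hmesh
    linarith
  -- average
  have hsum := Finset.sum_le_sum (fun V (_ : V ∈ (Finset.univ : Finset (Fin j → Fin n → A))) =>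
    mul_le_mul_of_nonneg_left (hone V) (hPP n j V))
  refine le_trans ?_ hsum
  have hexp : ∑ V : Fin j → Fin n → A, pw (pw p) V *
      (∑ i, (∑ a, |(cnt (V i) a : ℝ) - n * p a| + ∑ a, |(cnt v a : ℝ) - n * p a|)) =
      j * (∑ u : Fin n → A, pw p u * ∑ a, |(cnt u a : ℝ) - n * p a| +
        ∑ a, |(cnt v a : ℝ) - n * p a|) := by
    rw [exp_add (sum_pw hp1 n) (fun u => ∑ a, |(cnt u a : ℝ) - n * p a| +
      ∑ a, |(cnt v a : ℝ) - n * p a|) j]
    congr 1
    rw [Finset.sum_congr rfl fun u _ => mul_add _ _ _, Finset.sum_add_distrib, ← Finset.sum_mul,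
      sum_pw hp1, one_mul]
  have hlhs : ∑ V : Fin j → Fin n → A, pw (pw p) V *
      (j * (min (n * H - C * r) (n * χ) - 1) - Real.log 3 - Real.log 2 -
        (∑ i, (∑ a, |(cnt (V i) a : ℝ) - n * p a| + ∑ a, |(cnt v a : ℝ) - n * p a|)) / 2 *
          Real.log n) =
      j * (min (n * H - C * r) (n * χ) - 1) - Real.log 3 - Real.log 2 -
        (j * (∑ u : Fin n → A, pw p u * ∑ a, |(cnt u a : ℝ) - n * p a| +
        ∑ a, |(cnt v a : ℝ) - n * p a|)) / 2 * Real.log n := by
    rw [← hexp, Finset.sum_congr rfl fun V _ => mul_sub _ _ _, Finset.sum_sub_distrib,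
      ← Finset.sum_mul, hPP1, one_mul, Finset.sum_div, Finset.sum_mul]
    congr 1
    refine Finset.sum_congr rfl fun V _ => ?_
    ring
  rw [hlhs]
  have hcnt := mul_le_mul_of_nonneg_right (exp_cnt (fun a => (hp a).le) hp1 n hn) hln
  have hlog2 : Real.log 2 ≤ 1 := by have := Real.log_two_lt_d9; linarith
  have hlog3 : Real.log 3 ≤ 2 := by
    have h1 : Real.log 3 ≤ Real.log 4 := Real.log_le_log (by norm_num) (by norm_num)
    have h2 : Real.log 4 = 2 * Real.log 2 := by
      rw [show (4 : ℝ) = 2 ^ 2 by norm_num, Real.log_pow]; norm_num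
    linarith
  have h1 : (j * (∑ u : Fin n → A, pw p u * ∑ a, |(cnt u a : ℝ) - n * p a| +
        ∑ a, |(cnt v a : ℝ) - n * p a|)) / 2 * Real.log n ≤ j * (m * r + C * r / 2) := by
    have h2 : (∑ u : Fin n → A, pw p u * ∑ a, |(cnt u a : ℝ) - n * p a|) * Real.log n ≤
        2 * m * r := by
      calc _ ≤ _ := hcnt
        _ = 2 * m * (Real.sqrt n * Real.log n) := by ring
        _ ≤ 2 * m * r := mul_le_mul_of_nonneg_left hrl (by positivity)
    calc _ = j * (((∑ u : Fin n → A, pw p u * ∑ a, |(cnt u a : ℝ) - n * p a|) * Real.log n +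
        (∑ a, |(cnt v a : ℝ) - n * p a|) * Real.log n) / 2) := by ring
      _ ≤ j * ((2 * m * r + C * r) / 2) := by
          apply mul_le_mul_of_nonneg_left _ (by linarith)
          linarith
      _ = _ := by ring
  have h2 : n * min H χ - C * r ≤ min (n * H - C * r) (n * χ) := by
    apply le_min
    · have := mul_le_mul_of_nonneg_left (min_le_left H χ) hn0.le
      linarith
    · have := mul_le_mul_of_nonneg_left (min_le_right H χ) hn0.le
      have h3 : 0 ≤ C * r := mul_nonneg hC hr0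
      linarith
  have h3 := mul_le_mul_of_nonneg_left h2 (by linarith : (0 : ℝ) ≤ j)
  have h4 : (0 : ℝ) ≤ j * (ε / 2 * n - ((2 * C + m + 2) * r + (2 * C + m + 2))) :=
    mul_nonneg (by linarith) (by linarith)
  have h5 : (0 : ℝ) ≤ j * (ε / 2 * n - 2) := by
    apply mul_nonneg (by linarith)
    have q0 : 0 ≤ (2 * C + m + 2) * r := mul_nonneg (by positivity) hr0
    linarith
  have h6 : 0 ≤ C * r := mul_nonneg hC hr0
  have hj0 : (0 : ℝ) ≤ j := by linarith
  have q1 := mul_nonneg hj0 h6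
  have q2 := mul_nonneg hj0 hr0
  have q3 := mul_nonneg hj0 hC
  have q4 := mul_nonneg hj0 hm0
  push_cast
  have e1 : (n : ℝ) * j * (min H χ - ε) = j * (n * min H χ) - j * (n * ε) := by ring
  have e2 : (j : ℝ) * (ε / 2 * n - ((2 * C + m + 2) * r + (2 * C + m + 2))) =
    j * (n * ε) / 2 - 2 * (j * (C * r)) - j * (m * r) - 2 * (j * r) - 2 * (j * C) - j * m - 2 * j := by
    ring
  have e3 : (j : ℝ) * (ε / 2 * n - 2) = j * (n * ε) / 2 - 2 * j := by ring
  have e4 : (j : ℝ) * (m * r + C * r / 2) = j * (m * r) + j * (C * r) / 2 := by ring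
  have e5 : (j : ℝ) * (n * min H χ - C * r) = j * (n * min H χ) - j * (C * r) := by ring
  have e6 : (j : ℝ) * (min (n * H - C * r) (n * χ) - 1) =
    j * min (n * H - C * r) (n * χ) - j := by ring
  rw [e1, e6]
  rw [e2] at h4
  rw [e3] at h5
  rw [e4] at h1
  rw [e5] at h3
  linarith

end ent

end Pool.Agent.Y293.EM
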