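import Pool.Agent.Y293.EM.Loc

/-!
# Upper bound of the local dimension of a self-similar measure
-/

set_option autoImplicit false

open Finset Filter MeasureTheory

namespace Pool.Agent.Y293.EM

open H517.EO

section up

variable {A : Type} [Fintype A]

/-- Chebyshev for the weights of the words -/
theorem cheb_pw {p : A → ℝ} (hp : ∀ a, 0 < p a) (hp1 : ∑ a, p a = 1) {c : ℝ}
    (hc : ∑ a, Real.negMulLog (p a) < c) : ∃ V : ℝ, 0 ≤ V ∧ ∀ n : ℕ, 1 ≤ n →
      (∑ w : Fin n → A, if pw p w < Real.exp (-(c * n)) then pw p w else 0) ≤ V / n := by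
  set H : ℝ := ∑ a, Real.negMulLog (p a) with hH
  set φ : A → ℝ := fun a => -Real.log (p a) - H with hφ
  have h0 : ∑ a, p a * φ a = 0 := by
    simp only [hφ, mul_sub]
    rw [Finset.sum_sub_distrib, ← Finset.sum_mul, hp1, hH]
    unfold Real.negMulLog
    simp
  set W : ℝ := ∑ a, p a * φ a ^ 2 with hW
  have hW0 : 0 ≤ W := Finset.sum_nonneg fun a _ => mul_nonneg (hp a).le (sq_nonneg _)
  have hcH : 0 < c - H := by linarith
  refine ⟨W / (c - H) ^ 2, by positivity, fun n hn => ?_⟩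
  have hn0 : (0 : ℝ) < n := by exact_mod_cast hn
  have h1 := exp_sq hp1 φ h0 n
  have h2 : ∀ w : Fin n → A, (if pw p w < Real.exp (-(c * n)) then pw p w else 0) ≤
      (pw p w * (∑ i, φ (w i)) ^ 2) / ((c - H) * n) ^ 2 := by
    intro w
    have hP := pw_pos hp w
    split_ifs with hw
    · rw [le_div_iff₀ (by positivity)]
      apply mul_le_mul_of_nonneg_left _ hP.le
      have h3 : ∑ i, φ (w i) = -Real.log (pw p w) - n * H := by
        simp only [hφ]
        rw [Finset.sum_sub_distrib, Finset.sum_const, Finset.card_univ, Fintype.card_fin,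
          nsmul_eq_mul]
        unfold pw
        rw [Real.log_prod (fun i _ => (hp _).ne'), Finset.sum_neg_distrib]
      have h4 : Real.log (pw p w) < -(c * n) := by
        rw [← Real.log_exp (-(c * n))]
        exact Real.log_lt_log hP hw
      rw [h3]
      have h5 : 0 ≤ (c - H) * n := by positivity
      apply pow_le_pow_left₀ h5
      linarith
    · positivity
  refine (Finset.sum_le_sum fun w _ => h2 w).trans (le_of_eq ?_)
  rw [← Finset.sum_div, h1, ← hW]
  field_simp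

/-- the ball around a point of a cylinder -/
theorem ball_ge {lam M : ℝ} {t p : A → ℝ} {μ : Measure ℝ} [IsProbabilityMeasure μ]
    (hl0 : 0 < lam) (hp : ∀ a, 0 < p a) (h : SR lam t p μ)
    (hsupp : ∀ᵐ x ∂μ, x ∈ Set.Icc (-M) M) (n : ℕ) (w : Fin n → A) (y : ℝ)
    (hy : y ∈ Set.Icc (-M) M) :
    pw p w ≤ μ.real (Metric.closedBall (lam ^ n * y + XX lam t w) (2 * M * lam ^ n)) := by
  set B : Set ℝ := Metric.closedBall (lam ^ n * y + XX lam t w) (2 * M * lam ^ n) with hB
  have hcb : MeasurableSet B := Metric.isClosed_closedBall.measurableSet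
  have h1 := SR_iter h n B hcb
  set F : (Fin n → A) → ℝ := fun v => pw p v * μ.real ((fun x : ℝ => lam ^ n * x + XX lam t v) ⁻¹' B)
    with hF
  have h3 : ∀ᵐ x ∂μ, x ∈ ((fun x : ℝ => lam ^ n * x + XX lam t w) ⁻¹' B) := by
    filter_upwards [hsupp] with x hx
    rw [Set.mem_preimage, hB, Metric.mem_closedBall, Real.dist_eq]
    have h4 : lam ^ n * x + XX lam t w - (lam ^ n * y + XX lam t w) = lam ^ n * (x - y) := by ring
    rw [h4, abs_mul, abs_of_pos (pow_pos hl0 _), mul_comm]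
    apply mul_le_mul_of_nonneg_right _ (pow_pos hl0 _).le
    rw [abs_le]
    constructor <;> linarith [hx.1, hx.2, hy.1, hy.2]
  have h5 : μ.real ((fun x : ℝ => lam ^ n * x + XX lam t w) ⁻¹' B) = 1 := by
    have h8 : ((fun x : ℝ => lam ^ n * x + XX lam t w) ⁻¹' B) =ᵐ[μ] Set.univ :=
      Filter.eventuallyEq_univ.2 h3
    rw [measureReal_congr h8, probReal_univ]
  have h6 : F w = pw p w := by simp only [hF, h5, mul_one]
  have hF0 : ∀ v ∈ (Finset.univ : Finset (Fin n → A)), 0 ≤ F v :=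
    fun v _ => mul_nonneg (pw_pos hp v).le measureReal_nonneg
  have h7 : F w ≤ ∑ v, F v := Finset.single_le_sum hF0 (Finset.mem_univ w)
  rw [h6] at h7
  exact h7.trans (le_of_eq h1.symm)

theorem ae_of_bad {μ : Measure ℝ} [IsProbabilityMeasure μ] {G : ℕ → Set ℝ} {f : ℕ → ℝ}
    (hf : Summable f) (hG : ∀ l, μ.real (G l)ᶜ ≤ f l) : ∀ᵐ x ∂μ, ∀ᶠ l : ℕ in atTop, x ∈ G l := by
  have hne : ∑' l : ℕ, μ (G l)ᶜ ≠ ⊤ := by
    refine ne_top_of_le_ne_top hf.tsum_ofReal_ne_top (ENNReal.tsum_le_tsum fun l => ?_)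
    rw [← ofReal_measureReal (measure_ne_top _ _)]
    exact ENNReal.ofReal_le_ofReal (hG l)
  filter_upwards [ae_eventually_notMem hne] with x hx
  filter_upwards [hx] with l hl
  exact not_not.1 hl

/-- upper bound with the entropy -/
theorem upper_ent {lam M : ℝ} {t p : A → ℝ} {μ : Measure ℝ} [IsProbabilityMeasure μ]
    (hl0 : 0 < lam) (hl1 : lam < 1) (hp : ∀ a, 0 < p a)
    (hp1 : ∑ a, p a = 1) (h : SR lam t p μ) (hM : ∀ a, |t a| ≤ M * (1 - lam)) {c : ℝ}
    (hc : ∑ a, Real.negMulLog (p a) < c) :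
    ∀ᵐ x ∂μ, ∀ᶠ l : ℕ in atTop, Real.exp (-(c * (l : ℝ) ^ 2)) ≤
      μ.real (Metric.closedBall x (2 * M * lam ^ (l ^ 2))) := by
  classical
  obtain ⟨V, hV0, hV⟩ := cheb_pw hp hp1 hc
  have hsupp := SR_supp hl0 hl1 (fun a => (hp a).le) hp1 h hM
  set G : ℕ → Set ℝ := fun l => ⋃ w ∈ (Finset.univ : Finset (Fin (l ^ 2) → A)).filter
    (fun w => Real.exp (-(c * ((l ^ 2 : ℕ) : ℝ))) ≤ pw p w),
      (fun x => lam ^ (l ^ 2) * x + XX lam t w) '' Set.Icc (-M) M with hG
  have hGm : ∀ l, MeasurableSet (G l) := by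
    intro l
    apply Finset.measurableSet_biUnion
    intro w _
    apply IsCompact.measurableSet
    apply isCompact_Icc.image
    exact (continuous_const.mul continuous_id).add continuous_const
  have hbad : ∀ l, μ.real (G l)ᶜ ≤ (4 * V + 1) * (1 / ((l : ℝ) + 1) ^ 2) := by
    intro l
    rcases Nat.eq_zero_or_pos l with hl | hl
    · subst hl
      refine measureReal_le_one.trans ?_
      norm_num
      linarith
    · rw [SR_iter h (l ^ 2) _ (hGm l).compl]
      have h1 : ∀ w : Fin (l ^ 2) → A, pw p w *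
          μ.real ((fun x : ℝ => lam ^ (l ^ 2) * x + XX lam t w) ⁻¹' (G l)ᶜ) ≤
          if pw p w < Real.exp (-(c * ((l ^ 2 : ℕ) : ℝ))) then pw p w else 0 := by
        intro w
        split_ifs with hw
        · have := mul_le_mul_of_nonneg_left (measureReal_le_one (μ := μ)
            (s := (fun x : ℝ => lam ^ (l ^ 2) * x + XX lam t w) ⁻¹' (G l)ᶜ)) (pw_pos hp w).le
          linarith
        · apply le_of_eq
          have h2 : μ ((fun x : ℝ => lam ^ (l ^ 2) * x + XX lam t w) ⁻¹' (G l)ᶜ) = 0 := by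
            rw [← compl_compl ((fun x : ℝ => lam ^ (l ^ 2) * x + XX lam t w) ⁻¹' (G l)ᶜ),
              ← mem_ae_iff]
            filter_upwards [hsupp] with x hx
            simp only [Set.mem_compl_iff, Set.mem_preimage, not_not, hG, Set.mem_iUnion]
            refine ⟨w, ?_, ⟨x, hx, rfl⟩⟩
            rw [Finset.mem_filter]
            exact ⟨Finset.mem_univ _, not_lt.1 hw⟩
          rw [Measure.real, h2, ENNReal.toReal_zero, mul_zero]
      refine (Finset.sum_le_sum fun w _ => h1 w).trans ?_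
      refine (hV (l ^ 2) (Nat.one_le_pow _ _ hl)).trans ?_
      have hl' : (1 : ℝ) ≤ l := by exact_mod_cast hl
      push_cast
      rw [mul_one_div, div_le_div_iff₀ (by positivity) (by positivity)]
      have h3 : ((l : ℝ) + 1) ^ 2 ≤ 4 * (l : ℝ) ^ 2 := by nlinarith
      have h4 := mul_le_mul_of_nonneg_left h3 hV0
      nlinarith
  have hsummable : Summable (fun l : ℕ => (4 * V + 1) * (1 / ((l : ℝ) + 1) ^ 2)) := by
    apply Summable.mul_left
    have h3 := (summable_nat_add_iff 1).2 (Real.summable_one_div_nat_pow.2 (one_lt_two))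
    simpa using h3
  filter_upwards [ae_of_bad hsummable hbad] with x hx
  filter_upwards [hx] with l hl
  simp only [hG, Set.mem_iUnion] at hl
  obtain ⟨w, hw, y, hy, rfl⟩ := hl
  rw [Finset.mem_filter] at hw
  have h1 := ball_ge hl0 hp h hsupp (l ^ 2) w y hy
  have h2 := hw.2
  push_cast at h2
  exact h2.trans h1

/-- upper bound by one -/
theorem upper_one {lam M : ℝ} {μ : Measure ℝ} [IsProbabilityMeasure μ]
    (hl0 : 0 < lam) (hl1 : lam < 1) (hM : 0 ≤ M) (hsupp : ∀ᵐ x ∂μ, x ∈ Set.Icc (-M) M) {c : ℝ}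
    (hc : Real.log (1 / lam) < c) :
    ∀ᵐ x ∂μ, ∀ᶠ l : ℕ in atTop, Real.exp (-(c * (l : ℝ) ^ 2)) ≤
      μ.real (Metric.closedBall x (1 * lam ^ (l ^ 2))) := by
  classical
  set χ : ℝ := Real.log (1 / lam) with hχ
  have hlam : ∀ n : ℕ, 1 / lam ^ n = Real.exp (χ * n) := by
    intro n
    rw [hχ, Real.exp_mul, Real.exp_log (by positivity), Real.rpow_natCast, one_div, one_div, inv_pow]
  set F : ℕ → ℝ → ℤ := fun n x => ⌊x / lam ^ n⌋ with hF
  have hFm : ∀ n, Measurable (F n) := fun n => Int.measurable_floor.comp (measurable_id.div_const _)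
  set R : ℕ → Finset ℤ := fun n => Finset.Icc ⌊(-M) / lam ^ n⌋ ⌊M / lam ^ n⌋ with hR
  have hRae : ∀ n, ∀ᵐ x ∂μ, F n x ∈ R n := by
    intro n
    filter_upwards [hsupp] with x hx
    simp only [hR, Finset.mem_Icc, hF]
    exact ⟨Int.floor_le_floor (div_le_div_of_nonneg_right hx.1 (pow_pos hl0 n).le),
      Int.floor_le_floor (div_le_div_of_nonneg_right hx.2 (pow_pos hl0 n).le)⟩
  have hRcard : ∀ n, ((R n).card : ℝ) ≤ (2 * M + 2) * Real.exp (χ * n) := by
    intro n
    simp only [hR]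
    rw [Int.card_Icc]
    have h1 : (⌊(-M) / lam ^ n⌋ : ℝ) ≤ (⌊M / lam ^ n⌋ : ℝ) := by
      exact_mod_cast Int.floor_le_floor (div_le_div_of_nonneg_right (by linarith) (pow_pos hl0 n).le)
    have h2 : (((⌊M / lam ^ n⌋ + 1 - ⌊(-M) / lam ^ n⌋).toNat : ℕ) : ℝ) =
        (⌊M / lam ^ n⌋ : ℝ) + 1 - ⌊(-M) / lam ^ n⌋ := by
      have h3 : (0 : ℤ) ≤ ⌊M / lam ^ n⌋ + 1 - ⌊(-M) / lam ^ n⌋ := by
        have : ⌊(-M) / lam ^ n⌋ ≤ ⌊M / lam ^ n⌋ := by exact_mod_cast h1
        omega
      have h4 : (((⌊M / lam ^ n⌋ + 1 - ⌊(-M) / lam ^ n⌋).toNat : ℕ) : ℤ) =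
        ⌊M / lam ^ n⌋ + 1 - ⌊(-M) / lam ^ n⌋ := Int.toNat_of_nonneg h3
      have h5 : ((((⌊M / lam ^ n⌋ + 1 - ⌊(-M) / lam ^ n⌋).toNat : ℕ) : ℤ) : ℝ) =
        ((⌊M / lam ^ n⌋ + 1 - ⌊(-M) / lam ^ n⌋ : ℤ) : ℝ) := by rw [h4]
      push_cast at h5
      exact h5
    rw [h2]
    have h3 := Int.floor_le (M / lam ^ n)
    have h4 := Int.lt_floor_add_one ((-M) / lam ^ n)
    have h5 : (1 : ℝ) ≤ Real.exp (χ * n) := by
      rw [← hlam]
      rw [le_div_iff₀ (pow_pos hl0 n), one_mul]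
      exact pow_le_one₀ hl0.le hl1.le
    have h6 : M / lam ^ n = M * Real.exp (χ * n) := by rw [← hlam]; ring
    have h7 : (-M) / lam ^ n = -(M * Real.exp (χ * n)) := by rw [← hlam]; ring
    have h8 : (2 * M + 2) * Real.exp (χ * n) = 2 * (M * Real.exp (χ * n)) +
      2 * Real.exp (χ * n) := by ring
    rw [h8]
    linarith
  set G : ℕ → Set ℝ := fun l => {x | Real.exp (-(c * ((l ^ 2 : ℕ) : ℝ))) ≤
    μ.real {y | F (l ^ 2) y = F (l ^ 2) x}} with hG
  have hbad : ∀ l, μ.real (G l)ᶜ ≤ (2 * M + 2) * Real.exp (-(c - χ)) ^ l := by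
    intro l
    set n : ℕ := l ^ 2 with hn
    obtain ⟨-, h2⟩ := int_fin μ (hFm n) (hRae n)
      (fun b => if μ.real {y | F n y = b} < Real.exp (-(c * (n : ℝ))) then 1 else 0)
    have hm : MeasurableSet (G l)ᶜ := by
      have : (G l)ᶜ = F n ⁻¹' {b | Real.exp (-(c * (n : ℝ))) ≤ μ.real {y | F n y = b}}ᶜ := rfl
      rw [this]
      exact hFm n (Set.to_countable _).measurableSet
    have hGl : (G l)ᶜ = {x | μ.real {y | F n y = F n x} < Real.exp (-(c * (n : ℝ)))} := by
      ext x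
      simp only [hG, Set.mem_compl_iff, Set.mem_setOf_eq, not_le, ← hn]
    have h3 : μ.real (G l)ᶜ =
        ∫ x, (if μ.real {y | F n y = F n x} < Real.exp (-(c * (n : ℝ))) then (1 : ℝ) else 0) ∂μ := by
      rw [← integral_indicator_one hm, hGl]
      refine integral_congr_ae (ae_of_all _ fun x => ?_)
      simp [Set.indicator]
    rw [h3, h2]
    have h4 : ∀ b ∈ R n, μ.real {x | F n x = b} *
        (if μ.real {y | F n y = b} < Real.exp (-(c * (n : ℝ))) then 1 else 0) ≤
        Real.exp (-(c * (n : ℝ))) := by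
      intro b _
      split_ifs with hb
      · rw [mul_one]
        exact hb.le
      · rw [mul_zero]
        exact (Real.exp_pos _).le
    refine (Finset.sum_le_sum h4).trans ?_
    rw [Finset.sum_const, nsmul_eq_mul]
    have h5 := mul_le_mul_of_nonneg_right (hRcard n) (Real.exp_pos (-(c * (n : ℝ)))).le
    refine h5.trans ?_
    rw [mul_assoc, ← Real.exp_add, ← Real.exp_nat_mul]
    apply mul_le_mul_of_nonneg_left _ (by linarith)
    apply Real.exp_le_exp.2
    rw [hn]
    push_cast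
    have h6 : (l : ℝ) ≤ (l : ℝ) ^ 2 := by
      rcases Nat.eq_zero_or_pos l with h | h
      · rw [h]; simp
      · have : (1 : ℝ) ≤ l := by exact_mod_cast h
        nlinarith
    nlinarith
  have hsummable : Summable (fun l : ℕ => (2 * M + 2) * Real.exp (-(c - χ)) ^ l) := by
    apply Summable.mul_left
    exact summable_geometric_of_lt_one (Real.exp_pos _).le (by rw [Real.exp_lt_one_iff]; linarith)
  filter_upwards [ae_of_bad hsummable hbad] with x hx
  filter_upwards [hx] with l hl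
  simp only [hG, Set.mem_setOf_eq] at hl
  push_cast at hl
  refine hl.trans ?_
  apply measureReal_mono _ (measure_ne_top _ _)
  intro y hy
  simp only [Set.mem_setOf_eq, hF] at hy
  rw [Metric.mem_closedBall, Real.dist_eq, one_mul]
  have hlp := pow_pos hl0 (l ^ 2)
  have h1 : |y / lam ^ (l ^ 2) - x / lam ^ (l ^ 2)| < 1 := Int.abs_sub_lt_one_of_floor_eq_floor hy
  rw [← sub_div, abs_div, abs_of_pos hlp, div_lt_one hlp] at h1
  exact h1.le

/-- upper bound of the local dimension -/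
theorem local_upper {lam : ℝ} {t p : A → ℝ} {μ : Measure ℝ} [IsProbabilityMeasure μ]
    (hl0 : 0 < lam) (hl1 : lam < 1) (hp : ∀ a, 0 < p a)
    (hp1 : ∑ a, p a = 1) (h : SR lam t p μ) {D : ℝ}
    (hD : min (∑ a, Real.negMulLog (p a)) (Real.log (1 / lam)) < D * Real.log (1 / lam)) :
    ∀ᵐ x ∂μ, ∀ᶠ r in nhdsWithin (0 : ℝ) (Set.Ioi 0), r ^ D ≤ μ.real (Metric.closedBall x r) := by
  have hβ : 1 < 1 / lam := by rw [lt_div_iff₀ hl0]; linarith
  have hχ0 : 0 < Real.log (1 / lam) := Real.log_pos hβ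
  have h1l : 0 < 1 - lam := by linarith
  have hmono : ∀ x : ℝ, Monotone (fun r => μ.real (Metric.closedBall x r)) := fun x r s hrs =>
    measureReal_mono (Metric.closedBall_subset_closedBall hrs) (measure_ne_top _ _)
  set M : ℝ := 1 + (∑ a, |t a|) / (1 - lam) with hMdef
  have hsum0 : 0 ≤ ∑ a, |t a| := Finset.sum_nonneg fun a _ => abs_nonneg _
  have hM1 : 1 ≤ M := by
    rw [hMdef]
    have : 0 ≤ (∑ a, |t a|) / (1 - lam) := div_nonneg hsum0 h1l.le
    linarith
  have hM : ∀ a, |t a| ≤ M * (1 - lam) := by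
    intro a
    have h1 : |t a| ≤ ∑ a, |t a| := Finset.single_le_sum (fun a _ => abs_nonneg (t a))
      (Finset.mem_univ a)
    rw [hMdef, add_mul, div_mul_cancel₀ _ h1l.ne']
    linarith
  have hH0 : 0 ≤ ∑ a, Real.negMulLog (p a) := by
    apply Finset.sum_nonneg
    intro a _
    apply Real.negMulLog_nonneg (hp a).le
    rw [← hp1]
    exact Finset.single_le_sum (fun b _ => (hp b).le) (Finset.mem_univ a)
  have hinv : ∀ n : ℕ, ((1 / lam) ^ n)⁻¹ = lam ^ n := by
    intro n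
    rw [one_div, inv_pow, inv_inv]
  rcases min_lt_iff.1 hD with h1 | h1
  · obtain ⟨c, hc1, hc2⟩ := exists_between h1
    filter_upwards [upper_ent hl0 hl1 hp hp1 h hM hc1] with x hx
    refine fill_upper (hmono x) hβ (C0 := 2 * M) (by linarith) (by linarith) hc2 ?_
    simpa only [hinv] using hx
  · obtain ⟨c, hc1, hc2⟩ := exists_between h1
    filter_upwards [upper_one hl0 hl1 (by linarith) (SR_supp hl0 hl1 (fun a => (hp a).le) hp1 h hM)
      hc1] with x hx
    refine fill_upper (hmono x) hβ (C0 := 1) one_pos (by linarith) hc2 ?_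
    simpa only [hinv] using hx

end up

end Pool.Agent.Y293.EM
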