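import Pool.Agent.Y293.EM.Low
import Pool.Agent.Y293.EM.Up

/-!
# Exact dimension of homogeneous self-similar measures without exact overlaps
-/

set_option autoImplicit false

open Finset Filter MeasureTheory

namespace Pool.Agent.Y293.EM

open H517.EO

section fin

variable {A : Type} [Fintype A]

theorem SR_of_eq {lam : ℝ} {t p : A → ℝ} {μ : Measure ℝ} [IsProbabilityMeasure μ]
    (hp : ∀ a, 0 ≤ p a)
    (h : μ = ∑ a, ENNReal.ofReal (p a) • μ.map (fun x : ℝ => lam * x + t a)) :
    SR lam t p μ := by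
  intro B hB
  have h1 : μ B = ∑ a, ENNReal.ofReal (p a) * μ ((fun x : ℝ => lam * x + t a) ⁻¹' B) := by
    conv_lhs => rw [h]
    rw [Measure.finsetSum_apply]
    refine Finset.sum_congr rfl fun a _ => ?_
    rw [Measure.smul_apply, Measure.map_apply (meas_aff _ _) hB, smul_eq_mul]
  rw [Measure.real, h1, ENNReal.toReal_sum (fun a _ =>
    ENNReal.mul_ne_top ENNReal.ofReal_ne_top (measure_ne_top _ _))]
  refine Finset.sum_congr rfl fun a _ => ?_
  rw [ENNReal.toReal_mul, ENNReal.toReal_ofReal (hp a)]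
  rfl

/-- mass distribution principle -/
theorem mass_dist {μ : Measure ℝ} [IsProbabilityMeasure μ] {D : ℝ} (hD : 0 < D) {E : Set ℝ}
    (hE : μ E ≠ 0) (h : ∀ᵐ x ∂μ, ∀ᶠ r in nhdsWithin (0 : ℝ) (Set.Ioi 0),
      μ.real (Metric.closedBall x r) ≤ r ^ D) : ENNReal.ofReal D ≤ dimH E := by
  set F : ℕ → Set ℝ := fun n => {x ∈ E | ∀ r : ℝ, 0 < r → r < 1 / ((n : ℝ) + 1) →
    μ.real (Metric.closedBall x r) ≤ r ^ D} with hF
  obtain ⟨n, hn⟩ : ∃ n, μ (F n) ≠ 0 := by
    by_contra hcon
    push Not at hcon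
    apply hE
    have h1 : E ⊆ (⋃ n, F n) ∪ {x | ¬ ∀ᶠ r in nhdsWithin (0 : ℝ) (Set.Ioi 0),
      μ.real (Metric.closedBall x r) ≤ r ^ D} := by
      intro x hx
      by_cases hx2 : ∀ᶠ r in nhdsWithin (0 : ℝ) (Set.Ioi 0),
        μ.real (Metric.closedBall x r) ≤ r ^ D
      · left
        rw [eventually_nhdsWithin_iff, Metric.eventually_nhds_iff] at hx2
        obtain ⟨ε, hε, hx3⟩ := hx2
        obtain ⟨n, hn⟩ := exists_nat_one_div_lt hε
        rw [Set.mem_iUnion]
        refine ⟨n, hx, fun r hr hrn => hx3 ?_ hr⟩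
        rw [Real.dist_eq, sub_zero, abs_of_pos hr]
        linarith
      · right; exact hx2
    refine measure_mono_null h1 (measure_union_null (measure_iUnion_null hcon) ?_)
    exact ae_iff.1 h
  have hle : μ.restrict (F n) ≤ Measure.hausdorffMeasure D := by
    refine Measure.le_hausdorffMeasure D _ (ENNReal.ofReal (1 / (2 * ((n : ℝ) + 1))))
      (by rw [ENNReal.ofReal_pos]; positivity) ?_
    intro s hs
    have htop : Metric.ediam s ≠ ⊤ := ne_top_of_le_ne_top ENNReal.ofReal_ne_top hs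
    set d : ℝ := (Metric.ediam s).toReal with hd
    have hd0 : 0 ≤ d := ENNReal.toReal_nonneg
    have hds : Metric.ediam s = ENNReal.ofReal d := (ENNReal.ofReal_toReal htop).symm
    have hdn : d < 1 / ((n : ℝ) + 1) := by
      have h1 : d ≤ 1 / (2 * ((n : ℝ) + 1)) := by
        rw [hds] at hs
        exact (ENNReal.ofReal_le_ofReal_iff (by positivity)).1 hs
      have h2 : 1 / (2 * ((n : ℝ) + 1)) < 1 / ((n : ℝ) + 1) := by
        apply one_div_lt_one_div_of_lt (by positivity)
        have : (0 : ℝ) < (n : ℝ) + 1 := by positivity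
        linarith
      linarith
    have key : ∀ r : ℝ, d < r → r < 1 / ((n : ℝ) + 1) →
        (μ.restrict (F n)) s ≤ ENNReal.ofReal (r ^ D) := by
      intro r hr1 hr2
      refine (measure_mono subset_closure).trans ?_
      rw [Measure.restrict_apply isClosed_closure.measurableSet]
      rcases Set.eq_empty_or_nonempty (closure s ∩ F n) with h1 | ⟨x, hx1, hx2⟩
      · rw [h1, measure_empty]; exact zero_le
      · have h2 : closure s ∩ F n ⊆ Metric.closedBall x r := by
          intro y hy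
          rw [Metric.mem_closedBall, ← edist_le_ofReal (by linarith)]
          have h3 := Metric.edist_le_ediam_of_mem hy.1 hx1
          rw [Metric.ediam_closure, hds] at h3
          exact h3.trans (ENNReal.ofReal_le_ofReal hr1.le)
        refine (measure_mono h2).trans ?_
        rw [← ofReal_measureReal (measure_ne_top _ _)]
        exact ENNReal.ofReal_le_ofReal (hx2.2 r (by linarith) hr2)
    have hlim : Tendsto (fun r : ℝ => ENNReal.ofReal (r ^ D)) (nhdsWithin d (Set.Ioi d))
        (nhds (ENNReal.ofReal (d ^ D))) := by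
      apply ENNReal.tendsto_ofReal
      exact ((Real.continuousAt_rpow_const d D (Or.inr hD.le)).tendsto).mono_left nhdsWithin_le_nhds
    rw [hds, ENNReal.ofReal_rpow_of_nonneg hd0 hD.le]
    refine ge_of_tendsto hlim ?_
    have h1 : ∀ᶠ r : ℝ in nhdsWithin d (Set.Ioi d), r < 1 / ((n : ℝ) + 1) :=
      (gt_mem_nhds hdn).filter_mono nhdsWithin_le_nhds
    filter_upwards [h1, self_mem_nhdsWithin] with r hr1 hr2
    exact key r hr2 hr1
  have hne : Measure.hausdorffMeasure D (F n) ≠ 0 := by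
    intro h0
    apply hn
    have h1 := hle (F n)
    rw [Measure.restrict_apply_self, h0] at h1
    exact le_antisymm h1 zero_le
  have hD' : ((D.toNNReal : NNReal) : ℝ) = D := Real.coe_toNNReal D hD.le
  have h2 : ((D.toNNReal : NNReal) : ENNReal) ≤ dimH (F n) :=
    le_dimH_of_hausdorffMeasure_ne_zero (by rw [hD']; exact hne)
  exact h2.trans (dimH_mono (fun x hx => hx.1))

/-- exact dimension of homogeneous self-similar measures without exact overlaps -/
theorem exact_dim {lam : ℝ} {t p : A → ℝ} {μ : Measure ℝ} [IsProbabilityMeasure μ]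
    (h0 : lam ≠ 0) (h1 : |lam| < 1) (hfree : Free lam t) (hp : ∀ a, 0 < p a)
    (hp1 : ∑ a, p a = 1) (h : SR lam t p μ) :
    (∀ᵐ x ∂μ, Tendsto (fun r : ℝ => Real.log (μ.real (Metric.closedBall x r)) / Real.log r)
      (nhdsWithin 0 (Set.Ioi 0))
      (nhds (min 1 ((∑ a, Real.negMulLog (p a)) / Real.log (1 / |lam|))))) ∧
    ∀ E : Set ℝ, μ E ≠ 0 →
      ENNReal.ofReal (min 1 ((∑ a, Real.negMulLog (p a)) / Real.log (1 / |lam|))) ≤ dimH E := by
  classical
  set H : ℝ := ∑ a, Real.negMulLog (p a) with hH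
  set χ : ℝ := Real.log (1 / |lam|) with hχ
  have hab : 0 < |lam| := abs_pos.2 h0
  have hχ0 : 0 < χ := Real.log_pos (by rw [lt_div_iff₀ hab]; linarith)
  set D0 : ℝ := min 1 (H / χ) with hD0
  -- the second iterate
  have hl0 : 0 < lam ^ 2 := by positivity
  have hl1 : lam ^ 2 < 1 := by
    rw [← sq_abs]
    nlinarith
  have hfree2 : Free (lam ^ 2) (fun v : Fin 2 → A => XX lam t v) := fun k V W hVW =>
    XX_injective_block hfree 2 k V W hVW
  have hp2 : ∀ v : Fin 2 → A, 0 < pw p v := fun v => pw_pos hp v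
  have hs2 : ∑ v : Fin 2 → A, pw p v = 1 := sum_pw hp1 2
  have hSR2 := SR_iter h 2
  have hH2 : ∑ v : Fin 2 → A, Real.negMulLog (pw p v) = 2 * H := by
    have h3 := exp_add hp1 (fun a => -Real.log (p a)) 2
    have h4 : ∀ v : Fin 2 → A, Real.negMulLog (pw p v) = pw p v * ∑ i, -Real.log (p (v i)) := by
      intro v
      unfold Real.negMulLog pw
      rw [Real.log_prod (fun i _ => (hp _).ne'), Finset.sum_neg_distrib]
      ring
    rw [Finset.sum_congr rfl fun v _ => h4 v, h3]
    push_cast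
    congr 1
    refine Finset.sum_congr rfl fun a _ => ?_
    unfold Real.negMulLog
    ring
  have hχ2 : Real.log (1 / lam ^ 2) = 2 * χ := by
    rw [hχ, ← sq_abs, one_div, one_div, ← inv_pow, Real.log_pow]
    push_cast
    rfl
  have hmin : min (2 * H) (2 * χ) = 2 * χ * D0 := by
    rw [hD0, mul_min_of_nonneg _ _ (by positivity)]
    have : 2 * χ * (H / χ) = 2 * H := by field_simp
    rw [this, mul_one, min_comm]
  have hlow : ∀ D : ℝ, D < D0 → ∀ᵐ x ∂μ, ∀ᶠ r in nhdsWithin (0 : ℝ) (Set.Ioi 0),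
      μ.real (Metric.closedBall x r) ≤ r ^ D := by
    intro D hD
    refine local_lower hl0 hl1 hfree2 hp2 hs2 hSR2 ?_
    rw [hH2, hχ2, hmin]
    nlinarith
  have hup : ∀ D : ℝ, D0 < D → ∀ᵐ x ∂μ, ∀ᶠ r in nhdsWithin (0 : ℝ) (Set.Ioi 0),
      r ^ D ≤ μ.real (Metric.closedBall x r) := by
    intro D hD
    refine local_upper hl0 hl1 hp2 hs2 hSR2 ?_
    rw [hH2, hχ2, hmin]
    nlinarith
  constructor
  · have e1 : ∀ᵐ x ∂μ, ∀ n : ℕ, ∀ᶠ r in nhdsWithin (0 : ℝ) (Set.Ioi 0),
        μ.real (Metric.closedBall x r) ≤ r ^ (D0 - 1 / ((n : ℝ) + 1)) := by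
      rw [ae_all_iff]
      intro n
      apply hlow
      have : 0 < 1 / ((n : ℝ) + 1) := by positivity
      linarith
    have e2 : ∀ᵐ x ∂μ, ∀ n : ℕ, ∀ᶠ r in nhdsWithin (0 : ℝ) (Set.Ioi 0),
        r ^ (D0 + 1 / ((n : ℝ) + 1)) ≤ μ.real (Metric.closedBall x r) := by
      rw [ae_all_iff]
      intro n
      apply hup
      have : 0 < 1 / ((n : ℝ) + 1) := by positivity
      linarith
    have e3 : ∀ᶠ r : ℝ in nhdsWithin 0 (Set.Ioi 0), r < 1 :=
      (gt_mem_nhds one_pos).filter_mono nhdsWithin_le_nhds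
    filter_upwards [e1, e2] with x hx1 hx2
    rw [tendsto_order]
    constructor
    · intro a ha
      obtain ⟨n, hn⟩ := exists_nat_one_div_lt (sub_pos.2 ha)
      filter_upwards [hx1 n, hx2 0, e3, self_mem_nhdsWithin] with r q1 q2 q3 q4
      have hr : 0 < r := q4
      have hlr : Real.log r < 0 := Real.log_neg hr q3
      have hpos : 0 < μ.real (Metric.closedBall x r) := lt_of_lt_of_le (Real.rpow_pos_of_pos hr _) q2
      have h5 := Real.log_le_log hpos q1
      rw [Real.log_rpow hr] at h5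
      rw [lt_div_iff_of_neg hlr]
      have h6 : a < D0 - 1 / ((n : ℝ) + 1) := by linarith
      have h7 := mul_lt_mul_of_neg_right h6 hlr
      linarith
    · intro a ha
      obtain ⟨n, hn⟩ := exists_nat_one_div_lt (sub_pos.2 ha)
      filter_upwards [hx2 n, e3, self_mem_nhdsWithin] with r q2 q3 q4
      have hr : 0 < r := q4
      have hlr : Real.log r < 0 := Real.log_neg hr q3
      have h5 := Real.log_le_log (Real.rpow_pos_of_pos hr _) q2
      rw [Real.log_rpow hr] at h5
      rw [div_lt_iff_of_neg hlr]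
      have h6 : D0 + 1 / ((n : ℝ) + 1) < a := by linarith
      have h7 := mul_lt_mul_of_neg_right h6 hlr
      linarith
  · intro E hE
    rcases le_or_gt D0 0 with hneg | hpos
    · rw [ENNReal.ofReal_of_nonpos hneg]
      exact zero_le
    · have h3 : ∀ D : ℝ, 0 < D → D < D0 → ENNReal.ofReal D ≤ dimH E := fun D hD1 hD2 =>
        mass_dist hD1 hE (hlow D hD2)
      have hlim : Tendsto (fun D : ℝ => ENNReal.ofReal D) (nhdsWithin D0 (Set.Iio D0))
          (nhds (ENNReal.ofReal D0)) :=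
        (ENNReal.continuous_ofReal.tendsto D0).mono_left nhdsWithin_le_nhds
      refine le_of_tendsto hlim ?_
      have h4 : ∀ᶠ D : ℝ in nhdsWithin D0 (Set.Iio D0), 0 < D :=
        (lt_mem_nhds hpos).filter_mono nhdsWithin_le_nhds
      filter_upwards [h4, self_mem_nhdsWithin] with D hD1 hD2
      exact h3 D hD1 hD2

end fin

end Pool.Agent.Y293.EM
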