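import Mathlib

/-!
# A law of large numbers for functions along nested partitions (martingale differences)
-/

set_option autoImplicit false

open Finset Filter MeasureTheory

namespace Pool.Agent.Y293.EM

/-- children of a cell -/
noncomputable def ch (q : ℕ) (b : ℤ) : Finset ℤ := Finset.Ico (q * b) (q * b + q)

theorem mem_ch {q : ℕ} (hq : 1 ≤ q) (b c : ℤ) : c ∈ ch q b ↔ c / q = b := by
  have hq' : (0 : ℤ) < q := by exact_mod_cast hq
  unfold ch
  rw [Finset.mem_Ico]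
  constructor
  · rintro ⟨h1, h2⟩
    apply le_antisymm
    · rw [← Int.lt_add_one_iff, Int.ediv_lt_iff_lt_mul hq']
      nlinarith
    · rw [Int.le_ediv_iff_mul_le hq']
      nlinarith
  · rintro rfl
    have h1 := Int.emod_nonneg c hq'.ne'
    have h2 := Int.emod_lt_of_pos c hq'
    have h3 := Int.emod_add_mul_ediv c q
    constructor <;> linarith

theorem card_ch (q : ℕ) (b : ℤ) : (ch q b).card = q := by
  unfold ch
  rw [Int.card_Ico]
  simp

section lln

variable {X : Type*} [MeasurableSpace X] (ν : Measure X) [IsProbabilityMeasure ν]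

theorem int_fin {F : X → ℤ} (hF : Measurable F) {R : Finset ℤ} (hR : ∀ᵐ x ∂ν, F x ∈ R)
    (h : ℤ → ℝ) : Integrable (fun x => h (F x)) ν ∧
      ∫ x, h (F x) ∂ν = ∑ b ∈ R, ν.real {x | F x = b} * h b := by
  have hset : ∀ b, MeasurableSet {x | F x = b} := fun b => hF (measurableSet_singleton b)
  have h1 : (fun x => h (F x)) =ᵐ[ν]
      fun x => ∑ b ∈ R, {x | F x = b}.indicator (fun _ => h b) x := by
    filter_upwards [hR] with x hx
    rw [Finset.sum_eq_single (F x)]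
    · simp [Set.indicator]
    · intro b _ hb
      simp [Set.indicator, Ne.symm hb]
    · intro hn
      exact absurd hx hn
  have h2 : ∀ b ∈ R, Integrable ({x | F x = b}.indicator (fun _ => h b)) ν :=
    fun b _ => (integrable_const _).indicator (hset b)
  constructor
  · exact (integrable_finset_sum _ h2).congr h1.symm
  · rw [integral_congr_ae h1, integral_finset_sum _ h2]
    refine Finset.sum_congr rfl fun b _ => ?_
    rw [integral_indicator_const _ (hset b), smul_eq_mul]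

variable {ν}

theorem add_ch {q : ℕ} (hq : 1 ≤ q) {F G : X → ℤ} (hG : Measurable G)
    (hFG : ∀ x, F x = G x / q) (b : ℤ) :
    ν.real {x | F x = b} = ∑ c ∈ ch q b, ν.real {x | G x = c} := by
  have h1 : {x | F x = b} = ⋃ c ∈ ch q b, {x | G x = c} := by
    ext x
    simp only [Set.mem_setOf_eq, Set.mem_iUnion, exists_prop]
    rw [hFG]
    constructor
    · intro h
      exact ⟨G x, (mem_ch hq _ _).2 h, rfl⟩
    · rintro ⟨c, hc, h⟩
      rw [h]
      exact (mem_ch hq _ _).1 hc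
  rw [h1, measureReal_biUnion_finset]
  · intro c _ c' _ hcc
    exact Set.disjoint_left.2 fun x hx hx' => hcc (hx.symm.trans hx')
  · intro c _
    exact hG (measurableSet_singleton c)

theorem int_ch {q : ℕ} (hq : 1 ≤ q) {F G : X → ℤ} (hG : Measurable G)
    (hFG : ∀ x, F x = G x / q) {R : Finset ℤ} (hR : ∀ᵐ x ∂ν, F x ∈ R) (h : ℤ → ℝ) :
    Integrable (fun x => h (G x)) ν ∧
      ∫ x, h (G x) ∂ν = ∑ b ∈ R, ∑ c ∈ ch q b, ν.real {x | G x = c} * h c := by
  classical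
  have h1 : ∀ᵐ x ∂ν, G x ∈ R.biUnion (ch q) := by
    filter_upwards [hR] with x hx
    rw [Finset.mem_biUnion]
    exact ⟨F x, hx, (mem_ch hq _ _).2 (hFG x).symm⟩
  obtain ⟨h2, h3⟩ := int_fin ν hG h1 h
  refine ⟨h2, ?_⟩
  rw [h3, Finset.sum_biUnion]
  intro b _ b' _ hbb
  rw [Function.onFun, Finset.disjoint_left]
  intro c hc hc'
  exact hbb (((mem_ch hq _ _).1 hc).symm.trans ((mem_ch hq _ _).1 hc'))

theorem pos_cell {F : X → ℤ} : ∀ᵐ x ∂ν, 0 < ν.real {y | F y = F x} := by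
  have h1 : ν (⋃ b ∈ {b : ℤ | ν.real {y | F y = b} = 0}, {x | F x = b}) = 0 := by
    rw [measure_biUnion_null_iff (Set.to_countable _)]
    intro b hb
    rw [Set.mem_setOf_eq, measureReal_eq_zero_iff (measure_ne_top _ _)] at hb
    exact hb
  rw [← compl_mem_ae_iff] at h1
  filter_upwards [h1] with x hx
  refine lt_of_le_of_ne measureReal_nonneg (fun h => hx ?_)
  simp only [Set.mem_setOf_eq, Set.mem_iUnion, exists_prop]
  exact ⟨F x, h.symm, rfl⟩

theorem lln {q : ℕ} (hq : 1 ≤ q) {F : ℕ → X → ℤ} (hF : ∀ i, Measurable (F i))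
    (hpar : ∀ i x, F i x = F (i + 1) x / q) {R : ℕ → Finset ℤ} (hR : ∀ i, ∀ᵐ x ∂ν, F i x ∈ R i)
    {z : ℕ → ℤ → ℝ} {κ C : ℝ}
    (h1 : ∀ i b, κ * ν.real {x | F i x = b} ≤
      ∑ c ∈ ch q b, ν.real {x | F (i + 1) x = c} * z i c)
    (h2 : ∀ i b, ∑ c ∈ ch q b, ν.real {x | F (i + 1) x = c} * z i c ^ 2 ≤
      C * ν.real {x | F i x = b}) :
    ∀ᵐ x ∂ν, ∀ ε : ℝ, 0 < ε → ∀ᶠ l : ℕ in atTop,
      (κ - ε) * (l : ℝ) ^ 2 ≤ ∑ i ∈ Finset.range (l ^ 2), z i (F (i + 1) x) := by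
  classical
  set N : ℕ → ℤ → ℝ := fun i b => ν.real {x | F i x = b} with hN
  have hN0 : ∀ i b, 0 ≤ N i b := fun i b => measureReal_nonneg
  have hadd : ∀ i b, N i b = ∑ c ∈ ch q b, N (i + 1) c := fun i b =>
    add_ch hq (hF (i + 1)) (hpar i) b
  set a : ℕ → ℤ → ℝ := fun i b => (∑ c ∈ ch q b, N (i + 1) c * z i c) / N i b with ha
  let s : ℕ → ℤ → ℝ := fun k => Nat.rec (fun _ => 0)
    (fun k sk c => sk (c / q) + (z k c - a k (c / q))) k
  have hs0 : ∀ c, s 0 c = 0 := fun c => rfl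
  have hss : ∀ k c, s (k + 1) c = s k (c / q) + (z k c - a k (c / q)) := fun k c => rfl
  have hsum : ∀ k x, s k (F k x) =
      ∑ i ∈ Finset.range k, (z i (F (i + 1) x) - a i (F i x)) := by
    intro k x
    induction k with
    | zero => simp [hs0]
    | succ k ih =>
      rw [hss, Finset.sum_range_succ, ← hpar k x, ih]
  have hcz : ∀ i b c, N i b = 0 → c ∈ ch q b → N (i + 1) c = 0 := by
    intro i b c h hc
    rw [hadd] at h
    exact (Finset.sum_eq_zero_iff_of_nonneg (fun c _ => hN0 _ c)).1 h c hc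
  have haN : ∀ i b, a i b * N i b = ∑ c ∈ ch q b, N (i + 1) c * z i c := by
    intro i b
    by_cases h : N i b = 0
    · rw [h, mul_zero]
      symm
      apply Finset.sum_eq_zero
      intro c hc
      rw [hcz i b c h hc, zero_mul]
    · simp only [ha]
      rw [div_mul_cancel₀ _ h]
  -- second moments
  set E : ℕ → ℝ := fun k => ∫ x, (s k (F k x)) ^ 2 ∂ν with hE
  have hEval : ∀ k, E k = ∑ b ∈ R k, N k b * s k b ^ 2 := fun k =>
    (int_fin ν (hF k) (hR k) (fun b => s k b ^ 2)).2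
  have hone : ∀ k, ∑ b ∈ R k, N k b = 1 := by
    intro k
    have := (int_fin ν (hF k) (hR k) (fun _ => 1)).2
    simp only [integral_const, mul_one, smul_eq_mul, probReal_univ] at this
    exact this.symm
  have hEstep : ∀ k, E (k + 1) ≤ E k + C := by
    intro k
    have e1 : E (k + 1) = ∑ b ∈ R k, ∑ c ∈ ch q b, N (k + 1) c * s (k + 1) c ^ 2 :=
      (int_ch hq (hF (k + 1)) (hpar k) (hR k) (fun c => s (k + 1) c ^ 2)).2
    have e2 : ∀ b, ∑ c ∈ ch q b, N (k + 1) c * s (k + 1) c ^ 2 ≤ N k b * s k b ^ 2 + C * N k b := by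
      intro b
      have e3 : ∀ c ∈ ch q b, N (k + 1) c * s (k + 1) c ^ 2 =
          (s k b ^ 2 - 2 * s k b * a k b + a k b ^ 2) * N (k + 1) c +
          (2 * s k b - 2 * a k b) * (N (k + 1) c * z k c) + N (k + 1) c * z k c ^ 2 := by
        intro c hc
        rw [hss, (mem_ch hq _ _).1 hc]
        ring
      rw [Finset.sum_congr rfl e3, Finset.sum_add_distrib, Finset.sum_add_distrib,
        ← Finset.mul_sum, ← Finset.mul_sum, ← hadd, ← haN]
      have e4 := h2 k b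
      have e5 : 0 ≤ a k b ^ 2 * N k b := mul_nonneg (sq_nonneg _) (hN0 _ _)
      have e6 : (s k b ^ 2 - 2 * s k b * a k b + a k b ^ 2) * N k b +
          (2 * s k b - 2 * a k b) * (a k b * N k b) =
          N k b * s k b ^ 2 - a k b ^ 2 * N k b := by ring
      have e7 : ∑ c ∈ ch q b, N (k + 1) c * z k c ^ 2 ≤ C * N k b := e4
      linarith
    rw [e1, hEval k]
    refine (Finset.sum_le_sum fun b _ => e2 b).trans (le_of_eq ?_)
    rw [Finset.sum_add_distrib, ← Finset.mul_sum, hone, mul_one]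
  have hEk : ∀ k : ℕ, E k ≤ C * k := by
    intro k
    induction k with
    | zero => simp [hE, hs0]
    | succ k ih =>
      have := hEstep k
      push_cast
      linarith
  have hC : 0 ≤ C := by
    have h3 := hEk 1
    have h4 : 0 ≤ E 1 := integral_nonneg fun x => sq_nonneg _
    simp at h3
    linarith
  -- Chebyshev
  have hcheb : ∀ (ε : ℝ), 0 < ε → ∀ l : ℕ,
      ν.real {x | s (l ^ 2) (F (l ^ 2) x) ≤ -(ε * (l : ℝ) ^ 2) ∧ 1 ≤ l} ≤
        (4 * C / ε ^ 2) * (1 / ((l : ℝ) + 1) ^ 2) := by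
    intro ε hε l
    by_cases hl : 1 ≤ l
    · have hl0 : (1 : ℝ) ≤ l := by exact_mod_cast hl
      have e1 := mul_meas_ge_le_integral_of_nonneg (μ := ν)
        (f := fun x => (s (l ^ 2) (F (l ^ 2) x)) ^ 2) (ae_of_all _ fun x => sq_nonneg _)
        (int_fin ν (hF _) (hR _) (fun b => s (l ^ 2) b ^ 2)).1 ((ε * (l : ℝ) ^ 2) ^ 2)
      have e2 : ν.real {x | s (l ^ 2) (F (l ^ 2) x) ≤ -(ε * (l : ℝ) ^ 2) ∧ 1 ≤ l} ≤
          ν.real {x | (ε * (l : ℝ) ^ 2) ^ 2 ≤ (s (l ^ 2) (F (l ^ 2) x)) ^ 2} := by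
        apply measureReal_mono _ (measure_ne_top _ _)
        rintro x ⟨hx, -⟩
        simp only [Set.mem_setOf_eq]
        have h3 : 0 ≤ ε * (l : ℝ) ^ 2 := by positivity
        nlinarith
      have e3 := hEk (l ^ 2)
      push_cast at e3
      have e4 : (ε * (l : ℝ) ^ 2) ^ 2 *
          ν.real {x | s (l ^ 2) (F (l ^ 2) x) ≤ -(ε * (l : ℝ) ^ 2) ∧ 1 ≤ l} ≤ C * (l : ℝ) ^ 2 := by
        refine (mul_le_mul_of_nonneg_left e2 (sq_nonneg _)).trans (e1.trans e3)
      set P := ν.real {x | s (l ^ 2) (F (l ^ 2) x) ≤ -(ε * (l : ℝ) ^ 2) ∧ 1 ≤ l} with hP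
      have hP0 : 0 ≤ P := measureReal_nonneg
      have e5 : ε ^ 2 * (l : ℝ) ^ 2 * P ≤ C := by
        have h6 : 0 < (l : ℝ) ^ 2 := by positivity
        have h7 : (l : ℝ) ^ 2 * (ε ^ 2 * (l : ℝ) ^ 2 * P) ≤ (l : ℝ) ^ 2 * C := by nlinarith
        exact le_of_mul_le_mul_left h7 h6
      have e6 : ((l : ℝ) + 1) ^ 2 ≤ 4 * (l : ℝ) ^ 2 := by nlinarith
      rw [div_mul_div_comm, mul_one, le_div_iff₀ (by positivity)]
      calc P * (ε ^ 2 * ((l : ℝ) + 1) ^ 2) ≤ P * (ε ^ 2 * (4 * (l : ℝ) ^ 2)) := by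
            apply mul_le_mul_of_nonneg_left _ hP0
            exact mul_le_mul_of_nonneg_left e6 (sq_nonneg _)
        _ = 4 * (ε ^ 2 * (l : ℝ) ^ 2 * P) := by ring
        _ ≤ 4 * C := by linarith
    · have : {x | s (l ^ 2) (F (l ^ 2) x) ≤ -(ε * (l : ℝ) ^ 2) ∧ 1 ≤ l} = ∅ := by
        ext x
        simp [hl]
      rw [this, measureReal_empty]
      positivity
  have hBC : ∀ (ε : ℝ), 0 < ε → ∀ᵐ x ∂ν, ∀ᶠ l : ℕ in atTop,
      -(ε * (l : ℝ) ^ 2) ≤ s (l ^ 2) (F (l ^ 2) x) := by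
    intro ε hε
    have hsummable : Summable (fun l : ℕ => (4 * C / ε ^ 2) * (1 / ((l : ℝ) + 1) ^ 2)) := by
      apply Summable.mul_left
      have h3 := (summable_nat_add_iff 1).2 (Real.summable_one_div_nat_pow.2 (one_lt_two))
      simpa using h3
    have hne : ∑' l : ℕ, ν {x | s (l ^ 2) (F (l ^ 2) x) ≤ -(ε * (l : ℝ) ^ 2) ∧ 1 ≤ l} ≠ ⊤ := by
      refine ne_top_of_le_ne_top hsummable.tsum_ofReal_ne_top (ENNReal.tsum_le_tsum fun l => ?_)
      rw [← ofReal_measureReal (measure_ne_top _ _)]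
      exact ENNReal.ofReal_le_ofReal (hcheb ε hε l)
    filter_upwards [ae_eventually_notMem hne] with x hx
    filter_upwards [hx, eventually_ge_atTop 1] with l hl hl1
    by_contra h3
    exact hl ⟨(not_le.1 h3).le, hl1⟩
  have hBC' : ∀ᵐ x ∂ν, ∀ m : ℕ, ∀ᶠ l : ℕ in atTop,
      -((1 / ((m : ℝ) + 1)) * (l : ℝ) ^ 2) ≤ s (l ^ 2) (F (l ^ 2) x) :=
    ae_all_iff.2 fun m => hBC _ (by positivity)
  have hpos : ∀ᵐ x ∂ν, ∀ i, 0 < N i (F i x) := ae_all_iff.2 fun i => pos_cell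
  filter_upwards [hBC', hpos] with x hx hxp ε hε
  obtain ⟨m, hm⟩ := exists_nat_one_div_lt hε
  filter_upwards [hx m] with l hl
  rw [hsum, Finset.sum_sub_distrib] at hl
  have h3 : κ * (l : ℝ) ^ 2 ≤ ∑ i ∈ Finset.range (l ^ 2), a i (F i x) := by
    have h4 : ∀ i ∈ Finset.range (l ^ 2), κ ≤ a i (F i x) := by
      intro i _
      simp only [ha]
      rw [le_div_iff₀ (hxp i)]
      exact h1 i _
    have h5 := Finset.card_nsmul_le_sum _ _ _ h4
    rw [Finset.card_range, nsmul_eq_mul] at h5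
    push_cast at h5
    linarith
  have h4 : (1 / ((m : ℝ) + 1)) * (l : ℝ) ^ 2 ≤ ε * (l : ℝ) ^ 2 :=
    mul_le_mul_of_nonneg_right hm.le (sq_nonneg _)
  nlinarith

end lln

end Pool.Agent.Y293.EM
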