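import Pool.Agent.Y293.EM.Cells

/-!
# Lower bound of the local dimension
-/

set_option autoImplicit false

open Finset Filter MeasureTheory

namespace Pool.Agent.Y293.EM

open H517.EO

section fill

theorem quad {a b e : ℝ} (ha : 0 ≤ a) (hab : a < b) :
    ∀ᶠ l : ℕ in atTop, a * ((l : ℝ) + 1) ^ 2 + e ≤ b * (l : ℝ) ^ 2 := by
  have h1 : ∀ᶠ l : ℕ in atTop, (3 * a + |e|) / (b - a) ≤ (l : ℝ) :=
    tendsto_natCast_atTop_atTop.eventually_ge_atTop _
  filter_upwards [h1, eventually_ge_atTop 1] with l hl hl1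
  have hba : 0 < b - a := by linarith
  rw [div_le_iff₀ hba] at hl
  have hl1' : (1 : ℝ) ≤ l := by exact_mod_cast hl1
  have h2 : (3 * a + |e|) * l ≤ l * (b - a) * l := mul_le_mul_of_nonneg_right hl (by linarith)
  have h3 : e ≤ |e| * l := by nlinarith [le_abs_self e, abs_nonneg e]
  nlinarith

theorem floor_sqrt_bounds {y : ℝ} (hy : 0 ≤ y) :
    ((⌊Real.sqrt y⌋₊ : ℝ)) ^ 2 ≤ y ∧ y < ((⌊Real.sqrt y⌋₊ : ℝ) + 1) ^ 2 := by
  have h1 := Nat.floor_le (Real.sqrt_nonneg y)
  have h2 := Nat.lt_floor_add_one (Real.sqrt y)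
  have h3 := Real.sq_sqrt hy
  constructor
  · calc ((⌊Real.sqrt y⌋₊ : ℝ)) ^ 2 ≤ (Real.sqrt y) ^ 2 :=
          pow_le_pow_left₀ (Nat.cast_nonneg _) h1 2
      _ = y := h3
  · calc y = (Real.sqrt y) ^ 2 := h3.symm
      _ < _ := pow_lt_pow_left₀ h2 (Real.sqrt_nonneg _) (by norm_num)

theorem tendsto_level {L C0 : ℝ} (hL : 0 < L) (hC : 0 < C0) :
    Tendsto (fun r : ℝ => ⌊Real.sqrt ((-Real.log (r / C0)) / L)⌋₊) (nhdsWithin 0 (Set.Ioi 0))
      atTop := by
  apply tendsto_nat_floor_atTop.comp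
  apply Real.tendsto_sqrt_atTop.comp
  apply Tendsto.atTop_div_const hL
  apply tendsto_neg_atBot_atTop.comp
  apply Real.tendsto_log_nhdsGT_zero.comp
  rw [tendsto_nhdsWithin_iff]
  constructor
  · have : Tendsto (fun r : ℝ => r / C0) (nhds 0) (nhds (0 / C0)) := tendsto_id.div_const C0
    rw [zero_div] at this
    exact this.mono_left nhdsWithin_le_nhds
  · filter_upwards [self_mem_nhdsWithin] with r hr
    exact div_pos hr hC

theorem fill_lower {g : ℝ → ℝ} (hg : Monotone g) {β c D : ℝ} (hβ : 1 < β) (hD : 0 ≤ D)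
    (hc : D * Real.log β < c)
    (h : ∀ᶠ l : ℕ in atTop, g ((β ^ (l ^ 2))⁻¹) ≤ Real.exp (-(c * (l : ℝ) ^ 2))) :
    ∀ᶠ r in nhdsWithin (0 : ℝ) (Set.Ioi 0), g r ≤ r ^ D := by
  have hL : 0 < Real.log β := Real.log_pos hβ
  have hβ0 : 0 < β := by linarith
  have h1 := (tendsto_level hL one_pos).eventually h
  have h2 := (tendsto_level hL one_pos).eventually
    (quad (e := 0) (mul_nonneg hD hL.le) hc)
  have h3 : ∀ᶠ r : ℝ in nhdsWithin 0 (Set.Ioi 0), r < 1 :=
    (gt_mem_nhds one_pos).filter_mono nhdsWithin_le_nhds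
  filter_upwards [h1, h2, h3, self_mem_nhdsWithin] with r h1 h2 h3 h4
  have hr : 0 < r := h4
  rw [div_one] at h1 h2
  set y : ℝ := (-Real.log r) / Real.log β with hy
  have hlr : Real.log r < 0 := Real.log_neg hr h3
  have hy0 : 0 ≤ y := div_nonneg (by linarith) hL.le
  obtain ⟨e1, e2⟩ := floor_sqrt_bounds hy0
  set l := ⌊Real.sqrt y⌋₊ with hl
  have hyL : y * Real.log β = -Real.log r := div_mul_cancel₀ _ hL.ne'
  have e3 : r ≤ (β ^ (l ^ 2))⁻¹ := by
    have h5 : (β ^ (l ^ 2))⁻¹ = Real.exp (-((l : ℝ) ^ 2 * Real.log β)) := by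
      rw [Real.exp_neg, mul_comm, Real.exp_mul, Real.exp_log hβ0]
      congr 1
      rw [← Real.rpow_natCast]
      push_cast
      rfl
    rw [h5, ← Real.exp_log hr]
    apply Real.exp_le_exp.2
    have h6 := mul_le_mul_of_nonneg_right e1 hL.le
    linarith
  refine (hg e3).trans (h1.trans ?_)
  rw [Real.rpow_def_of_pos hr]
  apply Real.exp_le_exp.2
  have h7 : D * (-Real.log r) ≤ D * Real.log β * ((l : ℝ) + 1) ^ 2 := by
    rw [← hyL]
    have h8 := mul_le_mul_of_nonneg_left e2.le (mul_nonneg hD hL.le)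
    linarith
  linarith

theorem fill_upper {g : ℝ → ℝ} (hg : Monotone g) {β c D C0 : ℝ} (hβ : 1 < β) (hC0 : 0 < C0)
    (hc0 : 0 ≤ c) (hc : c < D * Real.log β)
    (h : ∀ᶠ l : ℕ in atTop, Real.exp (-(c * (l : ℝ) ^ 2)) ≤ g (C0 * (β ^ (l ^ 2))⁻¹)) :
    ∀ᶠ r in nhdsWithin (0 : ℝ) (Set.Ioi 0), r ^ D ≤ g r := by
  have hL : 0 < Real.log β := Real.log_pos hβ
  have hβ0 : 0 < β := by linarith
  have hD : 0 ≤ D := by
    by_contra hn
    have : D * Real.log β < 0 := mul_neg_of_neg_of_pos (not_le.1 hn) hL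
    linarith
  have h' : ∀ᶠ l : ℕ in atTop, Real.exp (-(c * ((l : ℝ) + 1) ^ 2)) ≤
      g (C0 * (β ^ ((l + 1) ^ 2))⁻¹) := by
    have h5 := (tendsto_add_atTop_nat 1).eventually h
    filter_upwards [h5] with l hl
    push_cast at hl
    exact hl
  have h1 := (tendsto_level hL hC0).eventually h'
  have h2 := (tendsto_level hL hC0).eventually
    (quad (e := D * Real.log C0) hc0 hc)
  have h3 : ∀ᶠ r : ℝ in nhdsWithin 0 (Set.Ioi 0), r < C0 :=
    (gt_mem_nhds hC0).filter_mono nhdsWithin_le_nhds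
  filter_upwards [h1, h2, h3, self_mem_nhdsWithin] with r h1 h2 h3 h4
  have hr : 0 < r := h4
  have hrC : 0 < r / C0 := div_pos hr hC0
  set y : ℝ := (-Real.log (r / C0)) / Real.log β with hy
  have hlr : Real.log (r / C0) < 0 := Real.log_neg hrC (by rw [div_lt_one hC0]; exact h3)
  have hy0 : 0 ≤ y := div_nonneg (by linarith) hL.le
  obtain ⟨e1, e2⟩ := floor_sqrt_bounds hy0
  set l := ⌊Real.sqrt y⌋₊ with hl
  have hyL : y * Real.log β = -Real.log (r / C0) := div_mul_cancel₀ _ hL.ne'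
  have e3 : C0 * (β ^ ((l + 1) ^ 2))⁻¹ ≤ r := by
    have h5 : (β ^ ((l + 1) ^ 2))⁻¹ = Real.exp (-(((l : ℝ) + 1) ^ 2 * Real.log β)) := by
      rw [Real.exp_neg, mul_comm, Real.exp_mul, Real.exp_log hβ0]
      congr 1
      rw [← Real.rpow_natCast]
      push_cast
      rfl
    have h6 : (β ^ ((l + 1) ^ 2))⁻¹ ≤ r / C0 := by
      rw [h5, ← Real.exp_log hrC]
      apply Real.exp_le_exp.2
      have h6 := mul_lt_mul_of_pos_right e2 hL
      linarith
    calc C0 * (β ^ ((l + 1) ^ 2))⁻¹ ≤ C0 * (r / C0) := mul_le_mul_of_nonneg_left h6 hC0.le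
      _ = r := by field_simp
  refine le_trans ?_ (h1.trans (hg e3))
  rw [Real.rpow_def_of_pos hr]
  apply Real.exp_le_exp.2
  have h7 : Real.log r = Real.log (r / C0) + Real.log C0 := by
    rw [Real.log_div hr.ne' hC0.ne']
    ring
  have h8 : D * Real.log β * (l : ℝ) ^ 2 ≤ D * (-Real.log (r / C0)) := by
    rw [← hyL]
    have h8 := mul_le_mul_of_nonneg_left e1 (mul_nonneg hD hL.le)
    linarith
  rw [h7]
  linarith

end fill

section neigh

variable {X : Type*} [MeasurableSpace X] {ν : Measure X} [IsProbabilityMeasure ν]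

theorem neigh {F : ℕ → X → ℤ} (hF : ∀ i, Measurable (F i)) {R : ℕ → Finset ℤ}
    (hR : ∀ i, ∀ᵐ x ∂ν, F i x ∈ R i) (s : ℤ) (δ : ℝ) (hδ : 0 < δ) :
    ∀ᵐ x ∂ν, ∀ᶠ l : ℕ in atTop, ν.real {y | F (l ^ 2) y = F (l ^ 2) x + s} ≤
      Real.exp (δ * (l : ℝ) ^ 2) * ν.real {y | F (l ^ 2) y = F (l ^ 2) x} := by
  classical
  have hbad : ∀ k : ℕ, ν.real {x | Real.exp (δ * k) * ν.real {y | F k y = F k x} <
      ν.real {y | F k y = F k x + s}} ≤ Real.exp (-(δ * k)) := by
    intro k
    set N : ℤ → ℝ := fun b => ν.real {y | F k y = b} with hN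
    have hset : ∀ b, MeasurableSet {y | F k y = b} := fun b => hF k (measurableSet_singleton b)
    obtain ⟨-, h2⟩ := int_fin ν (hF k) (hR k)
      (fun b => if Real.exp (δ * k) * N b < N (b + s) then 1 else 0)
    have h3 : ν.real {x | Real.exp (δ * k) * N (F k x) < N (F k x + s)} =
        ∫ x, (if Real.exp (δ * k) * N (F k x) < N (F k x + s) then (1 : ℝ) else 0) ∂ν := by
      have hm : MeasurableSet {x | Real.exp (δ * k) * N (F k x) < N (F k x + s)} := by
        have : {x | Real.exp (δ * k) * N (F k x) < N (F k x + s)} =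
            F k ⁻¹' {b | Real.exp (δ * k) * N b < N (b + s)} := rfl
        rw [this]
        exact hF k (Set.to_countable _).measurableSet
      rw [← integral_indicator_one hm]
      refine integral_congr_ae (ae_of_all _ fun x => ?_)
      simp [Set.indicator]
    rw [h3, h2]
    have h4 : ∀ b ∈ R k, ν.real {x | F k x = b} *
        (if Real.exp (δ * k) * N b < N (b + s) then 1 else 0) ≤
        Real.exp (-(δ * k)) * ν.real {x | F k x = b + s} := by
      intro b _
      split_ifs with hb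
      · rw [mul_one]
        have h5 := mul_le_mul_of_nonneg_left hb.le (Real.exp_pos (-(δ * k))).le
        rw [← mul_assoc, ← Real.exp_add, neg_add_cancel, Real.exp_zero, one_mul] at h5
        exact h5
      · rw [mul_zero]
        exact mul_nonneg (Real.exp_pos _).le measureReal_nonneg
    refine (Finset.sum_le_sum h4).trans ?_
    rw [← Finset.mul_sum]
    have h5 : ∑ b ∈ R k, ν.real {x | F k x = b + s} ≤ 1 := by
      rw [← measureReal_biUnion_finset]
      · exact measureReal_le_one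
      · intro b _ b' _ hbb
        exact Set.disjoint_left.2 fun y (hy : F k y = b + s) (hy' : F k y = b' + s) =>
          hbb (add_right_cancel (hy.symm.trans hy'))
      · intro b _
        exact hset (b + s)
    have := mul_le_mul_of_nonneg_left h5 (Real.exp_pos (-(δ * k))).le
    linarith
  have hsummable : Summable (fun l : ℕ => Real.exp (-δ) ^ l) :=
    summable_geometric_of_lt_one (Real.exp_pos _).le (by rw [Real.exp_lt_one_iff]; linarith)
  have hne : ∑' l : ℕ, ν {x | Real.exp (δ * ((l ^ 2 : ℕ) : ℝ)) * ν.real {y | F (l ^ 2) y = F (l ^ 2) x} <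
      ν.real {y | F (l ^ 2) y = F (l ^ 2) x + s}} ≠ ⊤ := by
    refine ne_top_of_le_ne_top hsummable.tsum_ofReal_ne_top (ENNReal.tsum_le_tsum fun l => ?_)
    rw [← ofReal_measureReal (measure_ne_top _ _)]
    apply ENNReal.ofReal_le_ofReal
    refine (hbad (l ^ 2)).trans ?_
    rw [← Real.exp_nat_mul]
    apply Real.exp_le_exp.2
    push_cast
    have h1 : (l : ℝ) ≤ (l : ℝ) ^ 2 := by
      rcases Nat.eq_zero_or_pos l with h | h
      · rw [h]; simp
      · have : (1 : ℝ) ≤ l := by exact_mod_cast h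
        nlinarith
    nlinarith
  filter_upwards [ae_eventually_notMem hne] with x hx
  filter_upwards [hx] with l hl
  have := not_lt.1 hl
  push_cast at this
  exact this

end neigh

end Pool.Agent.Y293.EM
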