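import Pool.Agent.Y293.EM.Loc

/-!
# Lower bound of the local dimension of a self-similar measure
-/

set_option autoImplicit false

open Finset Filter MeasureTheory

namespace Pool.Agent.Y293.EM

open H517.EO

section low

variable {A : Type} [Fintype A] [DecidableEq A]

/-- second moment of the information of the children -/
theorem sq_cell {μ : Measure ℝ} [IsProbabilityMeasure μ] {q q' : ℕ} (hq1 : 1 ≤ q) {K : ℝ}
    (u : ℝ) (i : ℕ) (b : ℤ) :
    ∑ c ∈ ch q b, μ.real {x | Fc q u (i + 1) x = c} *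
        (Real.log (μ.real {x | Fc q u i x = c / q} / μ.real {x | Fc q u (i + 1) x = c}) +
          K * (@ite ℝ (zn q q' c) (Classical.dec _) 1 0)) ^ 2 ≤
      (8 * q + 2 * K ^ 2) * μ.real {x | Fc q u i x = b} := by
  classical
  have hpar : ∀ y, Fc q u i y = Fc q u (i + 1) y / q := fun y => floor_par hq1 i (y + u)
  have hadd := add_ch (ν := μ) hq1 (Fc_meas q u (i + 1)) hpar b
  set Nb := μ.real {x | Fc q u i x = b} with hNb
  have hNb0 : 0 ≤ Nb := measureReal_nonneg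
  have hone : ∀ c ∈ ch q b, μ.real {x | Fc q u (i + 1) x = c} *
        (Real.log (μ.real {x | Fc q u i x = c / q} / μ.real {x | Fc q u (i + 1) x = c}) +
          K * (@ite ℝ (zn q q' c) (Classical.dec _) 1 0)) ^ 2 ≤
      8 * Nb + 2 * K ^ 2 * μ.real {x | Fc q u (i + 1) x = c} := by
    intro c hc
    rw [(mem_ch hq1 _ _).1 hc, ← hNb]
    set Nc := μ.real {x | Fc q u (i + 1) x = c} with hNc
    have hNc0 : 0 ≤ Nc := measureReal_nonneg
    have hle : Nc ≤ Nb := by
      rw [hadd]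
      exact Finset.single_le_sum (f := fun c => μ.real {x | Fc q u (i + 1) x = c})
        (fun c _ => measureReal_nonneg) hc
    have h1 : Nc * Real.log (Nb / Nc) ^ 2 ≤ 4 * Nb := by
      rcases hNc0.eq_or_lt with h | h
      · rw [← h, zero_mul]; positivity
      · have hb : 0 < Nb := lt_of_lt_of_le h hle
        have h2 := sq_info (div_pos h hb) (by rw [div_le_one hb]; exact hle)
        have h3 : 1 / (Nc / Nb) = Nb / Nc := by field_simp
        rw [h3] at h2
        have h4 := mul_le_mul_of_nonneg_left h2 hb.le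
        have h5 : Nb * (Nc / Nb * Real.log (Nb / Nc) ^ 2) = Nc * Real.log (Nb / Nc) ^ 2 := by
          field_simp
        rw [h5] at h4
        linarith
    set I := Real.log (Nb / Nc) with hI
    have h2 : (I + K * (@ite ℝ (zn q q' c) (Classical.dec _) 1 0)) ^ 2 ≤ 2 * I ^ 2 + 2 * K ^ 2 := by
      split_ifs
      · nlinarith [sq_nonneg (I - K)]
      · nlinarith [sq_nonneg I, sq_nonneg K]
    have h3 := mul_le_mul_of_nonneg_left h2 hNc0
    nlinarith
  refine (Finset.sum_le_sum hone).trans (le_of_eq ?_)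
  have e1 : ∑ c ∈ ch q b, 2 * K ^ 2 * μ.real {x | Fc q u (i + 1) x = c} =
      2 * K ^ 2 * ∑ c ∈ ch q b, μ.real {x | Fc q u (i + 1) x = c} := by rw [Finset.mul_sum]
  rw [Finset.sum_add_distrib, e1, ← hadd, Finset.sum_const, card_ch, nsmul_eq_mul]
  ring

/-- decay of the measure of the cells along squares -/
theorem cell_decay {lam M K : ℝ} {t p : A → ℝ} {μ : Measure ℝ} [IsProbabilityMeasure μ]
    (hl0 : 0 < lam) (hl1 : lam < 1) (hp : ∀ a, 0 ≤ p a) (hp1 : ∑ a, p a = 1)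
    (h : SR lam t p μ) (hM : ∀ a, |t a| ≤ M * (1 - lam)) (hM1 : 1 ≤ M)
    {N q q' S : ℕ} (hq' : 1 ≤ q') (hS : 1 ≤ S) (hq : q = S * q')
    (hqN : 2 * M ≤ q' * lam ^ (N + 1)) (hK0 : 0 ≤ K)
    (hK : ∀ (η s : ℝ) (T : Finset ℤ), 0 < η → η ≤ lam ^ N →
      (∀ x ∈ Set.Icc (-M) M, ⌊x / η + s⌋ ∈ T) →
      K ≤ ∑ b ∈ T, Real.negMulLog (μ.real {x : ℝ | ⌊x / η + s⌋ = b}))
    (κ : ℝ) (hκ : κ < K * (1 - 2 / S)) :
    ∀ᵐ x ∂μ, ∀ᶠ l : ℕ in atTop,
      μ.real (Metric.closedBall x (((q : ℝ) ^ (l ^ 2))⁻¹)) ≤ Real.exp (-(κ * (l : ℝ) ^ 2)) := by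
  classical
  have hq1 : 1 ≤ q := by rw [hq]; exact Nat.mul_pos hS hq'
  have hq0 : (0 : ℝ) < q := by exact_mod_cast hq1
  obtain ⟨u, hu⟩ := exists_shift hq' hS hq μ
  have hsupp := SR_supp hl0 hl1 hp hp1 h hM
  have hpar : ∀ i y, Fc q u i y = Fc q u (i + 1) y / q := fun i y => floor_par hq1 i (y + u)
  set R : ℕ → Finset ℤ := fun i => Finset.Icc ⌊(q : ℝ) ^ i * (-M + u)⌋ ⌊(q : ℝ) ^ i * (M + u)⌋
    with hR
  have hqi : ∀ i : ℕ, (0 : ℝ) < (q : ℝ) ^ i := fun i => pow_pos hq0 i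
  have hRae : ∀ i, ∀ᵐ x ∂μ, Fc q u i x ∈ R i := by
    intro i
    filter_upwards [hsupp] with x hx
    simp only [hR, Finset.mem_Icc, Fc]
    constructor
    · apply Int.floor_le_floor
      exact mul_le_mul_of_nonneg_left (by linarith [hx.1]) (hqi i).le
    · apply Int.floor_le_floor
      exact mul_le_mul_of_nonneg_left (by linarith [hx.2]) (hqi i).le
  have hlln := lln (ν := μ) hq1 (F := fun i => Fc q u i) (fun i => Fc_meas q u i) hpar hRae
    (z := fun i c => Real.log (μ.real {x | Fc q u i x = c / q} /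
      μ.real {x | Fc q u (i + 1) x = c}) + K * (@ite ℝ (zn q q' c) (Classical.dec _) 1 0))
    (κ := K) (C := 8 * q + 2 * K ^ 2)
    (fun i b => cell_ineq hl0 hl1 hp hp1 h hM hM1 hq' hS hq hqN hK0 hK u i b)
    (fun i b => sq_cell hq1 u i b)
  have hpos : ∀ᵐ x ∂μ, ∀ i, 0 < μ.real {y | Fc q u i y = Fc q u i x} :=
    ae_all_iff.2 fun i => pos_cell
  -- parameters
  set g : ℝ := K * (1 - 2 / S) - κ with hg
  have hg0 : 0 < g := by linarith
  set ε : ℝ := g / (4 * (1 + K)) with hε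
  have hε0 : 0 < ε := by positivity
  have hεK : ε * (1 + K) = g / 4 := by rw [hε]; field_simp
  have hn1 := neigh (ν := μ) (F := fun i => Fc q u i) (fun i => Fc_meas q u i) hRae 1 (g / 4)
    (by linarith)
  have hn2 := neigh (ν := μ) (F := fun i => Fc q u i) (fun i => Fc_meas q u i) hRae (-1) (g / 4)
    (by linarith)
  filter_upwards [hu, hlln, hpos, hn1, hn2] with x hxu hxl hxp hx1 hx2
  filter_upwards [hxu ε hε0, hxl ε hε0, hx1, hx2, quad (a := 0) (b := g / 4) (e := Real.log 3)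
    le_rfl (by linarith)] with l e1 e2 e3 e4 e5
  have htel : ∑ i ∈ Finset.range (l ^ 2), Real.log (μ.real {y | Fc q u i y = Fc q u i x} /
      μ.real {y | Fc q u (i + 1) y = Fc q u (i + 1) x}) =
      Real.log (μ.real {y | Fc q u 0 y = Fc q u 0 x}) -
      Real.log (μ.real {y | Fc q u (l ^ 2) y = Fc q u (l ^ 2) x}) := by
    rw [← Finset.sum_range_sub' (fun i => Real.log (μ.real {y | Fc q u i y = Fc q u i x}))]
    refine Finset.sum_congr rfl fun i _ => ?_
    rw [Real.log_div (hxp i).ne' (hxp (i + 1)).ne']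
  have e6 : ∑ i ∈ Finset.range (l ^ 2), (Real.log (μ.real {y | Fc q u i y = Fc q u (i + 1) x / q} /
      μ.real {y | Fc q u (i + 1) y = Fc q u (i + 1) x}) +
        K * (@ite ℝ (zn q q' (Fc q u (i + 1) x)) (Classical.dec _) 1 0)) =
      Real.log (μ.real {y | Fc q u 0 y = Fc q u 0 x}) -
      Real.log (μ.real {y | Fc q u (l ^ 2) y = Fc q u (l ^ 2) x}) +
      K * ∑ i ∈ Finset.range (l ^ 2),
        (@ite ℝ (zn q q' ⌊(q : ℝ) ^ (i + 1) * (x + u)⌋) (Classical.dec _) 1 0) := by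
    rw [Finset.sum_add_distrib, ← Finset.mul_sum, ← htel]
    congr 1
    refine Finset.sum_congr rfl fun i _ => ?_
    rw [← hpar i x]
  rw [e6] at e2
  have hN0 : Real.log (μ.real {y | Fc q u 0 y = Fc q u 0 x}) ≤ 0 :=
    Real.log_nonpos measureReal_nonneg measureReal_le_one
  set m : ℝ := μ.real {y | Fc q u (l ^ 2) y = Fc q u (l ^ 2) x} with hm
  have hm0 : 0 < m := hxp (l ^ 2)
  have e7 := mul_le_mul_of_nonneg_left e1 hK0
  have hl2 : (0 : ℝ) ≤ (l : ℝ) ^ 2 := sq_nonneg _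
  have e8 : Real.log m ≤ -((κ + 3 / 4 * g) * (l : ℝ) ^ 2) := by
    have h1 : K * ((2 / S + ε) * (l : ℝ) ^ 2) + (κ + 3 / 4 * g) * (l : ℝ) ^ 2 =
        (K - ε) * (l : ℝ) ^ 2 := by
      have : K * (2 / S + ε) + (κ + 3 / 4 * g) = K - ε := by
        have h2 : ε + K * ε = g / 4 := by rw [← hεK]; ring
        have h3 : K * (2 / S) = K - (κ + g) := by rw [hg]; ring
        rw [mul_add, h3]
        linarith
      rw [← this]; ring
    linarith
  -- the ball
  have hball : Metric.closedBall x (((q : ℝ) ^ (l ^ 2))⁻¹) ⊆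
      {y | Fc q u (l ^ 2) y = Fc q u (l ^ 2) x} ∪ ({y | Fc q u (l ^ 2) y = Fc q u (l ^ 2) x + 1} ∪
        {y | Fc q u (l ^ 2) y = Fc q u (l ^ 2) x + -1}) := by
    intro y hy
    rw [Metric.mem_closedBall, Real.dist_eq] at hy
    have h1 : |(q : ℝ) ^ (l ^ 2) * (y + u) - (q : ℝ) ^ (l ^ 2) * (x + u)| ≤ 1 := by
      rw [← mul_sub, abs_mul, abs_of_pos (hqi _)]
      have h2 : y + u - (x + u) = y - x := by ring
      rw [h2]
      calc (q : ℝ) ^ (l ^ 2) * |y - x| ≤ (q : ℝ) ^ (l ^ 2) * ((q : ℝ) ^ (l ^ 2))⁻¹ :=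
            mul_le_mul_of_nonneg_left hy (hqi _).le
        _ = 1 := mul_inv_cancel₀ (hqi _).ne'
    rw [abs_le] at h1
    have h2 : Fc q u (l ^ 2) y ≤ Fc q u (l ^ 2) x + 1 := by
      unfold Fc
      rw [← Int.floor_add_one]
      exact Int.floor_le_floor (by linarith [h1.2])
    have h3 : Fc q u (l ^ 2) x ≤ Fc q u (l ^ 2) y + 1 := by
      unfold Fc
      rw [← Int.floor_add_one]
      exact Int.floor_le_floor (by linarith [h1.1])
    simp only [Set.mem_union, Set.mem_setOf_eq]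
    omega
  have hm3 : μ.real (Metric.closedBall x (((q : ℝ) ^ (l ^ 2))⁻¹)) ≤
      m + (Real.exp (g / 4 * (l : ℝ) ^ 2) * m + Real.exp (g / 4 * (l : ℝ) ^ 2) * m) := by
    refine (measureReal_mono hball (measure_ne_top _ _)).trans ?_
    refine (measureReal_union_le _ _).trans (add_le_add le_rfl ?_)
    exact (measureReal_union_le _ _).trans (add_le_add e3 e4)
  have h1e : 1 ≤ Real.exp (g / 4 * (l : ℝ) ^ 2) := Real.one_le_exp (by positivity)
  have hm4 : m + (Real.exp (g / 4 * (l : ℝ) ^ 2) * m + Real.exp (g / 4 * (l : ℝ) ^ 2) * m) ≤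
      3 * (Real.exp (g / 4 * (l : ℝ) ^ 2) * m) := by nlinarith
  refine hm3.trans (hm4.trans ?_)
  have hm5 : 3 * (Real.exp (g / 4 * (l : ℝ) ^ 2) * m) =
      Real.exp (Real.log 3 + (g / 4 * (l : ℝ) ^ 2 + Real.log m)) := by
    rw [Real.exp_add, Real.exp_add, Real.exp_log (by norm_num), Real.exp_log hm0]
  rw [hm5]
  apply Real.exp_le_exp.2
  have e9 : Real.log 3 ≤ g / 4 * (l : ℝ) ^ 2 := by linarith
  have e10 : 0 ≤ g / 4 * (l : ℝ) ^ 2 := by positivity
  linarith

/-- lower bound of the local dimension -/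
theorem local_lower {lam : ℝ} {t p : A → ℝ} {μ : Measure ℝ} [IsProbabilityMeasure μ]
    (hl0 : 0 < lam) (hl1 : lam < 1) (hfree : Free lam t) (hp : ∀ a, 0 < p a)
    (hp1 : ∑ a, p a = 1) (h : SR lam t p μ) {D : ℝ}
    (hD : D * Real.log (1 / lam) < min (∑ a, Real.negMulLog (p a)) (Real.log (1 / lam))) :
    ∀ᵐ x ∂μ, ∀ᶠ r in nhdsWithin (0 : ℝ) (Set.Ioi 0), μ.real (Metric.closedBall x r) ≤ r ^ D := by
  classical
  set H : ℝ := ∑ a, Real.negMulLog (p a) with hH
  set χ : ℝ := Real.log (1 / lam) with hχ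
  have hχ0 : 0 < χ := Real.log_pos (by rw [lt_div_iff₀ hl0]; linarith)
  rcases lt_or_ge D 0 with hneg | hD0
  · refine ae_of_all _ fun x => ?_
    have h3 : ∀ᶠ r : ℝ in nhdsWithin 0 (Set.Ioi 0), r < 1 :=
      (gt_mem_nhds one_pos).filter_mono nhdsWithin_le_nhds
    filter_upwards [h3, self_mem_nhdsWithin] with r h3 h4
    refine le_trans measureReal_le_one ?_
    exact Real.one_le_rpow_of_pos_of_le_one_of_nonpos h4 h3.le hneg.le
  set Δ : ℝ := min H χ with hΔ
  -- the support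
  set M : ℝ := 1 + (∑ a, |t a|) / (1 - lam) with hMdef
  have h1l : 0 < 1 - lam := by linarith
  have hsum0 : 0 ≤ ∑ a, |t a| := Finset.sum_nonneg fun a _ => abs_nonneg _
  have hM1 : 1 ≤ M := by
    rw [hMdef]
    have : 0 ≤ (∑ a, |t a|) / (1 - lam) := div_nonneg hsum0 h1l.le
    linarith
  have hM : ∀ a, |t a| ≤ M * (1 - lam) := by
    intro a
    have h1 : |t a| ≤ ∑ a, |t a| := Finset.single_le_sum (fun a _ => abs_nonneg (t a))
      (Finset.mem_univ a)
    rw [hMdef, add_mul, div_mul_cancel₀ _ h1l.ne']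
    linarith
  -- the parameters
  set g : ℝ := Δ - D * χ with hg
  have hg0 : 0 < g := by linarith
  have hDχ : 0 ≤ D * χ := mul_nonneg hD0 hχ0.le
  have hΔ0 : 0 < Δ := by linarith
  obtain ⟨S, hS⟩ := exists_nat_ge (max 1 (8 * Δ / g))
  have hS1 : 1 ≤ S := by
    have := (le_max_left (1 : ℝ) (8 * Δ / g)).trans hS
    exact_mod_cast this
  have hS0 : (0 : ℝ) < S := by exact_mod_cast hS1
  have hSg : 2 / (S : ℝ) * Δ ≤ g / 4 := by
    have h1 := (le_max_right (1 : ℝ) (8 * Δ / g)).trans hS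
    rw [div_le_iff₀ hg0] at h1
    rw [div_mul_eq_mul_div, div_le_iff₀ hS0]
    linarith
  set cS : ℝ := Real.log (S * (2 * M + 1)) with hcS
  have hcS0 : 0 ≤ cS := by
    apply Real.log_nonneg
    have : (1 : ℝ) ≤ S := by exact_mod_cast hS1
    nlinarith
  obtain ⟨N0, hN0⟩ := exists_nat_ge ((D * (χ + cS) + 2) / (g / 2))
  obtain ⟨N, hNN, hK⟩ := ent_mu hl0 hl1 hfree hp hp1 h hM (g / 4) (by linarith) N0
  set K : ℝ := N * (Δ - g / 4) with hKdef
  have hΔg : 0 ≤ Δ - g / 4 := by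
    rw [hg]; linarith
  have hK0 : 0 ≤ K := mul_nonneg (Nat.cast_nonneg _) hΔg
  have hlN : 0 < lam ^ (N + 1) := pow_pos hl0 _
  set q' : ℕ := ⌈2 * M / lam ^ (N + 1)⌉₊ with hq'def
  have hq'le : 2 * M ≤ q' * lam ^ (N + 1) := by
    have := Nat.le_ceil (2 * M / lam ^ (N + 1))
    rw [div_le_iff₀ hlN] at this
    exact this
  have hq'1 : 1 ≤ q' := by
    rw [Nat.one_le_iff_ne_zero]
    intro h0
    rw [h0] at hq'le
    simp at hq'le
    linarith
  set q : ℕ := S * q' with hqdef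
  have hlog : Real.log q ≤ (N + 1) * χ + cS := by
    have h1 : (q' : ℝ) ≤ (2 * M + 1) / lam ^ (N + 1) := by
      have h2 := Nat.ceil_lt_add_one (show 0 ≤ 2 * M / lam ^ (N + 1) by positivity)
      have h3 : (1 : ℝ) ≤ 1 / lam ^ (N + 1) := by
        rw [le_div_iff₀ hlN, one_mul]
        exact pow_le_one₀ hl0.le hl1.le
      rw [add_div]
      linarith
    have h2 : (q : ℝ) ≤ S * (2 * M + 1) * (1 / lam) ^ (N + 1) := by
      rw [hqdef]
      push_cast
      have h3 := mul_le_mul_of_nonneg_left h1 hS0.le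
      have h4 : (S : ℝ) * ((2 * M + 1) / lam ^ (N + 1)) = S * (2 * M + 1) * (1 / lam) ^ (N + 1) := by
        rw [div_pow, one_pow]; ring
      linarith
    have hq0 : (0 : ℝ) < q := by
      rw [hqdef]
      push_cast
      have : (0 : ℝ) < q' := by exact_mod_cast hq'1
      positivity
    have h5 := Real.log_le_log hq0 h2
    rw [Real.log_mul (by positivity) (by positivity), Real.log_pow] at h5
    push_cast at h5
    rw [hcS, hχ]
    linarith
  have hmain : D * Real.log q + 1 < K * (1 - 2 / S) := by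
    have h1 : D * Real.log q ≤ D * ((N + 1) * χ + cS) := mul_le_mul_of_nonneg_left hlog hD0
    have h2 : (D * (χ + cS) + 2) ≤ N * (g / 2) := by
      have h3 : (D * (χ + cS) + 2) / (g / 2) ≤ N := hN0.trans (by exact_mod_cast hNN)
      rwa [div_le_iff₀ (by linarith)] at h3
    have h3 : (Δ - g / 4) * (1 - 2 / S) ≥ Δ - g / 2 := by
      have h4 : 0 ≤ g / 4 * (2 / S) := by positivity
      nlinarith [hSg]
    have h4 : (N : ℝ) * (Δ - g / 2) ≤ K * (1 - 2 / S) := by
      rw [hKdef, mul_assoc]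
      exact mul_le_mul_of_nonneg_left h3 (Nat.cast_nonneg _)
    have h5 : (N : ℝ) * (Δ - g / 2) = N * (D * χ) + N * (g / 2) := by rw [hg]; ring
    have h6 : D * (((N : ℝ) + 1) * χ + cS) = N * (D * χ) + D * (χ + cS) := by ring
    linarith
  have hdecay := cell_decay hl0 hl1 (fun a => (hp a).le) hp1 h hM hM1 hq'1 hS1 hqdef hq'le hK0 hK
    (D * Real.log q + 1) hmain
  have hq1 : (1 : ℝ) < q := by
    have h1 : (1 : ℝ) ≤ S := by exact_mod_cast hS1
    have h2 : (2 : ℝ) ≤ q' := by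
      have h3 : (2 : ℝ) ≤ q' * lam ^ (N + 1) := by linarith
      have h4 : lam ^ (N + 1) ≤ 1 := pow_le_one₀ hl0.le hl1.le
      have h5 : (0 : ℝ) ≤ q' := Nat.cast_nonneg _
      nlinarith
    rw [hqdef]
    push_cast
    nlinarith
  filter_upwards [hdecay] with x hx
  refine fill_lower (g := fun r => μ.real (Metric.closedBall x r)) ?_ hq1 hD0
    (by linarith : D * Real.log q < D * Real.log q + 1) hx
  intro r s hrs
  exact measureReal_mono (Metric.closedBall_subset_closedBall hrs) (measure_ne_top _ _)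

end low

end Pool.Agent.Y293.EM
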