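import Pool.Agent.Y293.EM.Close
import Pool.Agent.H517R2.EO.T_E2

/-!
# Product weights on words, and concavity
-/

set_option autoImplicit false

open Finset

namespace Pool.Agent.Y293.EM

open H517.EO

section pw

variable {A : Type} [Fintype A]

/-- product weight of a word -/
noncomputable def pw (p : A → ℝ) {n : ℕ} (v : Fin n → A) : ℝ := ∏ i, p (v i)

theorem pw_nonneg {p : A → ℝ} (hp : ∀ a, 0 ≤ p a) {n : ℕ} (v : Fin n → A) : 0 ≤ pw p v :=
  Finset.prod_nonneg fun i _ => hp _

theorem pw_pos {p : A → ℝ} (hp : ∀ a, 0 < p a) {n : ℕ} (v : Fin n → A) : 0 < pw p v :=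
  Finset.prod_pos fun i _ => hp _

theorem sum_pw {p : A → ℝ} (hp1 : ∑ a, p a = 1) (n : ℕ) : ∑ v : Fin n → A, pw p v = 1 := by
  unfold pw
  rw [← Fintype.sum_pow, hp1, one_pow]

theorem pw_comp (p : A → ℝ) {n : ℕ} (v : Fin n → A) (σ : Equiv.Perm (Fin n)) :
    pw p (v ∘ σ) = pw p v := by
  unfold pw
  exact Equiv.prod_comp σ (fun i => p (v i))

theorem sum_cons {n : ℕ} (F : (Fin (n + 1) → A) → ℝ) :
    ∑ v, F v = ∑ a, ∑ w : Fin n → A, F (Fin.cons a w) := by
  rw [← (Fin.consEquiv (fun _ : Fin (n + 1) => A)).sum_comp, Fintype.sum_prod_type]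
  rfl

theorem pw_cons (p : A → ℝ) {n : ℕ} (a : A) (w : Fin n → A) :
    pw p (Fin.cons a w : Fin (n + 1) → A) = p a * pw p w := by
  unfold pw
  rw [Fin.prod_univ_succ]
  simp

theorem sum_cons' (φ : A → ℝ) {n : ℕ} (a : A) (w : Fin n → A) :
    ∑ i, φ ((Fin.cons a w : Fin (n + 1) → A) i) = φ a + ∑ i, φ (w i) := by
  rw [Fin.sum_univ_succ]
  simp

/-- expectation of an additive functional -/
theorem exp_add {p : A → ℝ} (hp1 : ∑ a, p a = 1) (φ : A → ℝ) (n : ℕ) :
    ∑ v : Fin n → A, pw p v * ∑ i, φ (v i) = n * ∑ a, p a * φ a := by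
  induction n with
  | zero => simp
  | succ n ih =>
    rw [sum_cons]
    have h1 : ∀ a, ∑ w : Fin n → A, pw p (Fin.cons a w : Fin (n + 1) → A) *
        ∑ i, φ ((Fin.cons a w : Fin (n + 1) → A) i) =
        p a * φ a + p a * (n * ∑ a, p a * φ a) := by
      intro a
      rw [← ih]
      have h2 : ∀ w : Fin n → A, pw p (Fin.cons a w : Fin (n + 1) → A) *
        ∑ i, φ ((Fin.cons a w : Fin (n + 1) → A) i) =
        p a * φ a * pw p w + p a * (pw p w * ∑ i, φ (w i)) := by
        intro w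
        rw [pw_cons, sum_cons']
        ring
      rw [Finset.sum_congr rfl fun w _ => h2 w, Finset.sum_add_distrib, ← Finset.mul_sum,
        ← Finset.mul_sum, sum_pw hp1, mul_one]
    rw [Finset.sum_congr rfl fun a _ => h1 a, Finset.sum_add_distrib, ← Finset.sum_mul, hp1]
    push_cast
    ring

/-- second moment of a centred additive functional -/
theorem exp_sq {p : A → ℝ} (hp1 : ∑ a, p a = 1) (φ : A → ℝ) (h0 : ∑ a, p a * φ a = 0) (n : ℕ) :
    ∑ v : Fin n → A, pw p v * (∑ i, φ (v i)) ^ 2 = n * ∑ a, p a * φ a ^ 2 := by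
  induction n with
  | zero => simp
  | succ n ih =>
    rw [sum_cons]
    have hn : ∑ w : Fin n → A, pw p w * ∑ i, φ (w i) = 0 := by
      rw [exp_add hp1, h0, mul_zero]
    have h1 : ∀ a, ∑ w : Fin n → A, pw p (Fin.cons a w : Fin (n + 1) → A) *
        (∑ i, φ ((Fin.cons a w : Fin (n + 1) → A) i)) ^ 2 =
        p a * φ a ^ 2 + p a * (n * ∑ a, p a * φ a ^ 2) := by
      intro a
      rw [← ih]
      have h2 : ∀ w : Fin n → A, pw p (Fin.cons a w : Fin (n + 1) → A) *
        (∑ i, φ ((Fin.cons a w : Fin (n + 1) → A) i)) ^ 2 =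
        p a * φ a ^ 2 * pw p w + 2 * p a * φ a * (pw p w * ∑ i, φ (w i)) +
          p a * (pw p w * (∑ i, φ (w i)) ^ 2) := by
        intro w
        rw [pw_cons, sum_cons']
        ring
      rw [Finset.sum_congr rfl fun w _ => h2 w, Finset.sum_add_distrib, Finset.sum_add_distrib,
        ← Finset.mul_sum, ← Finset.mul_sum, ← Finset.mul_sum, sum_pw hp1, mul_one, hn, mul_zero,
        add_zero]
    rw [Finset.sum_congr rfl fun a _ => h1 a, Finset.sum_add_distrib, ← Finset.sum_mul, hp1]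
    push_cast
    ring

/-- first absolute moment of a centred additive functional -/
theorem exp_abs {p : A → ℝ} (hp : ∀ a, 0 ≤ p a) (hp1 : ∑ a, p a = 1) (φ : A → ℝ)
    (h0 : ∑ a, p a * φ a = 0) (n : ℕ) (hn : 1 ≤ n) :
    ∑ v : Fin n → A, pw p v * |∑ i, φ (v i)| ≤ (1 + ∑ a, p a * φ a ^ 2) * Real.sqrt n := by
  have hn0 : (0 : ℝ) < n := by exact_mod_cast hn
  have hs : 0 < Real.sqrt n := Real.sqrt_pos.2 hn0
  have hss : Real.sqrt n * Real.sqrt n = n := Real.mul_self_sqrt hn0.le
  have h1 : ∀ x : ℝ, |x| ≤ x ^ 2 / Real.sqrt n + Real.sqrt n := by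
    intro x
    have : 0 ≤ (|x| - Real.sqrt n) ^ 2 := sq_nonneg _
    have h2 : |x| * Real.sqrt n ≤ x ^ 2 + Real.sqrt n * Real.sqrt n := by
      nlinarith [sq_abs x, sq_nonneg (|x| + Real.sqrt n), sq_nonneg (|x|), abs_nonneg x, hs]
    rw [← sub_nonneg]
    have h3 : x ^ 2 / Real.sqrt n + Real.sqrt n - |x| =
        (x ^ 2 + Real.sqrt n * Real.sqrt n - |x| * Real.sqrt n) / Real.sqrt n := by
      field_simp
    rw [h3]
    exact div_nonneg (by linarith) hs.le
  have h2 : ∑ v : Fin n → A, pw p v * |∑ i, φ (v i)| ≤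
      ∑ v : Fin n → A, (pw p v * (∑ i, φ (v i)) ^ 2 / Real.sqrt n + pw p v * Real.sqrt n) := by
    apply Finset.sum_le_sum
    intro v _
    have := mul_le_mul_of_nonneg_left (h1 (∑ i, φ (v i))) (pw_nonneg hp v)
    calc _ ≤ _ := this
      _ = _ := by ring
  refine h2.trans (le_of_eq ?_)
  rw [Finset.sum_add_distrib, ← Finset.sum_div, ← Finset.sum_mul, exp_sq hp1 φ h0, sum_pw hp1,
    mul_comm (n : ℝ), mul_div_assoc]
  have h3 : (n : ℝ) / Real.sqrt n = Real.sqrt n := by
    rw [div_eq_iff hs.ne', hss]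
  rw [h3]
  ring

end pw

section conc

/-- entropy of `g` as a sum over the values -/
theorem Hd_eq {Ω : Type} [Fintype Ω] [Nonempty Ω] (g : Ω → ℤ) (K : Finset ℤ) (hK : ∀ σ, g σ ∈ K) :
    Hd g = ∑ b ∈ K, Real.negMulLog
      (((Finset.univ.filter (fun σ => g σ = b)).card : ℝ) / Fintype.card Ω) := by
  classical
  have hc : (0 : ℝ) < Fintype.card Ω := by exact_mod_cast Fintype.card_pos
  have hfib : ∀ σ, fib g σ = ((Finset.univ.filter (fun τ => g τ = g σ)).card : ℝ) := by
    intro σ
    unfold fib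
    congr 2
    ext τ
    rw [mem_fiber]
    simp
  have h1 : Hd g = ∑ σ, (-Real.log (fib g σ / Fintype.card Ω)) / Fintype.card Ω := by
    unfold Hd HR avg
    have h2 : ∀ σ, (-Real.log (fib g σ / Fintype.card Ω)) / (Fintype.card Ω : ℝ) =
        Real.log (Fintype.card Ω) / Fintype.card Ω - Real.log (fib g σ) / Fintype.card Ω := by
      intro σ
      rw [Real.log_div (fib_pos g σ).ne' hc.ne']
      ring
    rw [Finset.sum_congr rfl fun σ _ => h2 σ, Finset.sum_sub_distrib, Finset.sum_const,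
      Finset.card_univ, nsmul_eq_mul, ← Finset.sum_div, mul_div_cancel₀ _ hc.ne']
  rw [h1, ← Finset.sum_fiberwise_of_maps_to (s := Finset.univ) (t := K) (g := g) (fun σ _ => hK σ)]
  refine Finset.sum_congr rfl fun b _ => ?_
  have h3 : ∀ σ ∈ Finset.univ.filter (fun σ => g σ = b),
      (-Real.log (fib g σ / Fintype.card Ω)) / (Fintype.card Ω : ℝ) =
      (-Real.log (((Finset.univ.filter (fun σ => g σ = b)).card : ℝ) / Fintype.card Ω)) /
        Fintype.card Ω := by
    intro σ hσ
    rw [hfib σ, (Finset.mem_filter.1 hσ).2]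
  rw [Finset.sum_congr rfl h3, Finset.sum_const, nsmul_eq_mul]
  unfold Real.negMulLog
  ring

/-- concavity of the entropy, for a mixture of orbits -/
theorem conc {W Ω : Type} [Fintype W] [Fintype Ω] [Nonempty Ω] (P : W → ℝ) (hP : ∀ V, 0 ≤ P V)
    (hP1 : ∑ V, P V = 1) (act : Ω → Equiv.Perm W) (hact : ∀ σ V, P (act σ V) = P V)
    (f : W → ℤ) (K : Finset ℤ) (hK : ∀ V, f V ∈ K) :
    ∑ V, P V * Hd (fun σ => f (act σ V)) ≤
      ∑ b ∈ K, Real.negMulLog (∑ V, if f V = b then P V else 0) := by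
  classical
  have hc : (0 : ℝ) < Fintype.card Ω := by exact_mod_cast Fintype.card_pos
  have h1 : ∀ b, (∑ V, if f V = b then P V else 0) =
      ∑ V, P V * (((Finset.univ.filter (fun σ => f (act σ V) = b)).card : ℝ) / Fintype.card Ω) := by
    intro b
    have h2 : ∀ σ, (∑ V, if f V = b then P V else 0) = ∑ V, if f (act σ V) = b then P V else 0 := by
      intro σ
      rw [← Equiv.sum_comp (act σ)]
      refine Finset.sum_congr rfl fun V _ => ?_
      rw [hact]
    have h3 : (Fintype.card Ω : ℝ) * (∑ V, if f V = b then P V else 0) =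
        ∑ V, P V * ((Finset.univ.filter (fun σ => f (act σ V) = b)).card : ℝ) := by
      calc (Fintype.card Ω : ℝ) * (∑ V, if f V = b then P V else 0)
          = ∑ σ : Ω, (∑ V, if f V = b then P V else 0) := by
            rw [Finset.sum_const, Finset.card_univ, nsmul_eq_mul]
        _ = ∑ σ : Ω, ∑ V, (if f (act σ V) = b then P V else 0) :=
            Finset.sum_congr rfl fun σ _ => h2 σ
        _ = ∑ V, ∑ σ : Ω, (if f (act σ V) = b then P V else 0) := Finset.sum_comm
        _ = _ := by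
            refine Finset.sum_congr rfl fun V _ => ?_
            rw [← Finset.sum_filter, Finset.sum_const, nsmul_eq_mul, mul_comm]
    rw [← mul_right_inj' hc.ne', h3, Finset.mul_sum]
    refine Finset.sum_congr rfl fun V _ => ?_
    field_simp
  calc ∑ V, P V * Hd (fun σ => f (act σ V))
      = ∑ b ∈ K, ∑ V, P V * Real.negMulLog
          (((Finset.univ.filter (fun σ => f (act σ V) = b)).card : ℝ) / Fintype.card Ω) := by
        rw [Finset.sum_comm]
        refine Finset.sum_congr rfl fun V _ => ?_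
        rw [Hd_eq _ K (fun σ => hK _), Finset.mul_sum]
    _ ≤ _ := by
        apply Finset.sum_le_sum
        intro b _
        rw [h1 b]
        have := Real.concaveOn_negMulLog.le_map_sum (t := Finset.univ) (w := P)
          (p := fun V => (((Finset.univ.filter (fun σ => f (act σ V) = b)).card : ℝ) /
            Fintype.card Ω)) (fun V _ => hP V) hP1
          (fun V _ => Set.mem_Ici.2 (div_nonneg (Nat.cast_nonneg _) (Nat.cast_nonneg _)))
        simpa only [smul_eq_mul] using this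

/-- entropy is not changed by a map with fibres of constant size -/
theorem Hd_comp {Ω Ω' : Type} [Fintype Ω] [Fintype Ω'] [Nonempty Ω] (π : Ω → Ω') (c : ℕ)
    (hc : ∀ w, (@Finset.filter Ω (fun σ => π σ = w) (Classical.decPred _) Finset.univ).card = c)
    {β : Type} (g : Ω' → β) :
    Hd (fun σ => g (π σ)) = Hd g := by
  classical
  have hc' : ∀ w, (Finset.univ.filter (fun σ => π σ = w)).card = c := by
    intro w
    rw [← hc w]
  have hsum : ∀ F : Ω' → ℝ, ∑ σ, F (π σ) = c * ∑ w, F w := by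
    intro F
    rw [← Finset.sum_fiberwise_of_maps_to (s := Finset.univ) (t := Finset.univ) (g := π)
      (fun σ _ => Finset.mem_univ _), Finset.mul_sum]
    refine Finset.sum_congr rfl fun w _ => ?_
    rw [Finset.sum_congr rfl (fun σ hσ => by rw [(Finset.mem_filter.1 hσ).2]), Finset.sum_const,
      hc' w, nsmul_eq_mul]
  have hcard : (Fintype.card Ω : ℝ) = c * Fintype.card Ω' := by
    have := hsum (fun _ => 1)
    simpa using this
  have h0 : (0 : ℝ) < Fintype.card Ω := by exact_mod_cast Fintype.card_pos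
  have hc0 : (0 : ℝ) < c := by
    rcases Nat.eq_zero_or_pos c with h | h
    · rw [h] at hcard
      simp at hcard
    · exact_mod_cast h
  have hΩ' : (0 : ℝ) < Fintype.card Ω' := by
    by_contra h
    have : (Fintype.card Ω' : ℝ) = 0 := le_antisymm (not_lt.1 h) (Nat.cast_nonneg _)
    rw [this, mul_zero] at hcard
    linarith
  have hfib : ∀ σ, fib (fun σ => g (π σ)) σ = c * fib g (π σ) := by
    intro σ
    have h1 : fib (fun σ => g (π σ)) σ = ∑ τ : Ω, if g (π τ) = g (π σ) then (1 : ℝ) else 0 := by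
      rw [E2.fib_sum]
    have h2 : fib g (π σ) = ∑ w : Ω', if g w = g (π σ) then (1 : ℝ) else 0 := by
      rw [E2.fib_sum]
    rw [h1, h2, ← hsum (fun w => if g w = g (π σ) then (1 : ℝ) else 0)]
  unfold Hd HR avg
  have h1 : ∑ σ, Real.log (fib (fun σ => g (π σ)) σ) =
      Fintype.card Ω * Real.log c + c * ∑ w, Real.log (fib g w) := by
    rw [← hsum (fun w => Real.log (fib g w))]
    have h2 : ∀ σ, Real.log (fib (fun σ => g (π σ)) σ) = Real.log c + Real.log (fib g (π σ)) := by
      intro σ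
      rw [hfib σ, Real.log_mul hc0.ne' (fib_pos g _).ne']
    rw [Finset.sum_congr rfl fun σ _ => h2 σ, Finset.sum_add_distrib, Finset.sum_const,
      Finset.card_univ, nsmul_eq_mul]
  rw [h1, hcard, Real.log_mul hc0.ne' hΩ'.ne']
  field_simp
  ring

end conc

end Pool.Agent.Y293.EM
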