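import Pool.Agent.Y293.EM.Ent

/-!
# Entropy of the self-similar measure at the natural scales
-/

set_option autoImplicit false

open Finset Filter MeasureTheory

namespace Pool.Agent.Y293.EM

open H517.EO

section mu

variable {A : Type} [Fintype A]

/-- self-similarity of a measure, tested on measurable sets -/
def SR (lam : ℝ) (t p : A → ℝ) (μ : Measure ℝ) : Prop :=
  ∀ B : Set ℝ, MeasurableSet B →
    μ.real B = ∑ a, p a * μ.real ((fun x : ℝ => lam * x + t a) ⁻¹' B)

theorem meas_aff (c d : ℝ) : Measurable (fun x : ℝ => c * x + d) :=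
  (measurable_id.const_mul c).add_const d

theorem SR_iter {lam : ℝ} {t p : A → ℝ} {μ : Measure ℝ} (h : SR lam t p μ) (n : ℕ) :
    SR (lam ^ n) (fun v : Fin n → A => XX lam t v) (pw p) μ := by
  induction n with
  | zero =>
    intro B _
    have h1 : ∀ v : Fin 0 → A, pw p v * μ.real ((fun x : ℝ => lam ^ 0 * x + XX lam t v) ⁻¹' B) =
        μ.real B := by
      intro v
      unfold pw XX
      simp
    rw [Finset.sum_congr rfl fun v _ => h1 v]
    simp
  | succ n ih =>
    intro B hB
    rw [sum_cons, h B hB]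
    refine Finset.sum_congr rfl fun a _ => ?_
    rw [ih _ (meas_aff lam (t a) hB), Finset.mul_sum]
    refine Finset.sum_congr rfl fun w _ => ?_
    rw [pw_cons, mul_assoc]
    congr 3
    ext x
    simp only [Set.mem_preimage]
    have h2 : XX lam t (Fin.cons a w : Fin (n + 1) → A) = t a + lam * XX lam t w := by
      unfold XX
      rw [Fin.sum_univ_succ]
      simp only [Fin.cons_zero, Fin.cons_succ, Fin.val_zero, pow_zero, one_mul, Fin.val_succ,
        Finset.mul_sum]
      congr 1
      refine Finset.sum_congr rfl fun i _ => ?_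
      rw [pow_succ]
      ring
    rw [h2]
    have h3 : lam * (lam ^ n * x + XX lam t w) + t a =
        lam ^ (n + 1) * x + (t a + lam * XX lam t w) := by
      rw [pow_succ]; ring
    rw [h3]

theorem XX_bound {lam M : ℝ} {t : A → ℝ} (hl0 : 0 < lam)
    (hM : ∀ a, |t a| ≤ M * (1 - lam)) {n : ℕ} (v : Fin n → A) :
    |XX lam t v| ≤ M * (1 - lam ^ n) := by
  induction n with
  | zero => unfold XX; simp
  | succ n ih =>
    have h2 : XX lam t v = t (v 0) + lam * XX lam t (fun i => v i.succ) := by
      unfold XX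
      rw [Fin.sum_univ_succ]
      simp only [Fin.val_zero, pow_zero, one_mul, Fin.val_succ, Finset.mul_sum]
      congr 1
      refine Finset.sum_congr rfl fun i _ => ?_
      rw [pow_succ]
      ring
    rw [h2]
    have h3 := ih (fun i => v i.succ)
    have h4 := abs_add_le (t (v 0)) (lam * XX lam t (fun i => v i.succ))
    rw [abs_mul, abs_of_pos hl0] at h4
    have h5 := mul_le_mul_of_nonneg_left h3 hl0.le
    have h6 := hM (v 0)
    calc _ ≤ _ := h4
      _ ≤ M * (1 - lam) + lam * (M * (1 - lam ^ n)) := add_le_add h6 h5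
      _ = _ := by rw [pow_succ]; ring

/-- the support is bounded -/
theorem SR_supp {lam M : ℝ} {t p : A → ℝ} {μ : Measure ℝ} [IsProbabilityMeasure μ]
    (hl0 : 0 < lam) (hl1 : lam < 1) (hp : ∀ a, 0 ≤ p a) (hp1 : ∑ a, p a = 1)
    (h : SR lam t p μ) (hM : ∀ a, |t a| ≤ M * (1 - lam)) :
    ∀ᵐ x ∂μ, x ∈ Set.Icc (-M) M := by
  have hmeas : ∀ r : ℝ, MeasurableSet {x : ℝ | r < |x|} := fun r =>
    measurableSet_lt measurable_const measurable_norm
  have hstep : ∀ r : ℝ, 0 < r → μ.real {x : ℝ | M + r < |x|} ≤ μ.real {x : ℝ | M + r / lam < |x|} := by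
    intro r hr
    rw [h _ (hmeas _)]
    have h1 : ∀ a, p a * μ.real ((fun x : ℝ => lam * x + t a) ⁻¹' {x : ℝ | M + r < |x|}) ≤
        p a * μ.real {x : ℝ | M + r / lam < |x|} := by
      intro a
      apply mul_le_mul_of_nonneg_left _ (hp a)
      apply measureReal_mono _ (measure_ne_top _ _)
      intro x hx
      simp only [Set.mem_preimage, Set.mem_setOf_eq] at hx ⊢
      have h2 := abs_add_le (lam * x) (t a)
      rw [abs_mul, abs_of_pos hl0] at h2
      have h3 := hM a
      have h4 : lam * (M + r / lam) < lam * |x| := by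
        have : lam * (M + r / lam) = lam * M + r := by field_simp
        rw [this]
        nlinarith
      exact lt_of_mul_lt_mul_left h4 hl0.le
    refine (Finset.sum_le_sum fun a _ => h1 a).trans (le_of_eq ?_)
    rw [← Finset.sum_mul, hp1, one_mul]
  have hiter : ∀ (k : ℕ) (r : ℝ), 0 < r →
      μ.real {x : ℝ | M + r < |x|} ≤ μ.real {x : ℝ | M + r / lam ^ k < |x|} := by
    intro k
    induction k with
    | zero => intro r _; simp
    | succ k ih =>
      intro r hr
      refine (ih r hr).trans ?_
      have h1 := hstep (r / lam ^ k) (by positivity)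
      have h2 : r / lam ^ k / lam = r / lam ^ (k + 1) := by rw [pow_succ]; field_simp
      rwa [h2] at h1
  have htend : Tendsto (fun K : ℕ => μ.real {x : ℝ | (K : ℝ) < |x|}) atTop (nhds 0) := by
    have h1 := tendsto_measure_iInter_atTop (μ := μ) (s := fun K : ℕ => {x : ℝ | (K : ℝ) < |x|})
      (fun K => (hmeas _).nullMeasurableSet)
      (fun a b hab x (hx : (b : ℝ) < |x|) => lt_of_le_of_lt (by exact_mod_cast hab) hx)
      ⟨0, measure_ne_top _ _⟩
    have h2 : (⋂ K : ℕ, {x : ℝ | (K : ℝ) < |x|}) = ∅ := by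
      ext x
      simp only [Set.mem_iInter, Set.mem_setOf_eq, Set.mem_empty_iff_false, iff_false, not_forall,
        not_lt]
      exact exists_nat_ge |x|
    rw [h2, measure_empty] at h1
    have h3 := (ENNReal.tendsto_toReal ENNReal.zero_ne_top).comp h1
    rw [ENNReal.toReal_zero] at h3
    exact h3
  have hzero : ∀ r : ℝ, 0 < r → μ.real {x : ℝ | M + r < |x|} = 0 := by
    intro r hr
    apply le_antisymm _ measureReal_nonneg
    apply ge_of_tendsto' htend
    intro K
    obtain ⟨k, hk⟩ : ∃ k : ℕ, (K : ℝ) ≤ M + r / lam ^ k := by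
      obtain ⟨k, hk⟩ := exists_pow_lt_of_lt_one (show 0 < r / (|K - M| + 1) by positivity) hl1
      refine ⟨k, ?_⟩
      have h1 : 0 < lam ^ k := pow_pos hl0 k
      have h2 : 0 < |(K : ℝ) - M| + 1 := by positivity
      rw [lt_div_iff₀ h2] at hk
      have h3 : |(K : ℝ) - M| + 1 ≤ r / lam ^ k := by
        rw [le_div_iff₀ h1, mul_comm]
        exact hk.le
      have := le_abs_self ((K : ℝ) - M)
      linarith
    refine (hiter k r hr).trans ?_
    apply measureReal_mono _ (measure_ne_top _ _)
    intro x hx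
    exact lt_of_le_of_lt hk hx
  have hnull : μ {x : ℝ | M < |x|} = 0 := by
    have h1 : {x : ℝ | M < |x|} ⊆ ⋃ n : ℕ, {x : ℝ | M + 1 / ((n : ℝ) + 1) < |x|} := by
      intro x hx
      simp only [Set.mem_setOf_eq] at hx
      rw [Set.mem_iUnion]
      obtain ⟨n, hn⟩ := exists_nat_one_div_lt (sub_pos.2 hx)
      exact ⟨n, by simp only [Set.mem_setOf_eq]; linarith⟩
    refine measure_mono_null h1 (measure_iUnion_null fun n => ?_)
    have h2 := hzero (1 / ((n : ℝ) + 1)) (by positivity)
    rw [measureReal_eq_zero_iff (measure_ne_top _ _)] at h2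
    exact h2
  rw [ae_iff]
  refine measure_mono_null ?_ hnull
  intro x hx
  simp only [Set.mem_setOf_eq] at hx ⊢
  by_contra h1
  exact hx (Set.mem_Icc.2 (abs_le.1 (not_lt.1 h1)))

theorem meas_cell (c d w s : ℝ) (b : ℤ) :
    MeasurableSet {x : ℝ | ⌊(c * x + d) / w + s⌋ = b} := by
  have h1 : Measurable (fun x : ℝ => ⌊(c * x + d) / w + s⌋) :=
    Int.measurable_floor.comp (((meas_aff c d).div_const w).add_const s)
  exact h1 (measurableSet_singleton b)

variable [DecidableEq A]

/-- entropy of the measure at the scales `lam ^ N`, all shifts -/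
theorem ent_mu {lam M : ℝ} {t p : A → ℝ} {μ : Measure ℝ} [IsProbabilityMeasure μ]
    (hl0 : 0 < lam) (hl1 : lam < 1) (hfree : Free lam t) (hp : ∀ a, 0 < p a)
    (hp1 : ∑ a, p a = 1) (h : SR lam t p μ) (hM : ∀ a, |t a| ≤ M * (1 - lam))
    (ε : ℝ) (hε : 0 < ε) (N0 : ℕ) : ∃ N : ℕ, N0 ≤ N ∧ ∀ (η s : ℝ) (K : Finset ℤ),
      0 < η → η ≤ lam ^ N → (∀ x ∈ Set.Icc (-M) M, ⌊x / η + s⌋ ∈ K) →
      (N : ℝ) * (min (∑ a, Real.negMulLog (p a)) (Real.log (1 / lam)) - ε) ≤
        ∑ b ∈ K, Real.negMulLog (μ.real {x : ℝ | ⌊x / η + s⌋ = b}) := by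
  classical
  obtain ⟨n, j, hn, hN, hent⟩ := ent_words hl0 hl1 hfree hp hp1 ε hε N0
  refine ⟨n * j, hN, fun η s K hη hηw hK => ?_⟩
  set w : ℝ := lam ^ (n * j) with hw
  have hw0 : 0 < w := pow_pos hl0 _
  have hw' : w = (lam ^ n) ^ j := by rw [hw, pow_mul]
  have hSR := SR_iter (SR_iter h n) j
  have hPP : ∀ (V : Fin j → Fin n → A), 0 ≤ pw (pw p) V := fun V =>
    pw_nonneg (fun v => pw_nonneg (fun a => (hp a).le) v) V
  have hPP1 : ∑ V : Fin j → Fin n → A, pw (pw p) V = 1 := sum_pw (sum_pw hp1 n) j
  -- the maps preserve the interval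
  have hmaps : ∀ (V : Fin j → Fin n → A), ∀ x ∈ Set.Icc (-M) M, w * x + X2 lam t V ∈
      Set.Icc (-M) M := by
    intro V x hx
    have hln0 : 0 < lam ^ n := pow_pos hl0 n
    have h1 : |X2 lam t V| ≤ M * (1 - (lam ^ n) ^ j) :=
      XX_bound (t := fun v : Fin n → A => XX lam t v) hln0 (fun v => XX_bound hl0 hM v) V
    rw [← hw'] at h1
    have hx' := abs_le.2 (Set.mem_Icc.1 hx)
    have h2 := abs_add_le (w * x) (X2 lam t V)
    rw [abs_mul, abs_of_pos hw0] at h2
    have h3 := mul_le_mul_of_nonneg_left hx' hw0.le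
    exact Set.mem_Icc.2 (abs_le.1 (by linarith))
  -- the pointwise laws
  let f : ℝ → (Fin j → Fin n → A) → ℤ := fun x V => ⌊(X2 lam t V + (w * x + s * η)) / η⌋
  let g : ℤ → ℝ → ℝ := fun b x => ∑ V, if f x V = b then pw (pw p) V else 0
  have hf : ∀ x V, f x V = ⌊(w * x + X2 lam t V) / η + s⌋ := by
    intro x V
    simp only [f]
    congr 1
    field_simp
    ring
  have hgmeas : ∀ b, Measurable (g b) := by
    intro b
    apply Finset.measurable_sum
    intro V _
    apply Measurable.ite _ measurable_const measurable_const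
    have := meas_cell w (X2 lam t V) η s b
    simpa only [hf] using this
  have hg0 : ∀ b x, 0 ≤ g b x := fun b x => Finset.sum_nonneg fun V _ => by
    split_ifs
    · exact hPP V
    · exact le_rfl
  have hg1 : ∀ b x, g b x ≤ 1 := by
    intro b x
    rw [← hPP1]
    apply Finset.sum_le_sum
    intro V _
    split_ifs
    · exact le_rfl
    · exact hPP V
  have hgint : ∀ b, Integrable (g b) μ := by
    intro b
    refine Integrable.of_bound (C := 1) (hgmeas b).aestronglyMeasurable (ae_of_all _ fun x => ?_)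
    rw [Real.norm_eq_abs, abs_of_nonneg (hg0 b x)]
    exact hg1 b x
  have hnint : ∀ b, Integrable (fun x => Real.negMulLog (g b x)) μ := by
    intro b
    refine Integrable.of_bound (C := 1)
      ((Real.continuous_negMulLog.measurable.comp (hgmeas b)).aestronglyMeasurable)
      (ae_of_all _ fun x => ?_)
    rw [Real.norm_eq_abs, abs_of_nonneg (Real.negMulLog_nonneg (hg0 b x) (hg1 b x))]
    have := Real.negMulLog_le_one_sub_self (hg0 b x)
    have := hg0 b x
    linarith
  have hmass : ∀ b, μ.real {x : ℝ | ⌊x / η + s⌋ = b} = ∫ x, g b x ∂μ := by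
    intro b
    have hB : MeasurableSet {x : ℝ | ⌊x / η + s⌋ = b} := by
      have := meas_cell 1 0 η s b
      simpa using this
    rw [hSR _ hB, integral_finset_sum]
    · refine Finset.sum_congr rfl fun V _ => ?_
      have h1 : ((fun x : ℝ => (lam ^ n) ^ j * x + XX (lam ^ n) (fun v : Fin n → A => XX lam t v) V)
          ⁻¹' {x : ℝ | ⌊x / η + s⌋ = b}) = {x : ℝ | f x V = b} := by
        ext x
        simp only [Set.mem_preimage, Set.mem_setOf_eq, hf, hw']
        rfl
      rw [h1]
      have h2 : MeasurableSet {x : ℝ | f x V = b} := by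
        have := meas_cell w (X2 lam t V) η s b
        simpa only [hf] using this
      have h3 : (fun x => if f x V = b then pw (pw p) V else 0) =
          fun x => pw (pw p) V * ({x : ℝ | f x V = b}.indicator 1 x) := by
        funext x
        by_cases hx : f x V = b
        · simp [Set.indicator, hx]
        · simp [Set.indicator, hx]
      rw [h3, integral_const_mul, integral_indicator_one h2]
    · intro V _
      refine Integrable.of_bound (C := pw (pw p) V) ?_ (ae_of_all _ fun x => ?_)
      · apply Measurable.aestronglyMeasurable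
        apply Measurable.ite _ measurable_const measurable_const
        have := meas_cell w (X2 lam t V) η s b
        simpa only [hf] using this
      · split_ifs
        · rw [Real.norm_eq_abs, abs_of_nonneg (hPP V)]
        · simp [hPP V]
  have hjensen : ∀ b, ∫ x, Real.negMulLog (g b x) ∂μ ≤
      Real.negMulLog (μ.real {x : ℝ | ⌊x / η + s⌋ = b}) := by
    intro b
    rw [hmass b]
    exact Real.concaveOn_negMulLog.le_map_integral Real.continuous_negMulLog.continuousOn
      isClosed_Ici (ae_of_all _ fun x => hg0 b x) (hgint b) (hnint b)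
  refine le_trans ?_ (Finset.sum_le_sum fun b _ => hjensen b)
  rw [← integral_finset_sum _ fun b _ => hnint b]
  have hsupp := SR_supp hl0 hl1 (fun a => (hp a).le) hp1 h hM
  have hconst : ∀ c : ℝ, c = ∫ _, c ∂μ := fun c => by simp
  rw [hconst (((n * j : ℕ) : ℝ) * (min (∑ a, Real.negMulLog (p a)) (Real.log (1 / lam)) - ε))]
  refine integral_mono_ae (integrable_const _) (integrable_finset_sum _ fun b _ => hnint b) ?_
  filter_upwards [hsupp] with x hx
  let act : (Fin j → Equiv.Perm (Fin n)) → Equiv.Perm (Fin j → Fin n → A) := fun σ =>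
    Equiv.piCongrRight fun i => Equiv.arrowCongr (σ i).symm (Equiv.refl A)
  have hact : ∀ σ V, act σ V = fun i => V i ∘ σ i := by
    intro σ V
    funext i k
    simp [act, Equiv.arrowCongr]
  have h1 := conc (pw (pw p)) hPP hPP1 act (fun σ V => by
    rw [hact]
    unfold pw
    refine Finset.prod_congr rfl fun i _ => ?_
    exact Equiv.prod_comp (σ i) (fun k => p (V i k))) (f x) K (fun V => by
      rw [hf]
      exact hK _ (hmaps V x hx))
  refine le_trans (hent (w * x + s * η) η hη hηw) ?_
  refine le_trans (le_of_eq ?_) h1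
  refine Finset.sum_congr rfl fun V _ => ?_
  simp only [hact]
  rfl

end mu

end Pool.Agent.Y293.EM
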