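import Pool.Agent.Y293.EM.Mix

/-!
# A word whose type is close to `p` and whose type class is large
-/

set_option autoImplicit false

open Finset

namespace Pool.Agent.Y293.EM

open H517.EO

section typ

variable {A : Type} [Fintype A] [DecidableEq A]

theorem pw_eq_cnt (p : A → ℝ) {n : ℕ} (v : Fin n → A) : pw p v = ∏ a, p a ^ cnt v a := by
  unfold pw cnt
  rw [← Finset.prod_fiberwise_of_maps_to (s := Finset.univ) (t := Finset.univ) (g := v)
    (fun i _ => Finset.mem_univ _)]
  refine Finset.prod_congr rfl fun a _ => ?_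
  rw [Finset.prod_congr rfl (fun i hi => by rw [(Finset.mem_filter.1 hi).2]), Finset.prod_const]

/-- size of the type class -/
noncomputable def tc {n : ℕ} (v : Fin n → A) : ℝ :=
  ((Finset.univ.filter (fun w : Fin n → A => cnt w = cnt v)).card : ℝ)

theorem tc_pos {n : ℕ} (v : Fin n → A) : 1 ≤ tc v := by
  unfold tc
  exact_mod_cast Finset.card_pos.2 ⟨v, by simp⟩

theorem cnt_le {n : ℕ} (v : Fin n → A) (a : A) : cnt v a ≤ n := by
  unfold cnt
  exact (Finset.card_le_univ _).trans (by simp)

/-- the probability of the type class -/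
theorem tc_mul {p : A → ℝ} {n : ℕ} (v : Fin n → A) :
    tc v * pw p v = ∑ w ∈ Finset.univ.filter (fun w : Fin n → A => cnt w = cnt v), pw p w := by
  have h : ∀ w ∈ Finset.univ.filter (fun w : Fin n → A => cnt w = cnt v), pw p w = pw p v := by
    intro w hw
    rw [pw_eq_cnt, pw_eq_cnt, (Finset.mem_filter.1 hw).2]
  rw [Finset.sum_congr rfl h, Finset.sum_const, nsmul_eq_mul]
  rfl

theorem tc_mul_le {p : A → ℝ} (hp : ∀ a, 0 ≤ p a) (hp1 : ∑ a, p a = 1) {n : ℕ} (v : Fin n → A) :
    tc v * pw p v ≤ 1 := by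
  rw [tc_mul, ← sum_pw hp1 n]
  exact Finset.sum_le_univ_sum_of_nonneg fun w => pw_nonneg hp w

/-- number of types -/
theorem sum_inv_tc (n : ℕ) : ∑ v : Fin n → A, 1 / tc v ≤ ((n : ℝ) + 1) ^ Fintype.card A := by
  have h1 : ∑ v : Fin n → A, 1 / tc v =
      ((Finset.univ.image (fun v : Fin n → A => cnt v)).card : ℝ) := by
    rw [← Finset.sum_fiberwise_of_maps_to (s := Finset.univ)
      (t := Finset.univ.image (fun v : Fin n → A => cnt v)) (g := fun v => cnt v)
      (fun v hv => Finset.mem_image_of_mem _ hv), Finset.card_eq_sum_ones, Nat.cast_sum]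
    refine Finset.sum_congr rfl fun τ hτ => ?_
    obtain ⟨v0, -, rfl⟩ := Finset.mem_image.1 hτ
    have h2 : ∀ v ∈ Finset.univ.filter (fun v : Fin n → A => cnt v = cnt v0),
        1 / tc v = 1 / tc v0 := by
      intro v hv
      unfold tc
      rw [(Finset.mem_filter.1 hv).2]
    rw [Finset.sum_congr rfl h2, Finset.sum_const, nsmul_eq_mul]
    have h3 : tc v0 ≠ 0 := by have := tc_pos v0; linarith
    have h4 : ((Finset.univ.filter (fun v : Fin n → A => cnt v = cnt v0)).card : ℝ) = tc v0 := rfl
    rw [h4, mul_one_div, div_self h3, Nat.cast_one]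
  rw [h1]
  have h2 : (Finset.univ.image (fun v : Fin n → A => cnt v)).card ≤
      (Fintype.piFinset (fun _ : A => Finset.range (n + 1))).card := by
    apply Finset.card_le_card
    intro τ hτ
    obtain ⟨v, -, rfl⟩ := Finset.mem_image.1 hτ
    rw [Fintype.mem_piFinset]
    intro a
    rw [Finset.mem_range]
    have := cnt_le v a
    omega
  rw [Fintype.card_piFinset] at h2
  simp only [Finset.card_range, Finset.prod_const, Finset.card_univ] at h2
  exact_mod_cast h2

/-- average size of the type class -/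
theorem exp_tc {p : A → ℝ} (hp : ∀ a, 0 < p a) (hp1 : ∑ a, p a = 1) (n : ℕ) :
    n * (∑ a, Real.negMulLog (p a)) - Fintype.card A * Real.log (n + 1) ≤
      ∑ v : Fin n → A, pw p v * Real.log (tc v) := by
  set c : ℝ := ((n : ℝ) + 1) ^ Fintype.card A with hc
  have hn0 : (0 : ℝ) < (n : ℝ) + 1 := by positivity
  have hc0 : 0 < c := by positivity
  have hlogc : Real.log c = Fintype.card A * Real.log (n + 1) := by rw [hc, Real.log_pow]
  have h1 : ∀ v : Fin n → A, pw p v * (-Real.log (pw p v)) - pw p v * Real.log (tc v) ≤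
      1 / tc v / c - pw p v + pw p v * Real.log c := by
    intro v
    have hP := pw_pos hp v
    have hT : 0 < tc v := lt_of_lt_of_le one_pos (tc_pos v)
    have hx : 0 < 1 / (pw p v * tc v * c) := by positivity
    have h2 := Real.log_le_sub_one_of_pos hx
    have h3 : Real.log (1 / (pw p v * tc v * c)) =
        -Real.log (pw p v) - Real.log (tc v) - Real.log c := by
      rw [one_div, Real.log_inv, Real.log_mul (by positivity) hc0.ne',
        Real.log_mul hP.ne' hT.ne']
      ring
    rw [h3] at h2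
    have h4 := mul_le_mul_of_nonneg_left h2 hP.le
    have h5 : pw p v * (1 / (pw p v * tc v * c) - 1) = 1 / tc v / c - pw p v := by
      field_simp
    rw [h5] at h4
    linarith [h4]
  have h2 := Finset.sum_le_sum (fun v (_ : v ∈ (Finset.univ : Finset (Fin n → A))) => h1 v)
  rw [Finset.sum_sub_distrib, Finset.sum_add_distrib, Finset.sum_sub_distrib, ← Finset.sum_div,
    ← Finset.sum_mul, sum_pw hp1, one_mul, hlogc] at h2
  have h3 : ∑ v : Fin n → A, pw p v * (-Real.log (pw p v)) =
      n * ∑ a, Real.negMulLog (p a) := by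
    have h4 := exp_add hp1 (fun a => -Real.log (p a)) n
    have h5 : ∀ v : Fin n → A, pw p v * (-Real.log (pw p v)) =
        pw p v * ∑ i, -Real.log (p (v i)) := by
      intro v
      congr 1
      unfold pw
      rw [Real.log_prod (fun i _ => (hp _).ne'), Finset.sum_neg_distrib]
    rw [Finset.sum_congr rfl fun v _ => h5 v, h4]
    congr 1
    refine Finset.sum_congr rfl fun a _ => ?_
    unfold Real.negMulLog
    ring
  have h4 : (∑ v : Fin n → A, 1 / tc v) / c ≤ 1 := by
    rw [div_le_one hc0]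
    exact sum_inv_tc n
  linarith

/-- the average distance of the type from `p` -/
theorem exp_cnt {p : A → ℝ} (hp : ∀ a, 0 ≤ p a) (hp1 : ∑ a, p a = 1) (n : ℕ) (hn : 1 ≤ n) :
    ∑ v : Fin n → A, pw p v * ∑ a, |(cnt v a : ℝ) - n * p a| ≤
      2 * Fintype.card A * Real.sqrt n := by
  have h1 : ∀ a, ∑ v : Fin n → A, pw p v * |(cnt v a : ℝ) - n * p a| ≤ 2 * Real.sqrt n := by
    intro a
    set φ : A → ℝ := fun b => (if b = a then (1 : ℝ) else 0) - p a with hφ
    have h0 : ∑ b, p b * φ b = 0 := by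
      simp only [hφ, mul_sub]
      rw [Finset.sum_sub_distrib, ← Finset.sum_mul, hp1]
      simp
    have h2 : ∀ v : Fin n → A, (cnt v a : ℝ) - n * p a = ∑ i, φ (v i) := by
      intro v
      rw [cnt_eq_sum]
      simp only [hφ]
      rw [Finset.sum_sub_distrib, Finset.sum_const, Finset.card_univ, Fintype.card_fin,
        nsmul_eq_mul]
    have h3 := exp_abs hp hp1 φ h0 n hn
    have h4 : ∑ b, p b * φ b ^ 2 ≤ 1 := by
      rw [← hp1]
      apply Finset.sum_le_sum
      intro b _
      have hpa : p a ≤ 1 := by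
        rw [← hp1]
        exact Finset.single_le_sum (fun b _ => hp b) (Finset.mem_univ a)
      have h5 : φ b ^ 2 ≤ 1 := by
        simp only [hφ]
        have := hp a
        split_ifs <;> nlinarith
      have := hp b
      nlinarith
    calc _ = ∑ v : Fin n → A, pw p v * |∑ i, φ (v i)| :=
          Finset.sum_congr rfl fun v _ => by rw [h2 v]
      _ ≤ _ := h3
      _ ≤ 2 * Real.sqrt n := by
          apply mul_le_mul_of_nonneg_right _ (Real.sqrt_nonneg _)
          linarith
  have h2 : ∑ v : Fin n → A, pw p v * ∑ a, |(cnt v a : ℝ) - n * p a| =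
      ∑ a, ∑ v : Fin n → A, pw p v * |(cnt v a : ℝ) - n * p a| := by
    rw [Finset.sum_comm]
    refine Finset.sum_congr rfl fun v _ => ?_
    rw [Finset.mul_sum]
  rw [h2]
  refine (Finset.sum_le_sum fun a _ => h1 a).trans (le_of_eq ?_)
  rw [Finset.sum_const, Finset.card_univ, nsmul_eq_mul]
  ring

/-- the average deviation of the information -/
theorem exp_info {p : A → ℝ} (hp : ∀ a, 0 < p a) (hp1 : ∑ a, p a = 1) : ∃ C : ℝ, 0 ≤ C ∧
    ∀ n : ℕ, 1 ≤ n → ∑ v : Fin n → A, pw p v *
      |(-Real.log (pw p v)) - n * ∑ a, Real.negMulLog (p a)| ≤ C * Real.sqrt n := by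
  set H : ℝ := ∑ a, Real.negMulLog (p a) with hH
  set φ : A → ℝ := fun a => -Real.log (p a) - H with hφ
  have h0 : ∑ a, p a * φ a = 0 := by
    simp only [hφ, mul_sub]
    rw [Finset.sum_sub_distrib, ← Finset.sum_mul, hp1, hH]
    unfold Real.negMulLog
    simp
  refine ⟨1 + ∑ a, p a * φ a ^ 2, ?_, fun n hn => ?_⟩
  · have : 0 ≤ ∑ a, p a * φ a ^ 2 :=
      Finset.sum_nonneg fun a _ => mul_nonneg (hp a).le (sq_nonneg _)
    linarith
  · have h1 := exp_abs (fun a => (hp a).le) hp1 φ h0 n hn
    refine le_trans (le_of_eq ?_) h1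
    refine Finset.sum_congr rfl fun v _ => ?_
    congr 2
    simp only [hφ]
    rw [Finset.sum_sub_distrib, Finset.sum_const, Finset.card_univ, Fintype.card_fin, nsmul_eq_mul]
    unfold pw
    rw [Real.log_prod (fun i _ => (hp _).ne'), Finset.sum_neg_distrib]

/-- the good word -/
theorem exists_word {p : A → ℝ} (hp : ∀ a, 0 < p a) (hp1 : ∑ a, p a = 1) :
    ∃ C : ℝ, 0 ≤ C ∧ ∀ n : ℕ, 1 ≤ n → ∃ v : Fin n → A,
      n * (∑ a, Real.negMulLog (p a)) - C * Real.sqrt n * (Real.log (n + 1) + 1) ≤ Real.log (tc v) ∧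
      (∑ a, |(cnt v a : ℝ) - n * p a|) * Real.log n ≤ C * Real.sqrt n * (Real.log (n + 1) + 1) := by
  obtain ⟨C1, hC1, hinfo⟩ := exp_info hp hp1
  set H : ℝ := ∑ a, Real.negMulLog (p a) with hH
  set m : ℝ := (Fintype.card A : ℝ) with hm
  have hm0 : 0 ≤ m := by rw [hm]; positivity
  refine ⟨C1 + 3 * m, by positivity, fun n hn => ?_⟩
  have hn1 : (1 : ℝ) ≤ n := by exact_mod_cast hn
  have hs1 : 1 ≤ Real.sqrt n := by rw [Real.one_le_sqrt]; exact hn1
  have hln : 0 ≤ Real.log n := Real.log_nonneg hn1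
  have hln1 : Real.log n ≤ Real.log (n + 1) := Real.log_le_log (by linarith) (by linarith)
  have hln2 : 0 ≤ Real.log ((n : ℝ) + 1) := Real.log_nonneg (by linarith)
  -- the functional
  set Φ : (Fin n → A) → ℝ := fun v => min (Real.log (tc v)) (n * H) -
    (∑ a, |(cnt v a : ℝ) - n * p a|) * Real.log n with hΦ
  set r : ℝ := m * Real.log (n + 1) + C1 * Real.sqrt n + 2 * m * Real.sqrt n * Real.log n with hr
  have hrle : r ≤ (C1 + 3 * m) * Real.sqrt n * (Real.log (n + 1) + 1) := by
    rw [hr]
    have e1 : m * Real.log (n + 1) ≤ m * (Real.sqrt n * Real.log (n + 1)) := by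
      apply mul_le_mul_of_nonneg_left _ hm0
      nlinarith
    have e2 : 2 * m * Real.sqrt n * Real.log n ≤ 2 * m * Real.sqrt n * Real.log (n + 1) :=
      mul_le_mul_of_nonneg_left hln1 (by positivity)
    have e3 : 0 ≤ C1 * Real.sqrt n * Real.log (n + 1) := by positivity
    have e4 : 0 ≤ m * Real.sqrt n := by positivity
    nlinarith
  have hexp : n * H - r ≤ ∑ v : Fin n → A, pw p v * Φ v := by
    have h1 : ∀ v : Fin n → A, pw p v * Real.log (tc v) -
        pw p v * |(-Real.log (pw p v)) - n * H| -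
        (pw p v * ∑ a, |(cnt v a : ℝ) - n * p a|) * Real.log n ≤ pw p v * Φ v := by
      intro v
      have hP := pw_pos hp v
      have hT : 0 < tc v := lt_of_lt_of_le one_pos (tc_pos v)
      have h2 : Real.log (tc v) ≤ -Real.log (pw p v) := by
        have h3 := Real.log_le_log (mul_pos hT hP) (tc_mul_le (fun a => (hp a).le) hp1 v)
        rw [Real.log_mul hT.ne' hP.ne', Real.log_one] at h3
        linarith
      have h3 : Real.log (tc v) - |(-Real.log (pw p v)) - n * H| ≤
          min (Real.log (tc v)) (n * H) := by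
        apply le_min
        · linarith [abs_nonneg ((-Real.log (pw p v)) - n * H)]
        · linarith [le_abs_self ((-Real.log (pw p v)) - n * H)]
      have h4 := mul_le_mul_of_nonneg_left h3 hP.le
      simp only [hΦ]
      nlinarith [h4]
    have h2 := Finset.sum_le_sum (fun v (_ : v ∈ (Finset.univ : Finset (Fin n → A))) => h1 v)
    rw [Finset.sum_sub_distrib, Finset.sum_sub_distrib, ← Finset.sum_mul] at h2
    have h3 := exp_tc hp hp1 n
    have h4 := hinfo n hn
    have h5 := mul_le_mul_of_nonneg_right (exp_cnt (fun a => (hp a).le) hp1 n hn) hln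
    rw [← hH] at h3
    rw [hr]
    linarith
  -- some word is above the average
  obtain ⟨v, hv⟩ : ∃ v : Fin n → A, n * H - r ≤ Φ v := by
    by_contra hcon
    push Not at hcon
    have h1 : ∑ v : Fin n → A, pw p v * Φ v < ∑ v : Fin n → A, pw p v * (n * H - r) := by
      have hne : (Finset.univ : Finset (Fin n → A)).Nonempty := by
        by_contra hemp
        rw [Finset.not_nonempty_iff_eq_empty] at hemp
        have h2 := sum_pw hp1 n
        rw [hemp] at h2
        simp at h2
      exact Finset.sum_lt_sum_of_nonempty hne fun v _ => mul_lt_mul_of_pos_left (hcon v) (pw_pos hp v)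
    rw [← Finset.sum_mul, sum_pw hp1, one_mul] at h1
    linarith
  refine ⟨v, ?_, ?_⟩
  · have h1 : 0 ≤ (∑ a, |(cnt v a : ℝ) - n * p a|) * Real.log n :=
      mul_nonneg (Finset.sum_nonneg fun a _ => abs_nonneg _) hln
    have h2 : min (Real.log (tc v)) (n * H) ≤ Real.log (tc v) := min_le_left _ _
    simp only [hΦ] at hv
    linarith
  · have h2 : min (Real.log (tc v)) (n * H) ≤ n * H := min_le_right _ _
    simp only [hΦ] at hv
    linarith

end typ

end Pool.Agent.Y293.EM
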